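import Pool.Agent.Helper68.DO.D19k

/-!
# MP_d07457_gt, module D19: from group cocycles to Lie cocycles, (6.2) and (6.3)
-/

namespace Pool.Agent.Helper67.DO

open scoped BigOperators Real
open MeasureTheory

noncomputable section

/-- the smoothed cochains form a mixed cochain -/
theorem d19_MC (h2 : ST_D2) (h5 : ST_D5) (h7 : ST_D7) (h11 : ST_D11) (h12 : ST_D12) (n n' p : ℕ) (ρ s M s0 : ℝ)
    (Ω : Type) [TopologicalSpace Ω] [CompactSpace Ω] [T2Space Ω]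
    [SecondCountableTopology Ω] [MeasurableSpace Ω] [BorelSpace Ω] (P : Measure Ω) [IsProbabilityMeasure P]
    (η : Ω → ℂ → ℂ) (w : Ω → (ℂ → ℂ) → ℂ) (Cw : ℝ) (h : Ctx n n' ρ s M s0 Ω P η w Cw)
    (C : Sq → ℂ) (hC : LC n' (p + 1) C) (hCo : CocL n' (p + 1) C) : MC n (p + 1) (CJ P η w ρ (p + 1) C) := by
  obtain ⟨-, -, h5c, h5d, h5e⟩ := h5 n n' (p + 1) ρ s M s0 Ω P η w Cw h C hC
  have h7' := h7 n n' (p + 1) ρ s M s0 Ω P η w Cw h C hC
  obtain ⟨-, -, -, -, htr, -⟩ := h2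
  refine ⟨?_, ?_, h5c, ?_, h5d, ?_, ?_⟩
  · intro j _ y y' v hyy
    unfold CJ
    refine integral_congr_ae (Filter.Eventually.of_forall fun ω => ?_)
    show C (fun k => if h : k < p + 1 + 1 then gg η (ω ⟨k, h⟩) (y k) else y k) * _
      = C (fun k => if h : k < p + 1 + 1 then gg η (ω ⟨k, h⟩) (y' k) else y' k) * _
    congr 1
    · refine hC.dep _ _ fun k hk => ?_
      have hk' : k < p + 1 + 1 := by omega
      simp only [hk', dif_pos, hyy k hk]
    · refine Finset.prod_congr rfl fun b _ => ?_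
      rw [hyy b (by omega)]
  · intro j _ y v v' hvv
    unfold CJ
    refine integral_congr_ae (Filter.Eventually.of_forall fun ω => ?_)
    show C (fun k => if h : k < p + 1 + 1 then gg η (ω ⟨k, h⟩) (y k) else y k) * _
      = C (fun k => if h : k < p + 1 + 1 then gg η (ω ⟨k, h⟩) (y k) else y k) * _
    congr 1
    refine Finset.prod_congr rfl fun b _ => ?_
    by_cases hb : (b : ℕ) < j
    · simp only [hb, if_true, hvv _ hb]
    · simp only [hb, if_false]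
  · intro j hj y v t s' K hy hv
    rw [h7' j hj (fun k x => y k x + t k) v s' K (fun k => (htr n h.good.1 _ (hy k) (t k)).1) hv]
    exact h5e j hj y v t K hy hv
  · exact (h12 n n' p ρ s M s0 Ω P η w Cw h C hC hCo).1
  · exact h11 n n' (p + 1) ρ s M s0 Ω P η w Cw h C hC

theorem st_D19 (h2 : ST_D2) (h5 : ST_D5) (h7 : ST_D7) (h11 : ST_D11) (h12 : ST_D12) (h13 : ST_D13) (h18 : ST_D18)
    (hE1 : ST_E1) : ST_D19 := by
  intro n n' p ρ s M s0 s' Ω _ _ _ _ _ _ P _ η w Cw h hn hs0 hs' C hC hCo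
  obtain ⟨α, hfnl, hrot, hio, hform⟩ := d19_main1 h2 h5 h7 n n' p ρ s M s0 s' Ω P η w Cw h hn hs0 hs' C hC
  refine ⟨α, hfnl, ?_, hrot, hio, hform⟩
  have hs'0 : 0 < s' := h.s0pos.trans hs0
  have hmono := h2.1 n n' h.good.1 h.good.2.1
  -- `δ I(α) = 0`
  have hMC := d19_MC h2 h5 h7 h11 h12 n n' p ρ s M s0 Ω P η w Cw h C hC hCo
  obtain ⟨-, hh, -, hh2⟩ := h12 n n' p ρ s M s0 Ω P η w Cw h C hC hCo
  have hII : ∀ y : Sq, (∀ k, y k ∈ AA n) → II ρ (p + 1) α y = (-1 : ℂ) ^ (p + 1) *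
      (C y + ((-1) * dlt p hh y + (-1) * dlt p (BB (p + 1) (CJ P η w ρ (p + 1) C)) y)) := by
    intro y hy
    have e1 := h13 n p _ h.good.1 hMC y y hy
    have e2 := hh2 y (fun _ _ => 0) hy
    rw [hform y y hy] at e1
    have e3 : (-1 : ℂ) ^ (p + 1) * (-1 : ℂ) ^ (p + 1) = 1 := by
      rw [← mul_pow]; simp
    rw [e2, e1]
    linear_combination (-(II ρ (p + 1) α y)) * e3
  have hdII : ∀ y : Sq, (∀ k, y k ∈ AA n) → dlt (p + 1) (II ρ (p + 1) α) y = 0 := by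
    intro y hy
    rw [d19_dlt_congr n (p + 1) hII y hy, d19_dlt_smul, d19_dlt_add, d19_dlt_add, d19_dlt_smul, d19_dlt_smul,
      d19_dlt_dlt, d19_dlt_dlt, hCo y fun k => hmono (hy k)]
    ring
  obtain ⟨-, h18'⟩ := h18 n p ρ s M s' h.good.1 h.inv hs'0 hs' α hfnl hrot hio
  have hI0 : ∀ y : Sq, (∀ k, y k ∈ AA n) → II ρ (p + 2) (fun F => α (dd (p + 1) F)) y = 0 := by
    intro y hy
    have e1 := h18' y hy
    rw [hdII y hy] at e1
    exact neg_eq_zero.1 e1.symm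
  -- conclusion
  intro s1 hs1 F hF
  obtain ⟨s2, hs2a, hs2b⟩ := exists_between (lt_min hs1 hs')
  have hs2c : s2 < s1 := lt_of_lt_of_le hs2b (min_le_left _ _)
  have hs2d : s2 < s := lt_of_lt_of_le hs2b (min_le_right _ _)
  have hβ : Fnl (p + 2) (St s2) (fun F => α (dd (p + 1) F)) := d19_dd_fnl hE1 hs2a hfnl
  have hlim := d19_limit h.inv hn hs2d.le hβ hI0
  exact d19_vanish_dense (hs'0.trans hs2a) hs2c hβ (d19_WW_ex hβ hlim) hF

end

end Pool.Agent.Helper67.DO
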