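import Pool.Agent.Helper67.DO.StmtsD

/-!
# MP_d07457_gt, module D19, part a: multiple Fourier series of bounded holomorphic periodic functions on strips
-/

namespace Pool.Agent.Helper67.DO

open scoped BigOperators Real
open MeasureTheory

noncomputable section

theorem d19_isOpen_St (s : ℝ) : IsOpen (St s) := by
  have : St s = (fun z : ℂ => |z.im|) ⁻¹' Set.Iio s := by
    ext z; simp [St]
  rw [this]
  exact isOpen_Iio.preimage (by fun_prop)

theorem d19_convex_St (s : ℝ) : Convex ℝ (St s) := by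
  have : St s = {z : ℂ | -s < z.im} ∩ {z : ℂ | z.im < s} := by
    ext z; simp [St, abs_lt]
  rw [this]
  exact (convex_halfSpace_im_gt _).inter (convex_halfSpace_im_lt _)

theorem d19_isOpen_PU {q : ℕ} {U : Set ℂ} (h : IsOpen U) : IsOpen (PU q U) := by
  have : PU q U = Set.pi Set.univ (fun _ => U) := by
    ext z; simp [PU]
  rw [this]
  exact isOpen_set_pi Set.finite_univ (fun _ _ => h)

/-- identity theorem on a strip -/
theorem d19_idthm {s : ℝ} (hs : 0 < s) {f g : ℂ → ℂ} (hf : DifferentiableOn ℂ f (St s))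
    (hg : DifferentiableOn ℂ g (St s)) (h : ∀ x : ℝ, f x = g x) : ∀ z ∈ St s, f z = g z := by
  have h0 : (0 : ℂ) ∈ St s := by simpa [St] using hs
  have hE := (hf.analyticOnNhd (d19_isOpen_St s)).eqOn_of_preconnected_of_frequently_eq
    (hg.analyticOnNhd (d19_isOpen_St s)) (d19_convex_St s).isPreconnected h0 ?_
  · exact fun z hz => hE hz
  · rw [Filter.frequently_iff]
    intro V hV
    rw [mem_nhdsWithin_iff_exists_mem_nhds_inter] at hV
    obtain ⟨W, hW, hWV⟩ := hV
    obtain ⟨ε, he, hb⟩ := Metric.mem_nhds_iff.1 hW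
    refine ⟨((ε / 2 : ℝ) : ℂ), hWV ⟨hb ?_, ?_⟩, h _⟩
    · rw [Metric.mem_ball, dist_zero_right, Complex.norm_real, Real.norm_eq_abs, abs_of_pos (by linarith)]
      linarith
    · simp only [Set.mem_compl_iff, Set.mem_singleton_iff, Complex.ofReal_eq_zero]
      linarith

/-- bounded holomorphic periodic functions, not necessarily alternating -/
structure D19PH (q : ℕ) (s : ℝ) (F : (Fin q → ℂ) → ℂ) : Prop where
  hol : DifferentiableOn ℂ F (PU q (St s))
  per : ∀ z ∈ PU q (St s), ∀ i, F (Function.update z i (z i + 1)) = F z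
  bdd : ∃ C : ℝ, ∀ z ∈ PU q (St s), ‖F z‖ ≤ C

theorem d19_BO_PH {q : ℕ} {s : ℝ} {F : (Fin q → ℂ) → ℂ} (h : BO q (St s) F) : D19PH q s F :=
  ⟨h.hol, h.per, h.bdd⟩

theorem d19_int_mem {s : ℝ} {z : ℂ} (m : ℤ) (h : z ∈ St s) : z + m ∈ St s := by
  simpa [St] using h

theorem d19_real_mem {s : ℝ} {z : ℂ} (m : ℝ) (h : z ∈ St s) : z + m ∈ St s := by
  simpa [St] using h

/-- integer periodicity in one variable -/
theorem d19_per1 {q : ℕ} {s : ℝ} {F : (Fin q → ℂ) → ℂ} (h : D19PH q s F) (z : Fin q → ℂ) (hz : z ∈ PU q (St s))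
    (i : Fin q) (m : ℤ) : F (Function.update z i (z i + m)) = F z := by
  have hu : ∀ m : ℤ, Function.update z i (z i + m) ∈ PU q (St s) := by
    intro m j
    by_cases hj : j = i
    · subst hj; simpa using d19_int_mem m (hz j)
    · simpa [Function.update_of_ne hj] using hz j
  induction m using Int.induction_on with
  | zero => simp
  | succ k ih =>
    have := h.per _ (hu k) i
    rw [Function.update_idem, Function.update_self] at this
    rw [← ih, ← this]
    push_cast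
    rw [add_assoc]
  | pred k ih =>
    have := h.per _ (hu (-(k : ℤ) - 1)) i
    rw [Function.update_idem, Function.update_self] at this
    rw [← this, ← ih]
    push_cast
    congr 2
    ring

/-- integer periodicity -/
theorem d19_perm {q : ℕ} {s : ℝ} {F : (Fin q → ℂ) → ℂ} (h : D19PH q s F) (z : Fin q → ℂ) (hz : z ∈ PU q (St s))
    (m : Fin q → ℤ) : F (fun j => z j + m j) = F z := by
  have key : ∀ S : Finset (Fin q), F (fun j => if j ∈ S then z j + m j else z j) = F z := by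
    intro S
    induction S using Finset.induction_on with
    | empty => simp
    | insert a S ha ih =>
      rw [← ih]
      have hu : (fun j => if j ∈ S then z j + m j else z j) ∈ PU q (St s) := by
        intro j
        by_cases hj : j ∈ S
        · simpa [hj] using d19_int_mem (m j) (hz j)
        · simpa [hj] using hz j
      rw [← d19_per1 h _ hu a (m a)]
      congr 1
      funext j
      by_cases hj : j = a
      · subst hj; simp [ha]
      · simp [Finset.mem_insert, hj]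
  simpa using key Finset.univ

/-- exponential monomials -/
def d19_en {q : ℕ} (l : Fin q → ℤ) (z : Fin q → ℂ) : ℂ :=
  ∏ j, Complex.exp (2 * π * Complex.I * l j * z j)

theorem d19_en_add {q : ℕ} (l : Fin q → ℤ) (z w : Fin q → ℂ) :
    d19_en l (fun j => z j + w j) = d19_en l z * d19_en l w := by
  unfold d19_en
  rw [← Finset.prod_mul_distrib]
  refine Finset.prod_congr rfl fun j _ => ?_
  rw [← Complex.exp_add]
  congr 1
  ring

theorem d19_en_ne {q : ℕ} (l : Fin q → ℤ) (z : Fin q → ℂ) : d19_en l z ≠ 0 :=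
  Finset.prod_ne_zero_iff.2 fun _ _ => Complex.exp_ne_zero _

theorem d19_en_zero {q : ℕ} (l : Fin q → ℤ) : d19_en l (fun _ => 0) = 1 := by
  simp [d19_en]

theorem d19_en_neg {q : ℕ} (l : Fin q → ℤ) (z : Fin q → ℂ) : d19_en (-l) z * d19_en l z = 1 := by
  unfold d19_en
  rw [← Finset.prod_mul_distrib]
  refine Finset.prod_eq_one fun j _ => ?_
  rw [← Complex.exp_add]
  simp

theorem d19_norm_exp (m : ℤ) (z : ℂ) :
    ‖Complex.exp (2 * π * Complex.I * m * z)‖ = Real.exp (-(2 * π * m * z.im)) := by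
  rw [Complex.norm_exp]
  congr 1
  simp [Complex.mul_re, Complex.mul_im]

theorem d19_norm_exp_le {s : ℝ} (m : ℤ) (z : ℂ) (hz : z ∈ St s) :
    ‖Complex.exp (2 * π * Complex.I * m * z)‖ ≤ Real.exp (2 * π * s * |(m : ℝ)|) := by
  rw [d19_norm_exp]
  apply Real.exp_le_exp.2
  have h1 : -((m : ℝ) * z.im) ≤ |(m : ℝ)| * |z.im| := by
    rw [← abs_mul]; exact neg_le_abs _
  have h2 : |(m : ℝ)| * |z.im| ≤ |(m : ℝ)| * s := mul_le_mul_of_nonneg_left (le_of_lt hz) (abs_nonneg _)
  nlinarith [Real.pi_pos]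

theorem d19_en_norm_real {q : ℕ} (l : Fin q → ℤ) (x : Fin q → ℝ) : ‖d19_en l (fun j => (x j : ℂ))‖ = 1 := by
  unfold d19_en
  rw [norm_prod]
  refine Finset.prod_eq_one fun j _ => ?_
  rw [d19_norm_exp]
  simp

theorem d19_en_norm_le {q : ℕ} {s : ℝ} (l : Fin q → ℤ) (z : Fin q → ℂ) (hz : z ∈ PU q (St s)) :
    ‖d19_en l z‖ ≤ ∏ j, Real.exp (2 * π * s * |(l j : ℝ)|) := by
  unfold d19_en
  rw [norm_prod]
  exact Finset.prod_le_prod (fun _ _ => norm_nonneg _) fun j _ => d19_norm_exp_le _ _ (hz j)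

theorem d19_en_int {q : ℕ} (l : Fin q → ℤ) (m : Fin q → ℤ) : d19_en l (fun j => (m j : ℂ)) = 1 := by
  unfold d19_en
  refine Finset.prod_eq_one fun j _ => ?_
  rw [Complex.exp_eq_one_iff]
  exact ⟨l j * m j, by push_cast; ring⟩

theorem d19_en_diff {q : ℕ} (l : Fin q → ℤ) : Differentiable ℂ (d19_en l) := by
  have : d19_en l = fun z => Complex.exp (∑ j, 2 * π * Complex.I * l j * z j) := by
    funext z
    rw [Complex.exp_sum]
    rfl
  rw [this]
  fun_prop

/-- the fundamental box -/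
def d19_B (q : ℕ) : Set (Fin q → ℝ) := {x | ∀ i, x i ∈ Set.Ioc (0 : ℝ) (0 + 1)}

theorem d19_B_pi (q : ℕ) : d19_B q = Set.pi Set.univ (fun _ => Set.Ioc (0 : ℝ) (0 + 1)) := by
  ext x; simp [d19_B]

theorem d19_B_meas (q : ℕ) : MeasurableSet (d19_B q) := by
  rw [d19_B_pi]
  exact MeasurableSet.univ_pi fun _ => measurableSet_Ioc

theorem d19_B_vol (q : ℕ) : volume (d19_B q) = 1 := by
  rw [d19_B_pi, Real.volume_pi_Ioc]
  simp

theorem d19_B_fin (q : ℕ) : IsFiniteMeasure (volume.restrict (d19_B q)) := by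
  constructor
  rw [Measure.restrict_apply MeasurableSet.univ, Set.univ_inter, d19_B_vol]
  exact ENNReal.one_lt_top

/-- continuous functions are integrable on the box -/
theorem d19_B_int {q : ℕ} {f : (Fin q → ℝ) → ℂ} (hf : Continuous f) : IntegrableOn f (d19_B q) := by
  have h : IntegrableOn f (Set.Icc (0 : Fin q → ℝ) 1) := hf.continuousOn.integrableOn_compact isCompact_Icc
  refine h.mono_set ?_
  intro x hx
  exact ⟨fun i => (hx i).1.le, fun i => by simpa using (hx i).2⟩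

/-- continuous integer periodic functions come from the torus -/
theorem d19_lift {q : ℕ} {h : (Fin q → ℝ) → ℂ} (hc : Continuous h)
    (hp : ∀ (x : Fin q → ℝ) (m : Fin q → ℤ), h (fun j => x j + m j) = h x) :
    ∃ f : C(UnitAddTorus (Fin q), ℂ), ∀ x : Fin q → ℝ, f (fun i => (x i : UnitAddCircle)) = h x := by
  have hq : IsOpenQuotientMap (Pi.map (fun (_ : Fin q) (x : ℝ) => (x : UnitAddCircle))) :=
    IsOpenQuotientMap.piMap fun _ => QuotientAddGroup.isOpenQuotientMap_mk
  let π' : C(Fin q → ℝ, Fin q → UnitAddCircle) := ⟨_, hq.continuous⟩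
  have hq' : Topology.IsQuotientMap π' := hq.isQuotientMap
  have hfac : Function.FactorsThrough (⟨h, hc⟩ : C(Fin q → ℝ, ℂ)) π' := by
    intro x y hxy
    have h1 : ∀ i, ∃ m : ℤ, x i = y i + m := by
      intro i
      have h2 : ((x i : ℝ) : UnitAddCircle) = ((y i : ℝ) : UnitAddCircle) := congrFun hxy i
      have h3 : ((x i - y i : ℝ) : UnitAddCircle) = 0 := by
        rw [AddCircle.coe_sub, h2, sub_self]
      obtain ⟨n, hn⟩ := (AddCircle.coe_eq_zero_iff (1 : ℝ)).1 h3
      refine ⟨n, ?_⟩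
      rw [zsmul_eq_mul, mul_one] at hn
      linarith
    choose m hm using h1
    show h x = h y
    rw [← hp y m]
    congr 1
    funext i
    exact hm i
  refine ⟨hq'.lift ⟨h, hc⟩ hfac, fun x => ?_⟩
  have := congrArg (fun g : C(Fin q → ℝ, ℂ) => g x) (hq'.lift_comp ⟨h, hc⟩ hfac)
  exact this

/-- translation invariance of the integral over the box -/
theorem d19_transl {q : ℕ} {h : (Fin q → ℝ) → ℂ} (hc : Continuous h)
    (hp : ∀ (x : Fin q → ℝ) (m : Fin q → ℤ), h (fun j => x j + m j) = h x) (r : Fin q → ℝ) :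
    ∫ x in d19_B q, h (fun j => r j + x j) = ∫ x in d19_B q, h x := by
  obtain ⟨f, hf⟩ := d19_lift hc hp
  have h0 := UnitAddTorus.integral_preimage (f : UnitAddTorus (Fin q) → ℂ) (fun _ => 0)
  have h1 := UnitAddTorus.integral_preimage (f : UnitAddTorus (Fin q) → ℂ) r
  have e0 : ∫ x in d19_B q, h x = ∫ (x : Fin q → ℝ) in {x | ∀ i, x i ∈ Set.Ioc (0 : ℝ) (0 + 1)}, f (fun i => (x i : UnitAddCircle)) := by
    refine setIntegral_congr_fun (d19_B_meas q) fun x _ => ?_
    exact (hf x).symm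
  rw [e0, ← h0, h1]
  simp_rw [hf]
  have hm : MeasurePreserving (fun x : Fin q → ℝ => r + x) volume volume := measurePreserving_add_left volume r
  have he : MeasurableEmbedding (fun x : Fin q → ℝ => r + x) := measurableEmbedding_addLeft r
  have := hm.setIntegral_preimage_emb he h {x | ∀ i, x i ∈ Set.Ioc (r i) (r i + 1)}
  rw [← this]
  have hset : (fun x : Fin q → ℝ => r + x) ⁻¹' {x | ∀ i, x i ∈ Set.Ioc (r i) (r i + 1)} = d19_B q := by
    ext x
    simp [d19_B]
  rw [hset]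
  rfl

/-- Fourier coefficient of `F (z + ·)` -/
def d19_cf {q : ℕ} (F : (Fin q → ℂ) → ℂ) (z : Fin q → ℂ) (l : Fin q → ℤ) : ℂ :=
  ∫ x in d19_B q, F (fun j => z j + (x j : ℂ)) * d19_en (-l) (fun j => (x j : ℂ))

theorem d19_en_cont {q : ℕ} (l : Fin q → ℤ) : Continuous (fun x : Fin q → ℝ => d19_en l (fun j => (x j : ℂ))) :=
  (d19_en_diff l).continuous.comp (by fun_prop)

theorem d19_F_cont {q : ℕ} {s : ℝ} {F : (Fin q → ℂ) → ℂ} (h : D19PH q s F) {z : Fin q → ℂ} (hz : z ∈ PU q (St s)) :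
    Continuous (fun x : Fin q → ℝ => F (fun j => z j + (x j : ℂ))) := by
  refine h.hol.continuousOn.comp_continuous (by fun_prop) ?_
  intro x j
  exact d19_real_mem _ (hz j)

/-- real translations -/
theorem d19_cf_real {q : ℕ} {s : ℝ} {F : (Fin q → ℂ) → ℂ} (h : D19PH q s F) {z : Fin q → ℂ} (hz : z ∈ PU q (St s))
    (l : Fin q → ℤ) (r : Fin q → ℝ) :
    d19_cf F (fun j => z j + (r j : ℂ)) l = d19_en l (fun j => (r j : ℂ)) * d19_cf F z l := by
  have hc : Continuous (fun x : Fin q → ℝ => F (fun j => z j + (x j : ℂ)) * d19_en (-l) (fun j => (x j : ℂ))) :=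
    (d19_F_cont h hz).mul (d19_en_cont (-l))
  have hp : ∀ (x : Fin q → ℝ) (m : Fin q → ℤ),
      (fun x : Fin q → ℝ => F (fun j => z j + (x j : ℂ)) * d19_en (-l) (fun j => (x j : ℂ))) (fun j => x j + m j)
      = (fun x : Fin q → ℝ => F (fun j => z j + (x j : ℂ)) * d19_en (-l) (fun j => (x j : ℂ))) x := by
    intro x m
    have e1 := d19_perm h (fun j => z j + (x j : ℂ)) (fun j => d19_real_mem _ (hz j)) m
    have e2 := d19_en_add (-l) (fun j => (x j : ℂ)) (fun j => (m j : ℂ))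
    rw [d19_en_int, mul_one] at e2
    show F (fun j => z j + ((x j + m j : ℝ) : ℂ)) * d19_en (-l) (fun j => ((x j + m j : ℝ) : ℂ))
      = F (fun j => z j + (x j : ℂ)) * d19_en (-l) (fun j => (x j : ℂ))
    rw [← e1, ← e2]
    simp only [Complex.ofReal_add, Complex.ofReal_intCast, add_assoc]
  have key := d19_transl hc hp r
  unfold d19_cf
  rw [← key, ← integral_const_mul]
  refine setIntegral_congr_fun (d19_B_meas q) fun x _ => ?_
  show _ = d19_en l (fun j => (r j : ℂ)) * (F (fun j => z j + ((r j + x j : ℝ) : ℂ)) *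
    d19_en (-l) (fun j => ((r j + x j : ℝ) : ℂ)))
  have e2 := d19_en_add (-l) (fun j => (r j : ℂ)) (fun j => (x j : ℂ))
  have e3 := d19_en_neg l (fun j => (r j : ℂ))
  simp only [Complex.ofReal_add]
  rw [e2]
  have e4 : (fun j => z j + ((r j : ℂ) + (x j : ℂ))) = fun j => z j + (r j : ℂ) + (x j : ℂ) := by
    funext j; ring
  rw [e4]
  linear_combination (-(F fun j => z j + (r j : ℂ) + (x j : ℂ)) * d19_en (-l) (fun j => (x j : ℂ))) * e3

/-- bound -/
theorem d19_cf_le {q : ℕ} {s : ℝ} {F : (Fin q → ℂ) → ℂ} {M : ℝ} (hM : ∀ z ∈ PU q (St s), ‖F z‖ ≤ M)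
    {z : Fin q → ℂ} (hz : z ∈ PU q (St s)) (l : Fin q → ℤ) : ‖d19_cf F z l‖ ≤ M := by
  have h1 : ‖d19_cf F z l‖ ≤ M * (volume (d19_B q)).toReal := by
    refine norm_setIntegral_le_of_norm_le_const ?_ fun x _ => ?_
    · rw [d19_B_vol]; exact ENNReal.one_lt_top
    · rw [norm_mul, d19_en_norm_real, mul_one]
      exact hM _ fun j => d19_real_mem _ (hz j)
  simpa [d19_B_vol] using h1

/-- holomorphy of the coefficient along a complex line -/
theorem d19_cf_hol {q : ℕ} {s : ℝ} {F : (Fin q → ℂ) → ℂ} (h : D19PH q s F) (l : Fin q → ℤ) (a b : Fin q → ℝ) (R : ℝ)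
    (hR : ∀ ζ ∈ St R, (fun j => (a j : ℂ) + ζ * b j) ∈ PU q (St s)) :
    DifferentiableOn ℂ (fun ζ : ℂ => d19_cf F (fun j => (a j : ℂ) + ζ * b j) l) (St R) := by
  intro ζ0 hζ0
  obtain ⟨M, hM⟩ := h.bdd
  obtain ⟨ε, he, hb⟩ := Metric.isOpen_iff.1 (d19_isOpen_St R) ζ0 hζ0
  have hfin := d19_B_fin q
  -- holomorphy in `ζ`
  have hd : ∀ x : Fin q → ℝ, DifferentiableOn ℂ
      (fun ζ : ℂ => F (fun j => (a j : ℂ) + ζ * b j + (x j : ℂ))) (St R) := by
    intro x
    refine h.hol.comp (f := fun ζ : ℂ => (fun j => (a j : ℂ) + ζ * b j + (x j : ℂ))) ?_ ?_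
    · fun_prop
    · intro ζ hζ j
      exact d19_real_mem _ (hR ζ hζ j)
  have hin : ∀ ζ ∈ Metric.ball ζ0 (ε / 2), Metric.closedBall ζ (ε / 4) ⊆ St R := by
    intro ζ hζ w hw
    apply hb
    rw [Metric.mem_ball] at hζ ⊢
    rw [Metric.mem_closedBall] at hw
    have := dist_triangle w ζ ζ0
    linarith
  have hder : ∀ x : Fin q → ℝ, ∀ ζ ∈ Metric.ball ζ0 (ε / 2),
      HasDerivAt (fun ζ : ℂ => F (fun j => (a j : ℂ) + ζ * b j + (x j : ℂ)) * d19_en (-l) (fun j => (x j : ℂ)))
        (deriv (fun ζ : ℂ => F (fun j => (a j : ℂ) + ζ * b j + (x j : ℂ))) ζ * d19_en (-l) (fun j => (x j : ℂ))) ζ := by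
    intro x ζ hζ
    have h1 : ζ ∈ St R := hin ζ hζ (Metric.mem_closedBall_self (by linarith))
    exact ((hd x).differentiableAt ((d19_isOpen_St R).mem_nhds h1)).hasDerivAt.mul_const _
  have hbd : ∀ x : Fin q → ℝ, ∀ ζ ∈ Metric.ball ζ0 (ε / 2),
      ‖deriv (fun ζ : ℂ => F (fun j => (a j : ℂ) + ζ * b j + (x j : ℂ))) ζ * d19_en (-l) (fun j => (x j : ℂ))‖
        ≤ M / (ε / 4) := by
    intro x ζ hζ
    rw [norm_mul, d19_en_norm_real, mul_one]
    refine Complex.norm_deriv_le_of_forall_mem_sphere_norm_le (by linarith) ?_ ?_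
    · refine DifferentiableOn.diffContOnCl ?_
      refine (hd x).mono ?_
      exact (Metric.closure_ball_subset_closedBall).trans (hin ζ hζ)
    · intro w hw
      have hw' : w ∈ St R := hin ζ hζ (Metric.sphere_subset_closedBall hw)
      exact hM _ fun j => d19_real_mem _ (hR w hw' j)
  have hmeas : ∀ ζ ∈ St R, AEStronglyMeasurable (fun x : Fin q → ℝ =>
      F (fun j => (a j : ℂ) + ζ * b j + (x j : ℂ)) * d19_en (-l) (fun j => (x j : ℂ))) (volume.restrict (d19_B q)) := by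
    intro ζ hζ
    exact ((d19_F_cont h (hR ζ hζ)).mul (d19_en_cont (-l))).aestronglyMeasurable
  have hball0 : ζ0 ∈ Metric.ball ζ0 (ε / 2) := Metric.mem_ball_self (by linarith)
  refine (hasDerivAt_integral_of_dominated_loc_of_deriv_le (μ := volume.restrict (d19_B q))
    (F := fun (ζ : ℂ) (x : Fin q → ℝ) => F (fun j => (a j : ℂ) + ζ * b j + (x j : ℂ)) * d19_en (-l) (fun j => (x j : ℂ)))
    (F' := fun (ζ : ℂ) (x : Fin q → ℝ) => deriv (fun ζ : ℂ => F (fun j => (a j : ℂ) + ζ * b j + (x j : ℂ))) ζ *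
      d19_en (-l) (fun j => (x j : ℂ))) (bound := fun _ => M / (ε / 4)) (s := Metric.ball ζ0 (ε / 2))
    (Metric.ball_mem_nhds _ (by linarith)) ?_ ?_ ?_ ?_ ?_ ?_).2.differentiableAt.differentiableWithinAt
  · filter_upwards [(d19_isOpen_St R).mem_nhds hζ0] with ζ hζ using hmeas ζ hζ
  · exact d19_B_int ((d19_F_cont h (hR ζ0 hζ0)).mul (d19_en_cont (-l)))
  · -- measurability of the derivative as a limit of difference quotients
    have hseq : Filter.Tendsto (fun n : ℕ => ζ0 + ((ε / 4 / (n + 1) : ℝ) : ℂ)) Filter.atTop (nhdsWithin ζ0 {ζ0}ᶜ) := by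
      rw [tendsto_nhdsWithin_iff]
      constructor
      · have : Filter.Tendsto (fun n : ℕ => ε / 4 / ((n : ℝ) + 1)) Filter.atTop (nhds 0) :=
          (tendsto_const_div_atTop_nhds_zero_nat (ε / 4)).comp (Filter.tendsto_add_atTop_nat 1) |>.congr fun n => by
            simp
        have h2 := (Complex.continuous_ofReal.tendsto 0).comp this
        have h3 := h2.const_add ζ0
        simpa using h3
      · refine Filter.Eventually.of_forall fun n => ?_
        have : (0 : ℝ) < ε / 4 / ((n : ℝ) + 1) := by positivity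
        intro hh
        simp only [Set.mem_singleton_iff, add_eq_left, Complex.ofReal_eq_zero] at hh
        exact this.ne' hh
    refine aestronglyMeasurable_of_tendsto_ae Filter.atTop (f := fun (n : ℕ) (x : Fin q → ℝ) =>
      slope (fun ζ : ℂ => F (fun j => (a j : ℂ) + ζ * b j + (x j : ℂ)) * d19_en (-l) (fun j => (x j : ℂ))) ζ0
        (ζ0 + ((ε / 4 / (n + 1) : ℝ) : ℂ))) ?_ ?_
    · intro n
      have h1 : ζ0 + ((ε / 4 / (n + 1) : ℝ) : ℂ) ∈ St R := by
        exact d19_real_mem _ hζ0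
      simp only [slope, vsub_eq_sub]
      exact ((hmeas _ h1).sub (hmeas _ hζ0)).const_smul (ζ0 + ((ε / 4 / (n + 1) : ℝ) : ℂ) - ζ0)⁻¹
    · refine Filter.Eventually.of_forall fun x => ?_
      exact (hasDerivAt_iff_tendsto_slope.1 (hder x ζ0 hball0)).comp hseq
  · exact Filter.Eventually.of_forall fun x ζ hζ => hbd x ζ hζ
  · exact integrable_const _
  · exact Filter.Eventually.of_forall fun x ζ hζ => hder x ζ hζ

theorem d19_shrink {q : ℕ} {s : ℝ} (hs : 0 < s) {z : Fin q → ℂ} (hz : z ∈ PU q (St s)) :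
    ∃ τ : ℝ, 0 < τ ∧ τ < s ∧ z ∈ PU q (St τ) := by
  have h1 : ∀ j, ∃ τ : ℝ, |(z j).im| < τ ∧ τ < s := fun j => exists_between (hz j)
  choose τ hτ1 hτ2 using h1
  refine ⟨(Finset.univ.image τ ∪ {s / 2}).max' (by simp), ?_, ?_, fun j => ?_⟩
  · have : s / 2 ≤ (Finset.univ.image τ ∪ {s / 2}).max' (by simp) := Finset.le_max' _ _ (by simp)
    linarith
  · rw [Finset.max'_lt_iff]
    intro y hy
    simp only [Finset.mem_union, Finset.mem_image, Finset.mem_univ, true_and, Finset.mem_singleton] at hy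
    rcases hy with ⟨j, rfl⟩ | rfl
    · exact hτ2 j
    · linarith
  · have : τ j ≤ (Finset.univ.image τ ∪ {s / 2}).max' (by simp) := Finset.le_max' _ _ (by simp)
    exact lt_of_lt_of_le (hτ1 j) this

/-- SHIFT FORMULA -/
theorem d19_shift {q : ℕ} {s : ℝ} (hs : 0 < s) {F : (Fin q → ℂ) → ℂ} (h : D19PH q s F) {z : Fin q → ℂ}
    (hz : z ∈ PU q (St s)) (l : Fin q → ℤ) : d19_cf F z l = d19_en l z * d19_cf F (fun _ => 0) l := by
  -- choose `R > 1`
  obtain ⟨τ, hτ0, hτs, hzτ⟩ := d19_shrink hs hz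
  obtain ⟨R, hR1, hR⟩ : ∃ R : ℝ, 1 < R ∧ ∀ j, R * |(z j).im| < s := by
    refine ⟨s / τ, (one_lt_div hτ0).2 hτs, fun j => ?_⟩
    have h1 : |(z j).im| < τ := hzτ j
    calc s / τ * |(z j).im| < s / τ * τ := mul_lt_mul_of_pos_left h1 (div_pos hs hτ0)
      _ = s := div_mul_cancel₀ _ hτ0.ne'
  have hRz : ∀ ζ ∈ St R, (fun j => ((z j).re : ℂ) + ζ * (z j).im) ∈ PU q (St s) := by
    intro ζ hζ j
    have h1 : |ζ.im| < R := hζ
    show |(((z j).re : ℂ) + ζ * (z j).im).im| < s
    simp only [Complex.add_im, Complex.ofReal_im, Complex.mul_im, Complex.ofReal_re, mul_zero, zero_add]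
    rw [abs_mul]
    exact lt_of_le_of_lt (mul_le_mul_of_nonneg_right h1.le (abs_nonneg _)) (hR j)
  have hz0 : (fun _ => 0 : Fin q → ℂ) ∈ PU q (St s) := by
    intro j; simpa [St] using hs
  have hid := d19_idthm (s := R) (by linarith) (d19_cf_hol h l (fun j => (z j).re) (fun j => (z j).im) R hRz)
    (g := fun ζ => d19_en l (fun j => ((z j).re : ℂ) + ζ * (z j).im) * d19_cf F (fun _ => 0) l) ?_ ?_
    Complex.I ?_
  · have e1 : (fun j => ((z j).re : ℂ) + Complex.I * (z j).im) = z := by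
      funext j
      rw [mul_comm]
      exact Complex.re_add_im (z j)
    simp only [e1] at hid
    exact hid
  · refine Differentiable.differentiableOn ?_
    refine Differentiable.mul_const ?_ _
    exact (d19_en_diff l).comp (by fun_prop)
  · intro x
    have := d19_cf_real h hz0 l (fun j => (z j).re + x * (z j).im)
    simpa only [zero_add, Complex.ofReal_add, Complex.ofReal_mul] using this
  · show |Complex.I.im| < R
    simpa using hR1

/-- decay of the coefficients -/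
theorem d19_cf_decay {q : ℕ} {s σ : ℝ} (hσ : 0 < σ) (hs : σ < s) {F : (Fin q → ℂ) → ℂ} (h : D19PH q s F) {M : ℝ}
    (hM : ∀ z ∈ PU q (St s), ‖F z‖ ≤ M) (l : Fin q → ℤ) :
    ‖d19_cf F (fun _ => 0) l‖ ≤ M * ∏ j, Real.exp (-(2 * π * σ) * |(l j : ℝ)|) := by
  let z : Fin q → ℂ := fun j => if 0 ≤ l j then -(σ * Complex.I) else σ * Complex.I
  have hz : z ∈ PU q (St s) := by
    intro j
    show |(z j).im| < s
    by_cases hj : 0 ≤ l j
    · simp [z, hj, abs_of_pos hσ, hs]
    · simp [z, hj, abs_of_pos hσ, hs]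
  have h1 := d19_shift (by linarith) h hz l
  have h2 := d19_cf_le hM hz l
  have h3 : ‖d19_en l z‖ = ∏ j, Real.exp (2 * π * σ * |(l j : ℝ)|) := by
    unfold d19_en
    rw [norm_prod]
    refine Finset.prod_congr rfl fun j _ => ?_
    rw [d19_norm_exp]
    congr 1
    by_cases hj : 0 ≤ l j
    · have : (0 : ℝ) ≤ l j := by exact_mod_cast hj
      simp [z, hj, abs_of_nonneg this]
      ring
    · have : (l j : ℝ) ≤ 0 := by exact_mod_cast (not_le.1 hj).le
      simp [z, hj, abs_of_nonpos this]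
      ring
  have h4 : (∏ j, Real.exp (-(2 * π * σ) * |(l j : ℝ)|)) * ∏ j, Real.exp (2 * π * σ * |(l j : ℝ)|) = 1 := by
    rw [← Finset.prod_mul_distrib]
    refine Finset.prod_eq_one fun j _ => ?_
    rw [← Real.exp_add]
    simp
  rw [h1, norm_mul, h3] at h2
  have h5 : 0 < ∏ j, Real.exp (-(2 * π * σ) * |(l j : ℝ)|) := Finset.prod_pos fun _ _ => Real.exp_pos _
  calc ‖d19_cf F (fun _ => 0) l‖ = ((∏ j, Real.exp (2 * π * σ * |(l j : ℝ)|)) * ‖d19_cf F (fun _ => 0) l‖) *
        ∏ j, Real.exp (-(2 * π * σ) * |(l j : ℝ)|) := by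
        linear_combination (-‖d19_cf F (fun _ => 0) l‖) * h4
    _ ≤ _ := mul_le_mul_of_nonneg_right h2 h5.le

/-- summability of exponential weights in one variable -/
theorem d19_sum1 {c : ℝ} (hc : 0 < c) : Summable (fun m : ℤ => Real.exp (-c * |(m : ℝ)|)) := by
  have h : Summable (fun n : ℕ => Real.exp (-c * n)) := by
    have : (fun n : ℕ => Real.exp (-c * n)) = fun n : ℕ => (Real.exp (-c)) ^ n := by
      funext n
      rw [← Real.exp_nat_mul]
      congr 1
      ring
    rw [this]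
    exact summable_geometric_of_lt_one (Real.exp_pos _).le (Real.exp_lt_one_iff.2 (by linarith))
  refine Summable.of_nat_of_neg ?_ ?_
  · simpa using h
  · simpa using h

/-- summability of products -/
theorem d19_sumq {f : ℤ → ℝ} (hf0 : ∀ m, 0 ≤ f m) (hf : Summable f) (q : ℕ) :
    Summable (fun l : Fin q → ℤ => ∏ j, f (l j)) := by
  induction q with
  | zero => exact Summable.of_finite
  | succ q ih =>
    have h1 : Summable (fun x : ℤ × (Fin q → ℤ) => f x.1 * ∏ j, f (x.2 j)) :=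
      hf.mul_of_nonneg ih (fun m => hf0 m) (fun l => Finset.prod_nonneg fun j _ => hf0 _)
    have h2 := (Fin.consEquiv (fun _ : Fin (q + 1) => ℤ)).symm.summable_iff.2 h1
    refine h2.congr fun l => ?_
    rw [Fin.prod_univ_succ]
    rfl

theorem d19_sumw {c : ℝ} (hc : 0 < c) (q : ℕ) : Summable (fun l : Fin q → ℤ => ∏ j, Real.exp (-c * |(l j : ℝ)|)) :=
  d19_sumq (f := fun m => Real.exp (-c * |(m : ℝ)|)) (fun _ => (Real.exp_pos _).le) (d19_sum1 hc) q

theorem d19_term_le {q : ℕ} {s σ τ : ℝ} (hσ : 0 < σ) (hs : σ < s) {F : (Fin q → ℂ) → ℂ} (h : D19PH q s F) {M : ℝ}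
    (hM : ∀ z ∈ PU q (St s), ‖F z‖ ≤ M) (l : Fin q → ℤ) {z : Fin q → ℂ} (hz : z ∈ PU q (St τ)) :
    ‖d19_cf F (fun _ => 0) l * d19_en l z‖ ≤ M * ∏ j, Real.exp (-(2 * π * (σ - τ)) * |(l j : ℝ)|) := by
  rw [norm_mul]
  have h1 := d19_cf_decay hσ hs h hM l
  have h2 := d19_en_norm_le l z hz
  have h3 : 0 ≤ ∏ j, Real.exp (2 * π * τ * |(l j : ℝ)|) := Finset.prod_nonneg fun _ _ => (Real.exp_pos _).le
  calc _ ≤ (M * ∏ j, Real.exp (-(2 * π * σ) * |(l j : ℝ)|)) * ∏ j, Real.exp (2 * π * τ * |(l j : ℝ)|) :=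
        mul_le_mul h1 h2 (norm_nonneg _) ((norm_nonneg _).trans h1)
    _ = _ := by
        rw [mul_assoc, ← Finset.prod_mul_distrib]
        congr 1
        refine Finset.prod_congr rfl fun j _ => ?_
        rw [← Real.exp_add]
        congr 1
        ring

/-- the Fourier series converges to the function -/
theorem d19_recon {q : ℕ} {s : ℝ} (hs : 0 < s) {F : (Fin q → ℂ) → ℂ} (h : D19PH q s F) {z : Fin q → ℂ}
    (hz : z ∈ PU q (St s)) : HasSum (fun l => d19_cf F (fun _ => 0) l * d19_en l z) (F z) := by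
  obtain ⟨τ, hτ0, hτs, hzτ⟩ := d19_shrink hs hz
  obtain ⟨σ, hσ1, hσ2⟩ := exists_between hτs
  obtain ⟨M, hM⟩ := h.bdd
  have hp : ∀ (x : Fin q → ℝ) (m : Fin q → ℤ),
      (fun x : Fin q → ℝ => F (fun j => z j + (x j : ℂ))) (fun j => x j + m j)
      = (fun x : Fin q → ℝ => F (fun j => z j + (x j : ℂ))) x := by
    intro x m
    have e1 := d19_perm h (fun j => z j + (x j : ℂ)) (fun j => d19_real_mem _ (hz j)) m
    show F (fun j => z j + ((x j + m j : ℝ) : ℂ)) = F (fun j => z j + (x j : ℂ))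
    rw [← e1]
    simp only [Complex.ofReal_add, Complex.ofReal_intCast, add_assoc]
  obtain ⟨f, hf⟩ := d19_lift (d19_F_cont h hz) hp
  have hcoef : ∀ l, UnitAddTorus.mFourierCoeff (f : UnitAddTorus (Fin q) → ℂ) l
      = d19_cf F (fun _ => 0) l * d19_en l z := by
    intro l
    rw [mul_comm, ← d19_shift hs h hz l, UnitAddTorus.mFourierCoeff_eq_integral _ _ (fun _ => 0)]
    unfold d19_cf
    refine setIntegral_congr_fun (d19_B_meas q) fun x _ => ?_
    show UnitAddTorus.mFourier (-l) (fun i => (x i : UnitAddCircle)) • f (fun i => (x i : UnitAddCircle))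
      = F (fun j => z j + (x j : ℂ)) * d19_en (-l) (fun j => (x j : ℂ))
    rw [hf, smul_eq_mul, mul_comm]
    congr 1
    show ∏ i, fourier ((-l) i) ((x i : ℝ) : UnitAddCircle) = _
    unfold d19_en
    refine Finset.prod_congr rfl fun i _ => ?_
    rw [fourier_coe_apply]
    simp
  have hsum : Summable (UnitAddTorus.mFourierCoeff (f : UnitAddTorus (Fin q) → ℂ)) := by
    refine Summable.of_norm_bounded (g := fun l : Fin q → ℤ => M * ∏ j, Real.exp (-(2 * π * (σ - τ)) * |(l j : ℝ)|)) ?_ ?_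
    · exact (d19_sumw (mul_pos (by positivity) (by linarith)) q).mul_left M
    · intro l
      rw [hcoef]
      exact d19_term_le (by linarith) hσ2 h hM l hzτ
  have := UnitAddTorus.hasSum_mFourier_series_apply_of_summable hsum (fun i => ((0 : ℝ) : UnitAddCircle))
  rw [hf (fun _ => 0)] at this
  have e1 : ∀ l, UnitAddTorus.mFourierCoeff (f : UnitAddTorus (Fin q) → ℂ) l •
      UnitAddTorus.mFourier l (fun _ => ((0 : ℝ) : UnitAddCircle)) = d19_cf F (fun _ => 0) l * d19_en l z := by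
    intro l
    rw [hcoef]
    have : UnitAddTorus.mFourier l (fun _ : Fin q => ((0 : ℝ) : UnitAddCircle)) = 1 := by
      show ∏ i, fourier (l i) ((0 : ℝ) : UnitAddCircle) = 1
      refine Finset.prod_eq_one fun i _ => ?_
      rw [fourier_coe_apply]
      simp
    rw [this]
    simp
  simp only [e1] at this
  simpa using this

/-- uniform convergence of the Fourier series on smaller strips -/
theorem d19_unif {q : ℕ} {s τ : ℝ} (hτ : 0 < τ) (hs : τ < s) {F : (Fin q → ℂ) → ℂ} (h : D19PH q s F) :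
    TendstoUniformlyOn (fun (T : Finset (Fin q → ℤ)) z => ∑ l ∈ T, d19_cf F (fun _ => 0) l * d19_en l z) F
      Filter.atTop (PU q (St τ)) := by
  obtain ⟨σ, hσ1, hσ2⟩ := exists_between hs
  obtain ⟨M, hM⟩ := h.bdd
  have h1 := tendstoUniformlyOn_tsum (f := fun (l : Fin q → ℤ) z => d19_cf F (fun _ => 0) l * d19_en l z)
    (u := fun l : Fin q → ℤ => M * ∏ j, Real.exp (-(2 * π * (σ - τ)) * |(l j : ℝ)|)) (s := PU q (St τ))
    ((d19_sumw (mul_pos (by positivity) (by linarith)) q).mul_left M)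
    (fun l z hz => d19_term_le (by linarith) hσ2 h hM l hz)
  refine h1.congr_right fun z hz => ?_
  exact (d19_recon (by linarith) h fun j => lt_trans (hz j) hs).tsum_eq

theorem d19_dense {q : ℕ} {s τ : ℝ} (hτ : 0 < τ) (hs : τ < s) {F : (Fin q → ℂ) → ℂ} (h : D19PH q s F) (ε : ℝ)
    (he : 0 < ε) : ∃ T : Finset (Fin q → ℤ), ∀ z ∈ PU q (St τ),
      ‖F z - ∑ l ∈ T, d19_cf F (fun _ => 0) l * d19_en l z‖ ≤ ε := by
  have h1 := Metric.tendstoUniformlyOn_iff.1 (d19_unif hτ hs h) ε he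
  obtain ⟨T, hT⟩ := h1.exists
  refine ⟨T, fun z hz => ?_⟩
  rw [← dist_eq_norm]
  exact (hT z hz).le

end

end Pool.Agent.Helper67.DO
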