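import Pool.Agent.Helper68.DO.D19a

/-!
# MP_d07457_gt, module D19, part b: functionals given by coefficients, product functions
-/

namespace Pool.Agent.Helper67.DO

open scoped BigOperators Real
open MeasureTheory

noncomputable section

/-! ### linearity of the coefficients -/

theorem d19_cf_add {q : ℕ} {s : ℝ} (hs : 0 < s) {F G : (Fin q → ℂ) → ℂ} (hF : D19PH q s F) (hG : D19PH q s G)
    (l : Fin q → ℤ) : d19_cf (fun z => F z + G z) (fun _ => 0) l = d19_cf F (fun _ => 0) l + d19_cf G (fun _ => 0) l := by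
  have hz : (fun _ => 0 : Fin q → ℂ) ∈ PU q (St s) := by intro j; simpa [St] using hs
  unfold d19_cf
  rw [← integral_add]
  · refine setIntegral_congr_fun (d19_B_meas q) fun x _ => ?_
    exact add_mul _ _ _
  · exact d19_B_int ((d19_F_cont hF hz).mul (d19_en_cont (-l)))
  · exact d19_B_int ((d19_F_cont hG hz).mul (d19_en_cont (-l)))

theorem d19_cf_smul {q : ℕ} (c : ℂ) (F : (Fin q → ℂ) → ℂ) (l : Fin q → ℤ) :
    d19_cf (fun z => c * F z) (fun _ => 0) l = c * d19_cf F (fun _ => 0) l := by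
  unfold d19_cf
  rw [← integral_const_mul]
  refine setIntegral_congr_fun (d19_B_meas q) fun x _ => ?_
  exact mul_assoc _ _ _

theorem d19_cf_congr {q : ℕ} {F G : (Fin q → ℂ) → ℂ} (h : ∀ x : Fin q → ℝ, F (fun j => (x j : ℂ)) = G (fun j => (x j : ℂ)))
    (l : Fin q → ℤ) : d19_cf F (fun _ => 0) l = d19_cf G (fun _ => 0) l := by
  unfold d19_cf
  refine setIntegral_congr_fun (d19_B_meas q) fun x _ => ?_
  have e : (fun j => (0 : ℂ) + (x j : ℂ)) = fun j => (x j : ℂ) := by funext j; ring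
  show F (fun j => (0 : ℂ) + (x j : ℂ)) * _ = G (fun j => (0 : ℂ) + (x j : ℂ)) * _
  rw [e, h]

theorem d19_PH_add {q : ℕ} {s : ℝ} {F G : (Fin q → ℂ) → ℂ} (hF : D19PH q s F) (hG : D19PH q s G) :
    D19PH q s (fun z => F z + G z) := by
  obtain ⟨A, hA⟩ := hF.bdd
  obtain ⟨B, hB⟩ := hG.bdd
  exact ⟨hF.hol.add hG.hol, fun z hz i => by rw [hF.per z hz i, hG.per z hz i],
    A + B, fun z hz => (norm_add_le _ _).trans (add_le_add (hA z hz) (hB z hz))⟩

theorem d19_PH_smul {q : ℕ} {s : ℝ} {F : (Fin q → ℂ) → ℂ} (c : ℂ) (hF : D19PH q s F) :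
    D19PH q s (fun z => c * F z) := by
  obtain ⟨A, hA⟩ := hF.bdd
  exact ⟨hF.hol.const_mul c, fun z hz i => by rw [hF.per z hz i],
    ‖c‖ * A, fun z hz => by rw [norm_mul]; exact mul_le_mul_of_nonneg_left (hA z hz) (norm_nonneg _)⟩

theorem d19_PH_zero {q : ℕ} {s : ℝ} : D19PH q s (fun _ => 0) :=
  ⟨differentiableOn_const _, fun _ _ _ => rfl, 0, fun _ _ => by simp⟩

theorem d19_PH_sum {q : ℕ} {s : ℝ} {ι : Type*} (S : Finset ι) (F : ι → (Fin q → ℂ) → ℂ) (h : ∀ i ∈ S, D19PH q s (F i)) :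
    D19PH q s (fun z => ∑ i ∈ S, F i z) := by
  classical
  induction S using Finset.induction_on with
  | empty => simpa using d19_PH_zero
  | insert a S ha ih =>
    have := d19_PH_add (h a (Finset.mem_insert_self _ _)) (ih fun i hi => h i (Finset.mem_insert_of_mem hi))
    simpa [Finset.sum_insert ha] using this

theorem d19_PH_mono {q : ℕ} {s s' : ℝ} (hs : s' ≤ s) {F : (Fin q → ℂ) → ℂ} (hF : D19PH q s F) : D19PH q s' F := by
  have hsub : PU q (St s') ⊆ PU q (St s) := fun z hz j => lt_of_lt_of_le (hz j) hs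
  obtain ⟨A, hA⟩ := hF.bdd
  exact ⟨hF.hol.mono hsub, fun z hz => hF.per z (hsub hz), A, fun z hz => hA z (hsub hz)⟩

/-! ### the functional with coefficients `b` -/

/-- `F ↦ ∑ F^(l) b(l)` -/
def d19_al {q : ℕ} (b : (Fin q → ℤ) → ℂ) (F : (Fin q → ℂ) → ℂ) : ℂ := ∑' l, d19_cf F (fun _ => 0) l * b l

/-- growth condition on the coefficients -/
def D19Gr {q : ℕ} (s : ℝ) (b : (Fin q → ℤ) → ℂ) : Prop :=
  ∃ A : ℝ, 0 ≤ A ∧ ∀ l, ‖b l‖ ≤ A * ∏ j, Real.exp (2 * π * s * |(l j : ℝ)|)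

theorem d19_al_term {q : ℕ} {s σ τ : ℝ} (hσ : 0 < σ) (hs : σ < s) {F : (Fin q → ℂ) → ℂ} (h : D19PH q s F) {M : ℝ}
    (hM : ∀ z ∈ PU q (St s), ‖F z‖ ≤ M) {b : (Fin q → ℤ) → ℂ} {A : ℝ}
    (hA : ∀ l, ‖b l‖ ≤ A * ∏ j, Real.exp (2 * π * τ * |(l j : ℝ)|)) (l : Fin q → ℤ) :
    ‖d19_cf F (fun _ => 0) l * b l‖ ≤ M * A * ∏ j, Real.exp (-(2 * π * (σ - τ)) * |(l j : ℝ)|) := by
  rw [norm_mul]
  have h1 := d19_cf_decay hσ hs h hM l
  calc _ ≤ (M * ∏ j, Real.exp (-(2 * π * σ) * |(l j : ℝ)|)) * (A * ∏ j, Real.exp (2 * π * τ * |(l j : ℝ)|)) :=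
        mul_le_mul h1 (hA l) (norm_nonneg _) ((norm_nonneg _).trans h1)
    _ = M * A * ((∏ j, Real.exp (-(2 * π * σ) * |(l j : ℝ)|)) * ∏ j, Real.exp (2 * π * τ * |(l j : ℝ)|)) := by ring
    _ = _ := by
        rw [← Finset.prod_mul_distrib]
        congr 1
        refine Finset.prod_congr rfl fun j _ => ?_
        rw [← Real.exp_add]
        congr 1
        ring

theorem d19_al_summable {q : ℕ} {s τ : ℝ} (hτ : 0 < τ) (hs : τ < s) {F : (Fin q → ℂ) → ℂ} (h : D19PH q s F)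
    {b : (Fin q → ℤ) → ℂ} (hb : D19Gr τ b) : Summable fun l => d19_cf F (fun _ => 0) l * b l := by
  obtain ⟨σ, hσ1, hσ2⟩ := exists_between hs
  obtain ⟨M, hM⟩ := h.bdd
  obtain ⟨A, hA0, hA⟩ := hb
  refine Summable.of_norm_bounded ((d19_sumw (c := 2 * π * (σ - τ)) (mul_pos (by positivity) (by linarith)) q).mul_left (M * A)) ?_
  exact fun l => d19_al_term (by linarith) hσ2 h hM hA l

/-- bound for the functional, on all (not necessarily alternating) functions -/
theorem d19_al_bdd {q : ℕ} {s τ : ℝ} (hτ : 0 < τ) (hs : τ < s) {b : (Fin q → ℤ) → ℂ} (hb : D19Gr τ b) :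
    ∃ C : ℝ, 0 ≤ C ∧ ∀ F, D19PH q s F → ∀ M : ℝ, (∀ z ∈ PU q (St s), ‖F z‖ ≤ M) → ‖d19_al b F‖ ≤ C * M := by
  obtain ⟨σ, hσ1, hσ2⟩ := exists_between hs
  obtain ⟨A, hA0, hA⟩ := hb
  have hsum := d19_sumw (c := 2 * π * (σ - τ)) (mul_pos (by positivity) (by linarith)) q
  refine ⟨A * ∑' l : Fin q → ℤ, ∏ j, Real.exp (-(2 * π * (σ - τ)) * |(l j : ℝ)|), ?_, ?_⟩
  · exact mul_nonneg hA0 (tsum_nonneg fun l => Finset.prod_nonneg fun _ _ => (Real.exp_pos _).le)
  · intro F hF M hM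
    have h1 := tsum_of_norm_bounded ((hsum.mul_left (M * A)).hasSum) (fun l => d19_al_term (by linarith) hσ2 hF hM hA l)
    refine h1.trans (le_of_eq ?_)
    rw [tsum_mul_left]
    ring

theorem d19_al_add {q : ℕ} {s τ : ℝ} (hτ : 0 < τ) (hs : τ < s) {b : (Fin q → ℤ) → ℂ} (hb : D19Gr τ b)
    {F G : (Fin q → ℂ) → ℂ} (hF : D19PH q s F) (hG : D19PH q s G) :
    d19_al b (fun z => F z + G z) = d19_al b F + d19_al b G := by
  unfold d19_al
  rw [← (d19_al_summable hτ hs hF hb).tsum_add (d19_al_summable hτ hs hG hb)]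
  refine tsum_congr fun l => ?_
  rw [d19_cf_add (hτ.trans hs) hF hG, add_mul]

theorem d19_al_smul {q : ℕ} (b : (Fin q → ℤ) → ℂ) (c : ℂ) (F : (Fin q → ℂ) → ℂ) :
    d19_al b (fun z => c * F z) = c * d19_al b F := by
  unfold d19_al
  rw [← tsum_mul_left]
  refine tsum_congr fun l => ?_
  rw [d19_cf_smul, mul_assoc]

theorem d19_al_congr {q : ℕ} (b : (Fin q → ℤ) → ℂ) {F G : (Fin q → ℂ) → ℂ}
    (h : ∀ x : Fin q → ℝ, F (fun j => (x j : ℂ)) = G (fun j => (x j : ℂ))) : d19_al b F = d19_al b G :=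
  tsum_congr fun l => by rw [d19_cf_congr h]

theorem d19_al_zero {q : ℕ} (b : (Fin q → ℤ) → ℂ) : d19_al b (fun _ => 0) = 0 := by
  have := d19_al_smul b 0 (fun _ => 0)
  simpa using this

theorem d19_al_sum {q : ℕ} {s τ : ℝ} (hτ : 0 < τ) (hs : τ < s) {b : (Fin q → ℤ) → ℂ} (hb : D19Gr τ b)
    {ι : Type*} (S : Finset ι) (F : ι → (Fin q → ℂ) → ℂ) (h : ∀ i ∈ S, D19PH q s (F i)) :
    d19_al b (fun z => ∑ i ∈ S, F i z) = ∑ i ∈ S, d19_al b (F i) := by
  classical
  induction S using Finset.induction_on with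
  | empty => simpa using d19_al_zero b
  | insert a S ha ih =>
    have h1 : ∀ i ∈ S, D19PH q s (F i) := fun i hi => h i (Finset.mem_insert_of_mem hi)
    rw [Finset.sum_insert ha, ← ih h1, ← d19_al_add hτ hs hb (h a (Finset.mem_insert_self _ _)) (d19_PH_sum S F h1)]
    simp only [Finset.sum_insert ha]

theorem d19_al_fnl {q : ℕ} {s τ : ℝ} (hτ : 0 < τ) (hs : τ < s) {b : (Fin q → ℤ) → ℂ} (hb : D19Gr τ b) :
    Fnl q (St s) (d19_al b) where
  add F G hF hG := d19_al_add hτ hs hb (d19_BO_PH hF) (d19_BO_PH hG)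
  smul c F _ := d19_al_smul b c F
  bdd := by
    obtain ⟨C, hC, h⟩ := d19_al_bdd hτ hs hb
    exact ⟨C, hC, fun F hF M hM _ => h F (d19_BO_PH hF) M hM⟩

/-! ### rotation invariance and `ι_1` -/

theorem d19_al_rot {q : ℕ} {s : ℝ} (hs : 0 < s) {b : (Fin q → ℤ) → ℂ}
    (hb : ∀ l, ∀ t : ℝ, d19_en l (fun _ => (t : ℂ)) * b l = b l) {F : (Fin q → ℂ) → ℂ} (hF : D19PH q s F) (t : ℝ) :
    d19_al b (shf t F) = d19_al b F := by
  unfold d19_al
  refine tsum_congr fun l => ?_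
  have hz : (fun _ => 0 : Fin q → ℂ) ∈ PU q (St s) := by intro j; simpa [St] using hs
  have h1 := d19_cf_real hF hz l (fun _ => t)
  have h2 : d19_cf (shf t F) (fun _ => 0) l = d19_cf F (fun _ => 0 + (t : ℂ)) l := by
    unfold d19_cf
    refine setIntegral_congr_fun (d19_B_meas q) fun x _ => ?_
    show F (fun i => 0 + (x i : ℂ) + t) * _ = F (fun j => 0 + (t : ℂ) + (x j : ℂ)) * _
    congr 2
    funext i
    ring
  rw [h2, h1]
  linear_combination (d19_cf F (fun _ => 0) l) * hb l t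

/-- coefficients of a function which does not depend on the `i`-th variable -/
theorem d19_cf_indep {q : ℕ} {s : ℝ} (hs : 0 < s) {F : (Fin q → ℂ) → ℂ} (hF : D19PH q s F) (i : Fin q)
    (hi : ∀ z w : Fin q → ℂ, (∀ j, j ≠ i → z j = w j) → F z = F w) (l : Fin q → ℤ) (hl : l i ≠ 0) :
    d19_cf F (fun _ => 0) l = 0 := by
  have hz : (fun _ => 0 : Fin q → ℂ) ∈ PU q (St s) := by intro j; simpa [St] using hs
  let r : Fin q → ℝ := Pi.single i (1 / (2 * l i))
  have h1 := d19_cf_real hF hz l r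
  have h2 : d19_cf F (fun j => 0 + (r j : ℂ)) l = d19_cf F (fun _ => 0) l := by
    unfold d19_cf
    refine setIntegral_congr_fun (d19_B_meas q) fun x _ => ?_
    show F _ * _ = F _ * _
    congr 1
    apply hi
    intro j hj
    simp [r, hj]
  have h3 : d19_en l (fun j => (r j : ℂ)) = -1 := by
    unfold d19_en
    rw [Finset.prod_eq_single i]
    · rw [← Complex.exp_pi_mul_I]
      congr 1
      have : (l i : ℂ) ≠ 0 := by exact_mod_cast hl
      simp [r]
      field_simp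
    · intro j _ hj
      simp [r, hj]
    · simp
  rw [h2, h3] at h1
  have h4 : (2 : ℂ) * d19_cf F (fun _ => 0) l = 0 := by linear_combination h1
  simpa using h4

theorem d19_al_io {q : ℕ} {s τ : ℝ} (hτ : 0 < τ) (hs : τ < s) {b : (Fin (q + 1) → ℤ) → ℂ} (hbg : D19Gr τ b)
    (hb : ∀ l, (∃ i, l i = 0) → b l = 0) {F : (Fin q → ℂ) → ℂ} (hF : D19PH q s F) :
    d19_al b (wd (fun _ => 1) q F) = 0 := by
  have hph : ∀ i : Fin (q + 1), D19PH (q + 1) s (fun z => (-1 : ℂ) ^ (i : ℕ) * 1 * F (i.removeNth z)) := by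
    intro i
    refine d19_PH_smul _ ?_
    obtain ⟨A, hA⟩ := hF.bdd
    refine ⟨?_, ?_, A, fun z hz => hA _ fun j => hz _⟩
    · refine hF.hol.comp (f := fun z : Fin (q + 1) → ℂ => (i.removeNth z : Fin q → ℂ)) ?_ (fun z hz j => hz _)
      refine Differentiable.differentiableOn ?_
      rw [differentiable_pi]
      intro j
      exact differentiable_apply _
    · intro z hz k
      by_cases hk : ∃ j, i.succAbove j = k
      · obtain ⟨j, rfl⟩ := hk
        rw [← hF.per (i.removeNth z) (fun j => hz _) j]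
        congr 1
        funext j'
        by_cases hj : j' = j
        · subst hj; simp [Fin.removeNth]
        · have : i.succAbove j' ≠ i.succAbove j := fun h => hj (Fin.succAbove_right_injective h)
          simp [Fin.removeNth, hj, this]
      · congr 1
        funext j'
        have : i.succAbove j' ≠ k := fun h => hk ⟨j', h⟩
        simp [Fin.removeNth, this]
  unfold wd
  rw [d19_al_sum hτ hs hbg Finset.univ _ (fun i _ => hph i)]
  refine Finset.sum_eq_zero fun i _ => ?_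
  have hterm : ∀ l : Fin (q + 1) → ℤ,
      d19_cf (fun z => (-1 : ℂ) ^ (i : ℕ) * 1 * F (i.removeNth z)) (fun _ => 0) l * b l = 0 := by
    intro l
    by_cases hl : l i = 0
    · rw [hb l ⟨i, hl⟩, mul_zero]
    · rw [d19_cf_indep (hτ.trans hs) (hph i) i _ l hl, zero_mul]
      intro z w hzw
      congr 2
      funext j
      exact hzw _ (Fin.succAbove_ne i j)
  unfold d19_al
  rw [tsum_congr hterm, tsum_zero]

/-! ### product functions -/

/-- one dimensional exponentials -/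
def d19_ex (m : ℤ) (z : ℂ) : ℂ := Complex.exp (2 * π * Complex.I * m * z)

/-- one dimensional Fourier coefficients -/
def d19_c1 (κ : ℂ → ℂ) (m : ℤ) : ℂ :=
  ∫ x in Set.Ioc (0 : ℝ) (0 + 1), κ (0 + (x : ℂ)) * Complex.exp (2 * π * Complex.I * ((-m : ℤ) : ℂ) * x)

theorem d19_cf_prod {q : ℕ} (κ : Fin q → ℂ → ℂ) (l : Fin q → ℤ) :
    d19_cf (fun z => ∏ j, κ j (z j)) (fun _ => 0) l = ∏ j, d19_c1 (κ j) (l j) := by
  unfold d19_cf d19_c1
  rw [d19_B_pi, volume_pi, Measure.restrict_pi_pi, ← integral_fintype_prod_eq_prod]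
  refine integral_congr_ae (Filter.Eventually.of_forall fun x => ?_)
  show (∏ j, κ j (0 + (x j : ℂ))) * d19_en (-l) (fun j => (x j : ℂ)) = _
  unfold d19_en
  rw [← Finset.prod_mul_distrib]
  rfl

theorem d19_prod_PH {q : ℕ} {s : ℝ} (κ : Fin q → ℂ → ℂ) (h : ∀ j, HB s (κ j)) :
    D19PH q s (fun z => ∏ j, κ j (z j)) := by
  refine ⟨?_, ?_, ?_⟩
  · intro z hz
    have hj : ∀ j : Fin q, DifferentiableWithinAt ℂ (fun z : Fin q → ℂ => κ j (z j)) (PU q (St s)) z := by
      intro j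
      refine ((h j).hol (z j) (hz j)).comp (f := fun z : Fin q → ℂ => z j) z ?_ (fun w hw => hw j)
      exact (differentiable_apply j).differentiableAt.differentiableWithinAt
    exact (HasFDerivWithinAt.finsetProd (u := Finset.univ) fun j _ => (hj j).hasFDerivWithinAt).differentiableWithinAt
  · intro z hz i
    refine Finset.prod_congr rfl fun j _ => ?_
    by_cases hj : j = i
    · subst hj
      rw [Function.update_self]
      exact (h j).per _ (hz j)
    · rw [Function.update_of_ne hj]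
  · choose B hB using fun j => (h j).bdd
    refine ⟨∏ j, B j, fun z hz => ?_⟩
    rw [norm_prod]
    exact Finset.prod_le_prod (fun _ _ => norm_nonneg _) fun j _ => hB j _ (hz j)

theorem d19_ex_HB (s : ℝ) (m : ℤ) : HB s (d19_ex m) := by
  refine ⟨?_, ?_, Real.exp (2 * π * s * |(m : ℝ)|), fun z hz => d19_norm_exp_le m z hz⟩
  · unfold d19_ex
    fun_prop
  · intro z _
    unfold d19_ex
    rw [show 2 * π * Complex.I * m * (z + 1) = 2 * π * Complex.I * m * z + m * (2 * π * Complex.I) by ring,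
      Complex.exp_add, Complex.exp_int_mul_two_pi_mul_I, mul_one]

theorem d19_HB_mono {s s' : ℝ} (h : s' ≤ s) {κ : ℂ → ℂ} (hk : HB s κ) : HB s' κ := by
  have hsub : St s' ⊆ St s := fun z hz => lt_of_lt_of_le hz h
  obtain ⟨B, hB⟩ := hk.bdd
  exact ⟨hk.hol.mono hsub, fun z hz => hk.per z (hsub hz), B, fun z hz => hB z (hsub hz)⟩

theorem d19_HB_lin {s : ℝ} {κ κ' : ℂ → ℂ} (c : ℂ) (h : HB s κ) (h' : HB s κ') : HB s (fun z => c * κ z + κ' z) := by
  obtain ⟨B, hB⟩ := h.bdd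
  obtain ⟨B', hB'⟩ := h'.bdd
  refine ⟨(h.hol.const_mul c).add h'.hol, fun z hz => by rw [h.per z hz, h'.per z hz], ‖c‖ * B + B', fun z hz => ?_⟩
  refine (norm_add_le _ _).trans (add_le_add ?_ (hB' z hz))
  rw [norm_mul]
  exact mul_le_mul_of_nonneg_left (hB z hz) (norm_nonneg _)

theorem d19_HB_zero (s : ℝ) : HB s (fun _ => 0) :=
  ⟨differentiableOn_const _, fun _ _ => rfl, 0, fun _ _ => by simp⟩

theorem d19_HB_sum {s : ℝ} {ι : Type*} (S : Finset ι) (c : ι → ℂ) (κ : ι → ℂ → ℂ) (h : ∀ i, HB s (κ i)) :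
    HB s (fun z => ∑ i ∈ S, c i * κ i z) := by
  classical
  induction S using Finset.induction_on with
  | empty => simpa using d19_HB_zero s
  | insert a S ha ih =>
    have := d19_HB_lin (c a) (h a) ih
    simpa [Finset.sum_insert ha] using this

end

end Pool.Agent.Helper67.DO
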