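import Pool.Agent.Helper68.DO.D19b

/-!
# MP_d07457_gt, module D19, part c: multilinear functionals and product functions, wedges
-/

namespace Pool.Agent.Helper67.DO

open scoped BigOperators Real
open MeasureTheory

noncomputable section

variable {E : Type*} [NormedAddCommGroup E] [NormedSpace ℂ E]

/-- bounded linear maps on bounded holomorphic periodic functions of one variable -/
structure D19T (s0 : ℝ) (T : (ℂ → ℂ) → E) (C : ℝ) : Prop where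
  nonneg : 0 ≤ C
  lin : ∀ (κ κ' : ℂ → ℂ) (c : ℂ), HB s0 κ → HB s0 κ' → T (fun z => c * κ z + κ' z) = c • T κ + T κ'
  ext : ∀ κ κ' : ℂ → ℂ, HB s0 κ → (∀ z ∈ St s0, κ z = κ' z) → T κ = T κ'
  bdd : ∀ (κ : ℂ → ℂ) (B : ℝ), HB s0 κ → (∀ z ∈ St s0, ‖κ z‖ ≤ B) → ‖T κ‖ ≤ C * B

theorem D19T.zero {s0 C : ℝ} {T : (ℂ → ℂ) → E} (h : D19T s0 T C) : T (fun _ => 0) = 0 := by
  have := h.lin (fun _ => 0) (fun _ => 0) 1 (d19_HB_zero s0) (d19_HB_zero s0)
  simpa using this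

theorem D19T.smul {s0 C : ℝ} {T : (ℂ → ℂ) → E} (h : D19T s0 T C) {κ : ℂ → ℂ} (hk : HB s0 κ) (c : ℂ) :
    T (fun z => c * κ z) = c • T κ := by
  have := h.lin κ (fun _ => 0) c hk (d19_HB_zero s0)
  simpa [h.zero] using this

theorem D19T.sum {s0 C : ℝ} {T : (ℂ → ℂ) → E} (h : D19T s0 T C) {ι : Type*} (S : Finset ι) (c : ι → ℂ)
    (κ : ι → ℂ → ℂ) (hk : ∀ i, HB s0 (κ i)) : T (fun z => ∑ i ∈ S, c i * κ i z) = ∑ i ∈ S, c i • T (κ i) := by
  classical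
  induction S using Finset.induction_on with
  | empty => simpa using h.zero
  | insert a S ha ih =>
    have := h.lin (κ a) _ (c a) (hk a) (d19_HB_sum S c κ hk)
    rw [Finset.sum_insert ha, ← ih, ← this]
    simp only [Finset.sum_insert ha]

theorem D19T.ex_le {s0 C : ℝ} {T : (ℂ → ℂ) → E} (h : D19T s0 T C) (m : ℤ) :
    ‖T (d19_ex m)‖ ≤ C * Real.exp (2 * π * s0 * |(m : ℝ)|) :=
  h.bdd _ _ (d19_ex_HB s0 m) fun z hz => d19_norm_exp_le m z hz

/-- Fourier expansion under `T` -/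
theorem D19T.hasSum {s0 s C : ℝ} (hs0 : 0 < s0) (hs : s0 < s) {T : (ℂ → ℂ) → E} (h : D19T s0 T C) {κ : ℂ → ℂ}
    (hk : HB s κ) : HasSum (fun m : ℤ => d19_c1 κ m • T (d19_ex m)) (T κ) := by
  rw [← (Equiv.funUnique (Fin 1) ℤ).hasSum_iff]
  have hph : D19PH 1 s (fun z : Fin 1 → ℂ => ∏ j : Fin 1, κ (z j)) := d19_prod_PH (fun _ => κ) (fun _ => hk)
  have hu := Metric.tendstoUniformlyOn_iff.1 (d19_unif hs0 hs hph)
  rw [HasSum, Metric.tendsto_nhds]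
  intro ε hε
  have hC := h.nonneg
  filter_upwards [hu (ε / (C + 1)) (by positivity)] with S hS
  have hT : T κ - ∑ l ∈ S, d19_c1 κ (l 0) • T (d19_ex (l 0))
      = T (fun z => -1 * (∑ l ∈ S, d19_c1 κ (l 0) * d19_ex (l 0) z) + κ z) := by
    rw [h.lin _ _ _ (d19_HB_sum S (fun l => d19_c1 κ (l 0)) (fun l => d19_ex (l 0)) fun l => d19_ex_HB s0 _)
      (d19_HB_mono hs.le hk), h.sum S (fun l => d19_c1 κ (l 0)) (fun l => d19_ex (l 0)) fun l => d19_ex_HB s0 _]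
    rw [neg_one_smul]
    abel
  have hb : ‖T (fun z => -1 * (∑ l ∈ S, d19_c1 κ (l 0) * d19_ex (l 0) z) + κ z)‖ ≤ C * (ε / (C + 1)) := by
    refine h.bdd _ _ (d19_HB_lin _ (d19_HB_sum S (fun l => d19_c1 κ (l 0)) (fun l => d19_ex (l 0))
      fun l => d19_ex_HB s0 _) (d19_HB_mono hs.le hk)) ?_
    intro z hz
    have h1 := hS (fun _ => z) (fun _ => hz)
    rw [dist_eq_norm] at h1
    refine le_of_eq_of_le ?_ h1.le
    congr 1
    have hcf : ∀ l : Fin 1 → ℤ, d19_cf (fun z : Fin 1 → ℂ => ∏ j : Fin 1, κ (z j)) (fun _ => 0) l = d19_c1 κ (l 0) := by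
      intro l
      rw [d19_cf_prod (fun _ : Fin 1 => κ) l]
      simp
    simp only [hcf]
    simp only [Finset.univ_unique, Fin.default_eq_zero, Fin.isValue, Finset.prod_singleton, d19_en, d19_ex]
    ring
  rw [dist_comm, dist_eq_norm]
  show ‖T κ - ∑ l ∈ S, d19_c1 κ (l 0) • T (d19_ex (l 0))‖ < ε
  rw [hT]
  refine hb.trans_lt ?_
  rw [mul_div_assoc', div_lt_iff₀ (by linarith)]
  nlinarith

/-- coefficients of the multilinear functional -/
def d19_b {q : ℕ} (Λ : ContinuousMultilinearMap ℂ (fun _ : Fin q => E) ℂ) (T : (ℂ → ℂ) → E) (l : Fin q → ℤ) : ℂ :=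
  Λ fun j => T (d19_ex (l j))

theorem d19_b_gr {q : ℕ} {s0 C : ℝ} (Λ : ContinuousMultilinearMap ℂ (fun _ : Fin q => E) ℂ) {T : (ℂ → ℂ) → E}
    (h : D19T s0 T C) : D19Gr s0 (d19_b Λ T) := by
  refine ⟨‖Λ‖ * C ^ q, mul_nonneg (norm_nonneg _) (pow_nonneg h.nonneg _), fun l => ?_⟩
  refine (Λ.le_opNorm _).trans ?_
  rw [mul_assoc]
  refine mul_le_mul_of_nonneg_left ?_ (norm_nonneg _)
  have : C ^ q = ∏ _j : Fin q, C := by simp
  rw [this, ← Finset.prod_mul_distrib]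
  exact Finset.prod_le_prod (fun _ _ => norm_nonneg _) fun j _ => h.ex_le _

theorem d19_boxes (q : ℕ) : Filter.Tendsto (fun T : Finset ℤ => Fintype.piFinset fun _ : Fin q => T) Filter.atTop
    Filter.atTop := by
  classical
  rw [Filter.tendsto_atTop_atTop]
  intro S
  refine ⟨S.biUnion fun l => Finset.univ.image l, fun T hT l hl => ?_⟩
  rw [Fintype.mem_piFinset]
  intro j
  apply hT
  rw [Finset.mem_biUnion]
  exact ⟨l, hl, Finset.mem_image_of_mem _ (Finset.mem_univ _)⟩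

/-- the value on product functions -/
theorem d19_al_prod {q : ℕ} {s0 s C : ℝ} (hs0 : 0 < s0) (hs : s0 < s)
    (Λ : ContinuousMultilinearMap ℂ (fun _ : Fin q => E) ℂ) {T : (ℂ → ℂ) → E} (h : D19T s0 T C)
    (κ : Fin q → ℂ → ℂ) (hk : ∀ j, HB s (κ j)) :
    d19_al (d19_b Λ T) (fun z => ∏ j, κ j (z j)) = Λ fun j => T (κ j) := by
  have hsum := (d19_al_summable hs0 hs (d19_prod_PH κ hk) (d19_b_gr Λ h)).hasSum
  have h1 := hsum.comp (d19_boxes q)
  have h2 : Filter.Tendsto (fun S : Finset ℤ => Λ fun j => ∑ m ∈ S, d19_c1 (κ j) m • T (d19_ex m)) Filter.atTop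
      (nhds (Λ fun j => T (κ j))) := by
    refine (Λ.cont.tendsto _).comp ?_
    rw [tendsto_pi_nhds]
    intro j
    exact h.hasSum hs0 hs (hk j)
  refine tendsto_nhds_unique h1 (h2.congr fun S => ?_)
  rw [Λ.map_sum_finset]
  refine Finset.sum_congr rfl fun l _ => ?_
  show _ = d19_cf (fun z => ∏ j, κ j (z j)) (fun _ => 0) l * d19_b Λ T l
  rw [d19_cf_prod, Λ.map_smul_univ, smul_eq_mul]
  rfl

theorem d19_WW_eq {q : ℕ} (v : Fin q → ℂ → ℂ) (z : Fin q → ℂ) :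
    WW v z = ∑ σ : Equiv.Perm (Fin q), ((Equiv.Perm.sign σ : ℤ) : ℂ) * ∏ j, v (σ j) (z j) := by
  unfold WW
  rw [Matrix.det_apply']
  rfl

/-- the value on wedges -/
theorem d19_al_WW {q : ℕ} {s0 s C : ℝ} (hs0 : 0 < s0) (hs : s0 < s)
    (Λ : ContinuousMultilinearMap ℂ (fun _ : Fin q => E) ℂ) {T : (ℂ → ℂ) → E} (h : D19T s0 T C)
    (v : Fin q → ℂ → ℂ) (hv : ∀ j, HB s (v j)) :
    d19_al (d19_b Λ T) (WW v) = ∑ σ : Equiv.Perm (Fin q), ((Equiv.Perm.sign σ : ℤ) : ℂ) * Λ fun j => T (v (σ j)) := by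
  have e1 : WW v = fun z => ∑ σ : Equiv.Perm (Fin q), ((Equiv.Perm.sign σ : ℤ) : ℂ) * ∏ j, v (σ j) (z j) :=
    funext (d19_WW_eq v)
  rw [e1, d19_al_sum hs0 hs (d19_b_gr Λ h)]
  · refine Finset.sum_congr rfl fun σ _ => ?_
    rw [d19_al_smul, d19_al_prod hs0 hs Λ h _ fun j => hv _]
  · intro σ _
    exact d19_PH_smul _ (d19_prod_PH _ fun j => hv _)

/-- wedges are alternating -/
theorem d19_WW_BO {q : ℕ} {s : ℝ} (v : Fin q → ℂ → ℂ) (hv : ∀ j, HB s (v j)) : BO q (St s) (WW v) := by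
  have e1 : WW v = fun z => ∑ σ : Equiv.Perm (Fin q), ((Equiv.Perm.sign σ : ℤ) : ℂ) * ∏ j, v (σ j) (z j) :=
    funext (d19_WW_eq v)
  have h1 : D19PH q s (WW v) := by
    rw [e1]
    exact d19_PH_sum _ _ fun σ _ => d19_PH_smul _ (d19_prod_PH _ fun j => hv _)
  refine ⟨h1.hol, h1.per, ?_, h1.bdd⟩
  intro z _ σ
  unfold WW
  exact Matrix.det_permute' σ (Matrix.of fun i j => v i (z j))

end

end Pool.Agent.Helper67.DO
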