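import Pool.Agent.Helper68.DO.D19c

/-!
# MP_d07457_gt, module D19, part d: the multilinear functional on `L^1`, the operator `κ ↦ w'(·;κ)`
-/

namespace Pool.Agent.Helper67.DO

open scoped BigOperators Real
open MeasureTheory

noncomputable section

section Lam

variable {X : Type*} [MeasurableSpace X] (μ : Measure X) [IsProbabilityMeasure μ]

theorem d19_prod_int {q : ℕ} (g : Fin q → X → ℂ) (hg : ∀ j, Integrable (g j) μ) :
    Integrable (fun ω : Fin (q + 1) → X => ∏ j : Fin q, g j (ω j.castSucc)) (Measure.pi fun _ => μ) := by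
  have h := Integrable.fintype_prod (𝕜 := ℂ) (μ := fun _ : Fin (q + 1) => μ)
    (f := (Fin.snoc (α := fun _ => X → ℂ) g (fun _ => 1) : Fin (q + 1) → X → ℂ)) ?_
  · refine h.congr (Filter.Eventually.of_forall fun ω => ?_)
    show (∏ i, (Fin.snoc (α := fun _ => X → ℂ) g (fun _ => 1) : Fin (q + 1) → X → ℂ) i (ω i)) = _
    rw [Fin.prod_univ_castSucc]
    simp [Fin.snoc_castSucc, Fin.snoc_last]
  · intro i
    refine Fin.lastCases ?_ (fun j => ?_) i
    · rw [Fin.snoc_last]; exact integrable_const _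
    · rw [Fin.snoc_castSucc]; exact hg j

theorem d19_prod_norm {q : ℕ} (g : Fin q → X → ℂ) :
    ∫ ω : Fin (q + 1) → X, ∏ j : Fin q, ‖g j (ω j.castSucc)‖ ∂(Measure.pi fun _ => μ) = ∏ j, ∫ x, ‖g j x‖ ∂μ := by
  have h := integral_fintype_prod_eq_prod (𝕜 := ℝ) (μ := fun _ : Fin (q + 1) => μ)
    (Fin.snoc (α := fun _ => X → ℝ) (fun j x => ‖g j x‖) (fun _ => 1) : Fin (q + 1) → X → ℝ)
  rw [Fin.prod_univ_castSucc] at h
  simp only [Fin.snoc_castSucc, Fin.snoc_last, integral_const, probReal_univ, smul_eq_mul, mul_one] at h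
  rw [← h]
  refine integral_congr_ae (Filter.Eventually.of_forall fun ω => ?_)
  show _ = (∏ i, (Fin.snoc (α := fun _ => X → ℝ) (fun j x => ‖g j x‖) (fun _ => 1) : Fin (q + 1) → X → ℝ) i (ω i))
  rw [Fin.prod_univ_castSucc]
  simp [Fin.snoc_castSucc, Fin.snoc_last]

theorem d19_ae_eval {q : ℕ} {p : X → Prop} (h : ∀ᵐ x ∂μ, p x) (j : Fin (q + 1)) :
    ∀ᵐ ω ∂(Measure.pi fun _ : Fin (q + 1) => μ), p (ω j) :=
  (Measure.quasiMeasurePreserving_eval (μ := fun _ : Fin (q + 1) => μ) j).ae h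

/-- the multilinear functional -/
theorem d19_Lam {q : ℕ} (G : (Fin (q + 1) → X) → ℂ) (hG : AEStronglyMeasurable G (Measure.pi fun _ => μ)) (BG : ℝ)
    (hB : ∀ᵐ ω ∂(Measure.pi fun _ : Fin (q + 1) => μ), ‖G ω‖ ≤ BG) :
    ∃ Λ : ContinuousMultilinearMap ℂ (fun _ : Fin q => Lp ℂ 1 μ) ℂ, ∀ (g : Fin q → X → ℂ) (hg : ∀ j, Integrable (g j) μ),
      Λ (fun j => (hg j).toL1 (g j)) = ∫ ω : Fin (q + 1) → X, G ω * ∏ j : Fin q, g j (ω j.castSucc) ∂(Measure.pi fun _ => μ) := by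
  have hI : ∀ m : Fin q → Lp ℂ 1 μ, ∀ j, Integrable (m j : X → ℂ) μ := fun m j => L1.integrable_coeFn (m j)
  have hint : ∀ m : Fin q → Lp ℂ 1 μ, Integrable (fun ω : Fin (q + 1) → X => G ω * ∏ j : Fin q, (m j : X → ℂ) (ω j.castSucc))
      (Measure.pi fun _ => μ) := fun m => (d19_prod_int μ _ (hI m)).bdd_mul hG hB
  have hupd : ∀ (m : Fin q → Lp ℂ 1 μ) (i : Fin q) (z : Lp ℂ 1 μ) (ω : Fin (q + 1) → X),
      ∏ j, ((Function.update m i z) j : X → ℂ) (ω j.castSucc)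
        = (z : X → ℂ) (ω i.castSucc) * ∏ j ∈ Finset.univ.erase i, (m j : X → ℂ) (ω j.castSucc) := by
    intro m i z ω
    rw [← Finset.mul_prod_erase Finset.univ _ (Finset.mem_univ i), Function.update_self]
    congr 1
    refine Finset.prod_congr rfl fun j hj => ?_
    rw [Function.update_of_ne (Finset.ne_of_mem_erase hj)]
  let I : (Fin q → Lp ℂ 1 μ) → ℂ := fun m =>
    ∫ ω : Fin (q + 1) → X, G ω * ∏ j : Fin q, (m j : X → ℂ) (ω j.castSucc) ∂(Measure.pi fun _ => μ)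
  have hadd : ∀ (m : Fin q → Lp ℂ 1 μ) (i : Fin q) (x y : Lp ℂ 1 μ),
      I (Function.update m i (x + y)) = I (Function.update m i x) + I (Function.update m i y) := by
    intro m i x y
    show ∫ ω : Fin (q + 1) → X, _ ∂_ = (∫ ω : Fin (q + 1) → X, _ ∂_) + ∫ ω : Fin (q + 1) → X, _ ∂_
    rw [← integral_add (hint (Function.update m i x)) (hint (Function.update m i y))]
    refine integral_congr_ae ?_
    filter_upwards [d19_ae_eval μ (Lp.coeFn_add x y) i.castSucc] with ω hω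
    have hω' : ((x + y : Lp ℂ 1 μ) : X → ℂ) (ω i.castSucc) = (x : X → ℂ) (ω i.castSucc) + (y : X → ℂ) (ω i.castSucc) := hω
    rw [hupd, hupd, hupd, hω']
    ring
  have hsmul : ∀ (m : Fin q → Lp ℂ 1 μ) (i : Fin q) (c : ℂ) (x : Lp ℂ 1 μ),
      I (Function.update m i (c • x)) = c • I (Function.update m i x) := by
    intro m i c x
    show ∫ ω : Fin (q + 1) → X, _ ∂_ = c • ∫ ω : Fin (q + 1) → X, _ ∂_
    rw [← integral_smul]
    refine integral_congr_ae ?_
    filter_upwards [d19_ae_eval μ (Lp.coeFn_smul c x) i.castSucc] with ω hω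
    have hω' : ((c • x : Lp ℂ 1 μ) : X → ℂ) (ω i.castSucc) = c * (x : X → ℂ) (ω i.castSucc) := hω
    rw [hupd, hupd, hω', smul_eq_mul]
    ring
  let L : MultilinearMap ℂ (fun _ : Fin q => Lp ℂ 1 μ) ℂ := MultilinearMap.mk' I hadd hsmul
  have hbound : ∀ m, ‖L m‖ ≤ BG * ∏ j, ‖m j‖ := by
    intro m
    have h1 : ∏ j, ‖m j‖ = ∫ ω : Fin (q + 1) → X, ∏ j : Fin q, ‖(m j : X → ℂ) (ω j.castSucc)‖ ∂(Measure.pi fun _ => μ) := by
      rw [d19_prod_norm]
      exact Finset.prod_congr rfl fun j _ => L1.norm_eq_integral_norm (m j)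
    rw [h1, ← integral_const_mul]
    refine norm_integral_le_of_norm_le ?_ ?_
    · refine Integrable.const_mul ?_ _
      have := (d19_prod_int μ _ (hI m)).norm
      refine this.congr (Filter.Eventually.of_forall fun ω => ?_)
      exact norm_prod _ _
    · filter_upwards [hB] with ω hω
      rw [norm_mul, norm_prod]
      exact mul_le_mul_of_nonneg_right hω (Finset.prod_nonneg fun _ _ => norm_nonneg _)
  refine ⟨L.mkContinuous BG hbound, fun g hg => ?_⟩
  show ∫ ω : Fin (q + 1) → X, G ω * ∏ j : Fin q, ((hg j).toL1 (g j) : X → ℂ) (ω j.castSucc) ∂(Measure.pi fun _ => μ) = _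
  refine integral_congr_ae ?_
  have h1 : ∀ j : Fin q, ∀ᵐ ω ∂(Measure.pi fun _ : Fin (q + 1) => μ),
      ((hg j).toL1 (g j) : X → ℂ) (ω j.castSucc) = g j (ω j.castSucc) :=
    fun j => d19_ae_eval μ (hg j).coeFn_toL1 j.castSucc
  filter_upwards [ae_all_iff.2 h1] with ω hω
  congr 1
  exact Finset.prod_congr rfl fun j _ => hω j

end Lam

section Top

variable {s0 : ℝ} {Ω : Type} [TopologicalSpace Ω] [CompactSpace Ω] [T2Space Ω]
  [SecondCountableTopology Ω] [MeasurableSpace Ω] [BorelSpace Ω] {P : Measure Ω} [IsProbabilityMeasure P]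
  {η : Ω → ℂ → ℂ} {w : Ω → (ℂ → ℂ) → ℂ} {Cw : ℝ}

theorem d19_HB_shift {s : ℝ} {κ : ℂ → ℂ} (h : HB s κ) (c : ℝ) : HB s (fun z => κ (z - c)) := by
  have hm : ∀ z ∈ St s, z - (c : ℂ) ∈ St s := by
    intro z hz
    have h1 : |z.im| < s := hz
    show |(z - (c : ℂ)).im| < s
    simpa using h1
  obtain ⟨B, hB⟩ := h.bdd
  refine ⟨?_, ?_, B, fun z hz => hB _ (hm z hz)⟩
  · refine h.hol.comp (f := fun z : ℂ => z - (c : ℂ)) ?_ hm
    fun_prop
  · intro z hz
    rw [← h.per _ (hm z hz)]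
    congr 1
    ring

instance d19_PP_prob : IsProbabilityMeasure (PP P) := by
  have : IsProbabilityMeasure (volume.restrict (Set.Icc (0 : ℝ) 1)) := by
    constructor
    rw [Measure.restrict_apply MeasurableSet.univ, Set.univ_inter, Real.volume_Icc]
    simp
  unfold PP
  infer_instance

theorem d19_HB_congr {s : ℝ} {κ κ' : ℂ → ℂ} (h : HB s κ) (e : ∀ z ∈ St s, κ z = κ' z) : HB s κ' := by
  obtain ⟨B, hB⟩ := h.bdd
  refine ⟨h.hol.congr fun z hz => (e z hz).symm, fun z hz => ?_, B, fun z hz => by rw [← e z hz]; exact hB z hz⟩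
  have h1 : z + 1 ∈ St s := by simpa [St] using hz
  rw [← e z hz, ← e _ h1, h.per z hz]

/-- almost everywhere statements on the product -/
theorem d19_ae_PP {p : Ω × ℝ → Prop} (hm : MeasurableSet {x | p x}) (h : ∀ c : ℝ, ∀ᵐ ω ∂P, p (ω, c)) :
    ∀ᵐ x ∂(PP P), p x := by
  unfold PP
  rw [ae_iff]
  have hm' : MeasurableSet {x | ¬ p x} := hm.compl
  rw [Measure.prod_apply_symm hm']
  simp only [lintegral_eq_zero_iff (measurable_measure_prodMk_right hm')]
  refine Filter.Eventually.of_forall fun c => ?_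
  exact ae_iff.1 (h c)

theorem d19_ww_int (h : SMD s0 Ω P η w Cw) {κ : ℂ → ℂ} (hk : HB s0 κ) {B : ℝ} (hB : ∀ z ∈ St s0, ‖κ z‖ ≤ B) :
    Integrable (fun x => ww w x κ) (PP P) ∧ ∫ x, ‖ww w x κ‖ ∂(PP P) ≤ Cw * B := by
  have hm : ∀ c : ℝ, ∀ z ∈ St s0, z - (c : ℂ) ∈ St s0 := by
    intro c z hz
    have h1 : |z.im| < s0 := hz
    show |(z - (c : ℂ)).im| < s0
    simpa using h1
  have hmeas : Measurable (fun x : Ω × ℝ => ww w x κ) := h.meas κ hk
  have haes : AEStronglyMeasurable (fun x : Ω × ℝ => ww w x κ) (P.prod (volume.restrict (Set.Icc (0 : ℝ) 1))) :=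
    hmeas.aestronglyMeasurable
  have hc : ∀ c : ℝ, ∫ ω, ‖ww w (ω, c) κ‖ ∂P ≤ Cw * B := fun c =>
    h.bdd _ B (d19_HB_shift hk c) fun z hz => hB _ (hm c z hz)
  have hI2 : Integrable (fun c : ℝ => ∫ ω, ‖ww w (ω, c) κ‖ ∂P) (volume.restrict (Set.Icc (0 : ℝ) 1)) := by
    refine Integrable.of_bound (C := Cw * B) ?_ (Filter.Eventually.of_forall fun c => ?_)
    · exact (hmeas.norm.stronglyMeasurable.integral_prod_left' (μ := P)).aestronglyMeasurable
    · rw [Real.norm_eq_abs, abs_of_nonneg (integral_nonneg fun _ => norm_nonneg _)]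
      exact hc c
  have hI : Integrable (fun x : Ω × ℝ => ww w x κ) (P.prod (volume.restrict (Set.Icc (0 : ℝ) 1))) := by
    rw [integrable_prod_iff' haes]
    exact ⟨Filter.Eventually.of_forall fun c => h.int _ (d19_HB_shift hk c), hI2⟩
  refine ⟨hI, ?_⟩
  have hprob : IsProbabilityMeasure (volume.restrict (Set.Icc (0 : ℝ) 1)) := by
    constructor
    rw [Measure.restrict_apply MeasurableSet.univ, Set.univ_inter, Real.volume_Icc]
    simp
  show ∫ x, ‖ww w x κ‖ ∂(P.prod (volume.restrict (Set.Icc (0 : ℝ) 1))) ≤ Cw * B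
  rw [integral_prod_symm _ hI.norm]
  have := integral_mono (μ := volume.restrict (Set.Icc (0 : ℝ) 1)) hI2 (integrable_const (Cw * B)) hc
  simpa using this

theorem d19_Cw_nonneg (h : SMD s0 Ω P η w Cw) : 0 ≤ Cw := by
  have h1 : HB s0 (fun _ => 1) := ⟨differentiableOn_const _, fun _ _ => rfl, 1, fun _ _ => by simp⟩
  have h2 := h.bdd (fun _ => 1) 1 h1 (fun _ _ => by simp)
  have h3 : 0 ≤ ∫ ω, ‖w ω (fun _ => 1)‖ ∂P := integral_nonneg fun _ => norm_nonneg _
  linarith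

theorem d19_ww_I (h : SMD s0 Ω P η w Cw) {κ : ℂ → ℂ} (hk : HB s0 κ) : Integrable (fun x => ww w x κ) (PP P) := by
  obtain ⟨B, hB⟩ := hk.bdd
  exact (d19_ww_int h hk hB).1

/-- the operator `κ ↦ w'(·;κ)` with values in `L^1` -/
def d19_T (P : Measure Ω) [IsProbabilityMeasure P] (w : Ω → (ℂ → ℂ) → ℂ) (κ : ℂ → ℂ) : Lp ℂ 1 (PP P) := by
  classical
  exact if h : Integrable (fun x => ww w x κ) (PP P) then h.toL1 _ else 0

theorem d19_T_eq (h : SMD s0 Ω P η w Cw) {κ : ℂ → ℂ} (hk : HB s0 κ) :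
    d19_T P w κ = (d19_ww_I h hk).toL1 _ := by
  unfold d19_T
  rw [dif_pos (d19_ww_I h hk)]

theorem d19_ww_lin (h : SMD s0 Ω P η w Cw) {κ κ' : ℂ → ℂ} (c : ℂ) (hk : HB s0 κ) (hk' : HB s0 κ') :
    ∀ᵐ x ∂(PP P), ww w x (fun z => c * κ z + κ' z) = c * ww w x κ + ww w x κ' := by
  refine d19_ae_PP ?_ fun t => h.lin _ _ c (d19_HB_shift hk t) (d19_HB_shift hk' t)
  exact measurableSet_eq_fun (h.meas _ (d19_HB_lin c hk hk'))
    (((h.meas _ hk).const_mul c).add (h.meas _ hk'))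

theorem d19_ww_ext (h : SMD s0 Ω P η w Cw) {κ κ' : ℂ → ℂ} (hk : HB s0 κ) (e : ∀ z ∈ St s0, κ z = κ' z) :
    ∀ᵐ x ∂(PP P), ww w x κ = ww w x κ' := by
  refine d19_ae_PP ?_ fun t => h.ext _ (fun z => κ' (z - (t : ℂ))) (d19_HB_shift hk t) ?_
  · exact measurableSet_eq_fun (h.meas _ hk) (h.meas _ (d19_HB_congr hk e))
  · intro z hz
    apply e
    have h1 : |z.im| < s0 := hz
    show |(z - (t : ℂ)).im| < s0
    simpa using h1

theorem d19_T_T (h : SMD s0 Ω P η w Cw) : D19T s0 (d19_T P w) Cw where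
  nonneg := d19_Cw_nonneg h
  lin κ κ' c hk hk' := by
    rw [d19_T_eq h (d19_HB_lin c hk hk'), d19_T_eq h hk, d19_T_eq h hk']
    have e : c • (d19_ww_I h hk).toL1 _ + (d19_ww_I h hk').toL1 _
        = (((d19_ww_I h hk).smul c).add (d19_ww_I h hk')).toL1 _ := rfl
    rw [e, Integrable.toL1_eq_toL1_iff]
    filter_upwards [d19_ww_lin h c hk hk'] with x hx
    exact hx
  ext κ κ' hk e := by
    rw [d19_T_eq h hk, d19_T_eq h (d19_HB_congr hk e), Integrable.toL1_eq_toL1_iff]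
    exact d19_ww_ext h hk e
  bdd κ B hk hB := by
    rw [d19_T_eq h hk, L1.norm_of_fun_eq_integral_norm]
    exact (d19_ww_int h hk hB).2

end Top

end

end Pool.Agent.Helper67.DO
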