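import Pool.Agent.Helper68.DO.D19d

/-!
# MP_d07457_gt, module D19, part e: the bounded function `G`, comparison with `C_j`
-/

namespace Pool.Agent.Helper67.DO

open scoped BigOperators Real
open MeasureTheory

noncomputable section

theorem d19_id_AA {n : ℕ} (hn : 1 ≤ n) : (fun x : ℝ => x) ∈ AA n := by
  refine ⟨isLift_id, fun l _ => ?_, fun x => ?_⟩
  · have : fco (fun x : ℝ => (fun x : ℝ => x) x - x) l = 0 := by
      unfold fco
      simp
    rw [this, norm_zero]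
    positivity
  · have h1 : (1 : ℝ) ≤ n := by exact_mod_cast hn
    simp only [deriv_id'']
    rw [div_le_one (by linarith)]
    exact h1

section Ctx

variable {n n' p : ℕ} {ρ s M s0 : ℝ} {Ω : Type} [TopologicalSpace Ω] [CompactSpace Ω] [T2Space Ω]
  [SecondCountableTopology Ω] [MeasurableSpace Ω] [BorelSpace Ω] {P : Measure Ω} [IsProbabilityMeasure P]
  {η : Ω → ℂ → ℂ} {w : Ω → (ℂ → ℂ) → ℂ} {Cw : ℝ}

theorem d19_gg_mem (h : Ctx n n' ρ s M s0 Ω P η w Cw) (ω : Ω × ℝ) {Φ : ℝ → ℝ} (hΦ : Φ ∈ AA n) :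
    gg η ω Φ ∈ AA n' := h.good.2.2 (η ω.1) (h.smd.adm ω.1) Φ hΦ ω.2

theorem d19_gg_cont (h : Ctx n n' ρ s M s0 Ω P η w Cw) :
    Continuous (fun p : (Ω × ℝ) × ℝ => gg η p.1 (fun x => x) p.2) := by
  unfold gg
  refine Complex.continuous_re.comp ?_
  refine h.smd.cont.comp_continuous (f := fun p : (Ω × ℝ) × ℝ => (p.1.1, ((p.2 + p.1.2 : ℝ) : ℂ))) (by fun_prop) ?_
  intro p
  refine ⟨trivial, ?_⟩
  show |((p.2 + p.1.2 : ℝ) : ℂ).im| < s0 / 4
  have := h.s0pos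
  simp only [Complex.ofReal_im, abs_zero]
  linarith

theorem d19_gg_near (h : Ctx n n' ρ s M s0 Ω P η w Cw) (ω0 : Ω × ℝ) {δ : ℝ} (hδ : 0 < δ) :
    ∀ᶠ ω in nhds ω0, ∀ x, |gg η ω (fun x => x) x - gg η ω0 (fun x => x) x| ≤ δ := by
  let f : C((Ω × ℝ) × Set.Icc (0 : ℝ) 1, ℝ) :=
    ⟨fun p => gg η p.1 (fun x => x) p.2.1,
      (d19_gg_cont h).comp (f := fun p : (Ω × ℝ) × Set.Icc (0 : ℝ) 1 => (p.1, (p.2 : ℝ))) (by fun_prop)⟩
  have hc := (ContinuousMap.curry f).continuous.continuousAt (x := ω0)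
  have h1 := Metric.tendsto_nhds.1 hc δ hδ
  filter_upwards [h1] with ω hω x
  have hn := h.good.1
  have hL : IsLift (gg η ω (fun x => x)) := (d19_gg_mem h ω (d19_id_AA hn)).1
  have hL0 : IsLift (gg η ω0 (fun x => x)) := (d19_gg_mem h ω0 (d19_id_AA hn)).1
  have e : x = Int.fract x + (⌊x⌋ : ℝ) := by
    rw [add_comm, Int.floor_add_fract]
  have h2 : |gg η ω (fun x => x) (Int.fract x) - gg η ω0 (fun x => x) (Int.fract x)| ≤ δ := by
    have hmem : Int.fract x ∈ Set.Icc (0 : ℝ) 1 := ⟨Int.fract_nonneg x, (Int.fract_lt_one x).le⟩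
    have h3 := ContinuousMap.dist_apply_le_dist (f := ContinuousMap.curry f ω) (g := ContinuousMap.curry f ω0)
      ⟨Int.fract x, hmem⟩
    rw [Real.dist_eq] at h3
    exact h3.trans hω.le
  rw [e, hL.perInt, hL0.perInt]
  simpa using h2

/-- the function `G` on `(Ω × ℝ)^{q+1}` -/
def d19_G (q : ℕ) (η : Ω → ℂ → ℂ) (C : Sq → ℂ) (ω : Fin (q + 1) → Ω × ℝ) : ℂ :=
  C (fun k => if h : k < q + 1 then gg η (ω ⟨k, h⟩) (fun x => x) else fun x => x)

theorem d19_G_seq (h : Ctx n n' ρ s M s0 Ω P η w Cw) {q : ℕ} (ω : Fin (q + 1) → Ω × ℝ) {Φ : ℝ → ℝ} (hΦ : Φ ∈ AA n)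
    (hΦ' : Φ ∈ AA n') :
    ∀ k, (fun k => if h : k < q + 1 then gg η (ω ⟨k, h⟩) Φ else Φ : Sq) k ∈ AA n' := by
  intro k
  by_cases hk : k < q + 1
  · simp only [hk, dif_pos]
    exact d19_gg_mem h _ hΦ
  · simp only [hk, dif_neg, not_false_eq_true]
    exact hΦ'

theorem d19_G_cont (h : Ctx n n' ρ s M s0 Ω P η w Cw) {q : ℕ} {C : Sq → ℂ} (hC : LC n' q C) :
    Continuous (d19_G q η C) := by
  rw [continuous_iff_continuousAt]
  intro ω0
  rw [ContinuousAt, Metric.tendsto_nhds]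
  intro ε hε
  obtain ⟨δ, hδ, hu⟩ := hC.uc (ε / 2) (by linarith)
  have h1 : ∀ j : Fin (q + 1), ∀ᶠ ω : Fin (q + 1) → Ω × ℝ in nhds ω0,
      ∀ x, |gg η (ω j) (fun x => x) x - gg η (ω0 j) (fun x => x) x| ≤ δ :=
    fun j => (continuous_apply j).continuousAt.eventually (d19_gg_near h (ω0 j) hδ)
  have hn := h.good.1
  have hn' : 1 ≤ n' := hn.trans h.good.2.1
  filter_upwards [Filter.eventually_all.2 h1] with ω hω
  rw [dist_eq_norm]
  refine lt_of_le_of_lt (hu _ _ (d19_G_seq h ω (d19_id_AA hn) (d19_id_AA hn'))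
    (d19_G_seq h ω0 (d19_id_AA hn) (d19_id_AA hn')) ?_) (by linarith)
  intro k hk x
  have hk' : k < q + 1 := by omega
  simp only [hk', dif_pos]
  exact hω ⟨k, hk'⟩ x

theorem d19_G_bdd (h : Ctx n n' ρ s M s0 Ω P η w Cw) {q : ℕ} {C : Sq → ℂ} (hC : LC n' q C) :
    ∃ BG : ℝ, ∀ᵐ ω ∂(Measure.pi fun _ : Fin (q + 1) => PP P), ‖d19_G q η C ω‖ ≤ BG := by
  have hK : IsCompact (Set.pi Set.univ fun _ : Fin (q + 1) => (Set.univ : Set Ω) ×ˢ Set.Icc (0 : ℝ) 1) :=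
    isCompact_univ_pi fun _ => isCompact_univ.prod isCompact_Icc
  obtain ⟨BG, hBG⟩ := hK.exists_bound_of_continuousOn (d19_G_cont h hC).continuousOn
  refine ⟨BG, ?_⟩
  have h1 : ∀ᵐ x ∂(PP P), x.2 ∈ Set.Icc (0 : ℝ) 1 := by
    unfold PP
    have h2 : ∀ᵐ c ∂(volume.restrict (Set.Icc (0 : ℝ) 1)), c ∈ Set.Icc (0 : ℝ) 1 := ae_restrict_mem measurableSet_Icc
    exact Measure.quasiMeasurePreserving_snd.ae h2
  have h3 : ∀ j : Fin (q + 1), ∀ᵐ ω ∂(Measure.pi fun _ : Fin (q + 1) => PP P), (ω j).2 ∈ Set.Icc (0 : ℝ) 1 :=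
    fun j => d19_ae_eval (PP P) h1 j
  filter_upwards [ae_all_iff.2 h3] with ω hω
  exact hBG ω fun j _ => ⟨trivial, hω j⟩

theorem d19_pull_HB (h : Inv n ρ s M) {Φ : ℝ → ℝ} (hΦ : Φ ∈ AA n) {K : ℝ} {v : ℝ → ℝ} (hv : v ∈ VV n K) {s1 : ℝ}
    (hs : s1 ≤ s) : HB s1 (pull ρ Φ v) := by
  have hsub : St s1 ⊆ St s := fun z hz => lt_of_lt_of_le hz hs
  have h1 : ∀ z ∈ St s, cinv ρ Φ z ∈ St (2 * ρ) := by
    intro z hz
    have h2 : |(cinv ρ Φ z).im| < ρ := (h.inv Φ hΦ z hz).1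
    have h3 : 0 < ρ := lt_of_lt_of_le h.pos.1 h.pos.2.1
    show |(cinv ρ Φ z).im| < 2 * ρ
    linarith
  refine ⟨?_, ?_, M * K, ?_⟩
  · exact ((h.vhol K v hv).comp (h.invhol Φ hΦ) h1).mono hsub
  · intro z hz
    unfold pull
    rw [(h.inv Φ hΦ z (hsub hz)).2.2]
    exact (h.vbd K v hv _ (h1 z (hsub hz))).1
  · intro z hz
    exact (h.vbd K v hv _ (h1 z (hsub hz))).2

/-- `C_q` at `(Φ,..,Φ)` -/
theorem d19_CJ_eq (h : Ctx n n' ρ s M s0 Ω P η w Cw) {q : ℕ} {C : Sq → ℂ} (hC : LC n' q C)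
    (hmono : AA n ⊆ AA n')
    (Λ : ContinuousMultilinearMap ℂ (fun _ : Fin q => Lp ℂ 1 (PP P)) ℂ)
    (hΛ : ∀ (g : Fin q → Ω × ℝ → ℂ) (hg : ∀ j, Integrable (g j) (PP P)),
      Λ (fun j => (hg j).toL1 (g j)) = ∫ ω : Fin (q + 1) → Ω × ℝ, d19_G q η C ω * ∏ j : Fin q, g j (ω j.castSucc)
        ∂(Measure.pi fun _ => PP P))
    {Φ : ℝ → ℝ} (hΦ : Φ ∈ AA n) (y v : Sq) (hy : ∀ k ≤ q, y k = Φ) (hv : ∀ b : Fin q, HB s0 (pull ρ Φ (v b))) :
    CJ P η w ρ q C q y v = Λ fun b : Fin q => d19_T P w (pull ρ Φ (v b)) := by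
  have e1 : (fun b : Fin q => d19_T P w (pull ρ Φ (v b))) = fun b : Fin q => (d19_ww_I h.smd (hv b)).toL1 _ :=
    funext fun b => d19_T_eq h.smd (hv b)
  rw [e1, hΛ]
  unfold CJ
  refine integral_congr_ae (Filter.Eventually.of_forall fun ω => ?_)
  have hn := h.good.1
  have hn' : 1 ≤ n' := hn.trans h.good.2.1
  have e2 : C (fun k => if h : k < q + 1 then gg η (ω ⟨k, h⟩) (y k) else y k) = d19_G q η C ω := by
    have e3 : C (fun k => if h : k < q + 1 then gg η (ω ⟨k, h⟩) (y k) else y k)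
        = C (fun k => if h : k < q + 1 then gg η (ω ⟨k, h⟩) Φ else Φ) := by
      refine hC.dep _ _ fun k hk => ?_
      have hk' : k < q + 1 := by omega
      simp only [hk', dif_pos, hy k hk]
    rw [e3]
    have h4 := hC.rinv (fun k => if h : k < q + 1 then gg η (ω ⟨k, h⟩) (fun x => x) else fun x => x) Φ hΦ.1
      (d19_G_seq h ω (d19_id_AA hn) (d19_id_AA hn')) ?_
    · unfold d19_G
      rw [← h4]
      congr 1
      funext k x
      by_cases hk : k < q + 1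
      · simp only [hk, dif_pos]
        rfl
      · simp only [hk, dif_neg, not_false_eq_true]
    · intro k
      have h5 := d19_G_seq h ω hΦ (hmono hΦ) k
      by_cases hk : k < q + 1
      · simp only [hk, dif_pos] at h5 ⊢
        exact h5
      · simp only [hk, dif_neg, not_false_eq_true] at h5 ⊢
        exact h5
  show C (fun k => if h : k < q + 1 then gg η (ω ⟨k, h⟩) (y k) else y k) * ∏ b : Fin (q + 1), _ = _
  rw [e2, Fin.prod_univ_castSucc]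
  congr 1
  simp only [Fin.val_castSucc, Fin.is_lt, if_true, Fin.val_last, lt_self_iff_false, if_false, mul_one]
  refine Finset.prod_congr rfl fun b _ => ?_
  rw [hy b (by omega)]

end Ctx

end

end Pool.Agent.Helper67.DO
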