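import Pool.Agent.Helper68.DO.D19e

/-!
# MP_d07457_gt, module D19, part f: real trigonometric polynomials
-/

namespace Pool.Agent.Helper67.DO

open scoped BigOperators Real
open MeasureTheory

noncomputable section

/-- real trigonometric monomials -/
def d19_rr (m : ℤ) (θ : ℝ) (x : ℝ) : ℝ := Real.cos (2 * π * m * x + θ)

/-- their complex extensions -/
def d19_rc (m : ℤ) (θ : ℝ) (z : ℂ) : ℂ := Complex.cos (2 * π * m * z + θ)

theorem d19_rc_real (m : ℤ) (θ : ℝ) (x : ℝ) : d19_rc m θ x = (d19_rr m θ x : ℂ) := by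
  unfold d19_rc d19_rr
  push_cast
  rfl

theorem d19_rr_analytic (m : ℤ) (θ : ℝ) (x : ℝ) : AnalyticAt ℝ (d19_rr m θ) x := by
  unfold d19_rr
  exact Real.analyticAt_cos.fun_comp (by fun_prop)

theorem d19_rr_deriv (m : ℤ) (θ : ℝ) (x : ℝ) : HasDerivAt (d19_rr m θ) (-Real.sin (2 * π * m * x + θ) * (2 * π * m)) x := by
  unfold d19_rr
  have h1 : HasDerivAt (fun x : ℝ => 2 * π * m * x + θ) (2 * π * m) x := by
    simpa using ((hasDerivAt_id x).const_mul (2 * π * m)).add_const θ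
  exact h1.cos

theorem d19_rr_per (m : ℤ) (θ : ℝ) (x : ℝ) : d19_rr m θ (x + 1) = d19_rr m θ x := by
  unfold d19_rr
  rw [show 2 * π * m * (x + 1) + θ = 2 * π * m * x + θ + m * (2 * π) by ring, Real.cos_add_int_mul_two_pi]

theorem d19_rr_le (m : ℤ) (θ : ℝ) (x : ℝ) : |d19_rr m θ x| ≤ 1 := Real.abs_cos_le_one _

theorem d19_int_exp (k : ℤ) : ∫ x in (0 : ℝ)..1, Complex.exp (2 * π * Complex.I * k * x) = if k = 0 then 1 else 0 := by
  by_cases hk : k = 0
  · simp [hk]
  · rw [if_neg hk]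
    have hc : (2 * π * Complex.I * k : ℂ) ≠ 0 := by
      have : (k : ℂ) ≠ 0 := by exact_mod_cast hk
      simp [this, Real.pi_ne_zero]
    rw [integral_exp_mul_complex hc]
    have : Complex.exp (2 * π * Complex.I * k * (1 : ℝ)) = 1 := by
      rw [Complex.exp_eq_one_iff]
      exact ⟨k, by push_cast; ring⟩
    rw [this]
    simp

theorem d19_fco_rr (m : ℤ) (θ : ℝ) (l : ℤ) : fco (d19_rr m θ) l =
    (if m = l then Complex.exp (θ * Complex.I) / 2 else 0) + (if -m = l then Complex.exp (-(θ * Complex.I)) / 2 else 0) := by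
  unfold fco
  have e : ∀ x : ℝ, (d19_rr m θ x : ℂ) * Complex.exp (-(2 * π * Complex.I * l * x))
      = Complex.exp (θ * Complex.I) / 2 * Complex.exp (2 * π * Complex.I * ((m - l : ℤ) : ℂ) * x)
        + Complex.exp (-(θ * Complex.I)) / 2 * Complex.exp (2 * π * Complex.I * ((-m - l : ℤ) : ℂ) * x) := by
    intro x
    unfold d19_rr
    rw [Complex.ofReal_cos, Complex.cos]
    have h1 : Complex.exp (θ * Complex.I) * Complex.exp (2 * π * Complex.I * ((m - l : ℤ) : ℂ) * x)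
        = Complex.exp (((2 * π * m * x + θ : ℝ) : ℂ) * Complex.I) * Complex.exp (-(2 * π * Complex.I * l * x)) := by
      rw [← Complex.exp_add, ← Complex.exp_add]
      congr 1
      push_cast
      ring
    have h2 : Complex.exp (-(θ * Complex.I)) * Complex.exp (2 * π * Complex.I * ((-m - l : ℤ) : ℂ) * x)
        = Complex.exp (-((2 * π * m * x + θ : ℝ) : ℂ) * Complex.I) * Complex.exp (-(2 * π * Complex.I * l * x)) := by
      rw [← Complex.exp_add, ← Complex.exp_add]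
      congr 1
      push_cast
      ring
    linear_combination (-1 / 2 : ℂ) * h1 + (-1 / 2 : ℂ) * h2
  simp only [e]
  rw [intervalIntegral.integral_add, intervalIntegral.integral_const_mul, intervalIntegral.integral_const_mul,
    d19_int_exp, d19_int_exp]
  · simp only [sub_eq_zero]
    simp
  · exact Continuous.intervalIntegrable (by fun_prop) _ _
  · exact Continuous.intervalIntegrable (by fun_prop) _ _

theorem d19_fco_rr_le (m : ℤ) (θ : ℝ) (l : ℤ) (c : ℝ) :
    ‖fco (d19_rr m θ) l‖ ≤ Real.exp (c * |(m : ℝ)|) * Real.exp (-(c * |(l : ℝ)|)) := by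
  have h1 : ∀ a b : ℂ, ‖a‖ ≤ 1 / 2 → ‖b‖ ≤ 1 / 2 → ‖a + b‖ ≤ 1 := fun a b ha hb =>
    (norm_add_le a b).trans (by linarith)
  rw [d19_fco_rr]
  have e1 : ‖Complex.exp (θ * Complex.I) / 2‖ = 1 / 2 := by
    rw [norm_div, Complex.norm_exp_ofReal_mul_I]; norm_num
  have e2 : ‖Complex.exp (-(θ * Complex.I)) / 2‖ = 1 / 2 := by
    have : -((θ : ℂ) * Complex.I) = ((-θ : ℝ) : ℂ) * Complex.I := by push_cast; ring
    rw [this, norm_div, Complex.norm_exp_ofReal_mul_I]; norm_num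
  by_cases hl : |(l : ℝ)| = |(m : ℝ)|
  · rw [hl, ← Real.exp_add]
    simp only [add_neg_cancel, Real.exp_zero]
    apply h1
    · split_ifs
      · exact e1.le
      · simp
    · split_ifs
      · exact e2.le
      · simp
  · have h2 : m ≠ l := by rintro rfl; exact hl rfl
    have h3 : -m ≠ l := by rintro rfl; apply hl; simp
    rw [if_neg h2, if_neg h3, add_zero, norm_zero]
    positivity

/-- real trigonometric polynomials -/
def d19_V {N : ℕ} (m : Fin N → ℤ) (θ : Fin N → ℝ) (c : Fin N → ℝ) (x : ℝ) : ℝ := ∑ k, c k * d19_rr (m k) (θ k) x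

def d19_VC {N : ℕ} (m : Fin N → ℤ) (θ : Fin N → ℝ) (c : Fin N → ℝ) (z : ℂ) : ℂ := ∑ k, (c k : ℂ) * d19_rc (m k) (θ k) z

theorem d19_V_deriv {N : ℕ} (m : Fin N → ℤ) (θ : Fin N → ℝ) (c : Fin N → ℝ) (x : ℝ) :
    HasDerivAt (d19_V m θ c) (∑ k, c k * (-Real.sin (2 * π * m k * x + θ k) * (2 * π * m k))) x := by
  unfold d19_V
  exact HasDerivAt.fun_sum fun k _ => (d19_rr_deriv (m k) (θ k) x).const_mul (c k)

theorem d19_AA_trig {n : ℕ} (hn : 2 ≤ n) {N : ℕ} (m : Fin N → ℤ) : ∃ ε : ℝ, 0 < ε ∧ ∀ (θ τ : Fin N → ℝ),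
    (∀ k, |τ k| ≤ ε) → (fun x => x + d19_V m θ τ x) ∈ AA n := by
  have hn' : (2 : ℝ) ≤ n := by exact_mod_cast hn
  let A : ℝ := ∑ k, Real.exp (2 * π / n * |(m k : ℝ)|)
  let D : ℝ := ∑ k, 2 * π * |(m k : ℝ)|
  have hA : 0 ≤ A := Finset.sum_nonneg fun _ _ => (Real.exp_pos _).le
  have hD : 0 ≤ D := Finset.sum_nonneg fun _ _ => by positivity
  refine ⟨1 / (A + 2 * D + 1), by positivity, fun θ τ hτ => ?_⟩
  have hε : 0 < 1 / (A + 2 * D + 1) := by positivity
  have hder : ∀ x, HasDerivAt (fun x => x + d19_V m θ τ x)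
      (1 + ∑ k, τ k * (-Real.sin (2 * π * m k * x + θ k) * (2 * π * m k))) x :=
    fun x => (hasDerivAt_id' x).add (d19_V_deriv m θ τ x)
  have hdb : ∀ x, 1 / 2 ≤ 1 + ∑ k, τ k * (-Real.sin (2 * π * m k * x + θ k) * (2 * π * m k)) := by
    intro x
    have h1 : |∑ k, τ k * (-Real.sin (2 * π * m k * x + θ k) * (2 * π * m k))| ≤ 1 / (A + 2 * D + 1) * D := by
      refine (Finset.abs_sum_le_sum_abs _ _).trans ?_
      rw [Finset.mul_sum]
      refine Finset.sum_le_sum fun k _ => ?_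
      rw [abs_mul, abs_mul, abs_neg, abs_mul, abs_of_pos (by positivity : (0 : ℝ) < 2 * π)]
      have h2 := Real.abs_sin_le_one (2 * π * m k * x + θ k)
      have h3 : |Real.sin (2 * π * m k * x + θ k)| * (2 * π * |(m k : ℝ)|) ≤ 1 * (2 * π * |(m k : ℝ)|) :=
        mul_le_mul_of_nonneg_right h2 (by positivity)
      rw [one_mul] at h3
      exact mul_le_mul (hτ k) h3 (by positivity) hε.le
    have h2 : 1 / (A + 2 * D + 1) * D ≤ 1 / 2 := by
      rw [one_div_mul_eq_div, div_le_div_iff₀ (by positivity) (by norm_num)]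
      linarith
    have h3 := (abs_le.1 (h1.trans h2)).1
    linarith
  refine ⟨⟨fun x => ?_, fun x => ?_, fun x => ?_⟩, fun l hl => ?_, fun x => ?_⟩
  · refine analyticAt_id.add ?_
    unfold d19_V
    refine Finset.analyticAt_fun_sum _ fun k _ => ?_
    exact analyticAt_const.mul (d19_rr_analytic _ _ _)
  · simp only [d19_V, d19_rr_per]
    ring
  · rw [(hder x).deriv]
    linarith [hdb x]
  · have e : (fun x => (fun x => x + d19_V m θ τ x) x - x) = d19_V m θ τ := by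
      funext x
      show x + d19_V m θ τ x - x = _
      ring
    rw [e]
    have e2 : fco (d19_V m θ τ) l = ∑ k, (τ k : ℂ) * fco (d19_rr (m k) (θ k)) l := by
      unfold fco d19_V
      simp only [← intervalIntegral.integral_const_mul]
      rw [← intervalIntegral.integral_finsetSum]
      · refine intervalIntegral.integral_congr fun x _ => ?_
        simp only [Complex.ofReal_sum, Complex.ofReal_mul, Finset.sum_mul]
        refine Finset.sum_congr rfl fun k _ => ?_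
        ring
      · intro k _
        refine Continuous.intervalIntegrable ?_ _ _
        unfold d19_rr
        fun_prop
    rw [e2]
    have h1 : ‖∑ k, (τ k : ℂ) * fco (d19_rr (m k) (θ k)) l‖
        ≤ 1 / (A + 2 * D + 1) * A * Real.exp (-(2 * π * |(l : ℝ)| / n)) := by
      refine (norm_sum_le _ _).trans ?_
      rw [mul_assoc, Finset.sum_mul, Finset.mul_sum]
      refine Finset.sum_le_sum fun k _ => ?_
      rw [norm_mul, Complex.norm_real, Real.norm_eq_abs]
      refine mul_le_mul (hτ k) ?_ (norm_nonneg _) hε.le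
      have h2 := d19_fco_rr_le (m k) (θ k) l (2 * π / n)
      rw [show 2 * π * |(l : ℝ)| / n = 2 * π / n * |(l : ℝ)| by ring]
      exact h2
    refine h1.trans ?_
    refine mul_le_mul_of_nonneg_right ?_ (Real.exp_pos _).le
    have h3 : 1 / (A + 2 * D + 1) * A ≤ 1 := by
      rw [one_div_mul_eq_div, div_le_one (by positivity)]
      linarith
    linarith
  · rw [(hder x).deriv]
    have h1 : 1 / (n : ℝ) ≤ 1 / 2 := one_div_le_one_div_of_le (by norm_num) hn'
    exact h1.trans (hdb x)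

theorem d19_V_le {N : ℕ} (m : Fin N → ℤ) (θ : Fin N → ℝ) (c : Fin N → ℝ) (hc : ∀ k, |c k| ≤ 1) (x : ℝ) :
    |d19_V m θ c x| ≤ N := by
  unfold d19_V
  refine (Finset.abs_sum_le_sum_abs _ _).trans ?_
  have : ∑ k : Fin N, |c k * d19_rr (m k) (θ k) x| ≤ ∑ _k : Fin N, (1 : ℝ) := by
    refine Finset.sum_le_sum fun k _ => ?_
    rw [abs_mul]
    exact mul_le_one₀ (hc k) (abs_nonneg _) (d19_rr_le _ _ _)
  simpa using this

theorem d19_VV_trig {n : ℕ} (hn : 2 ≤ n) {N : ℕ} (m : Fin N → ℤ) : ∃ K : ℝ, 0 < K ∧ ∀ (θ c : Fin N → ℝ),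
    (∀ k, |c k| ≤ 1) → d19_V m θ c ∈ VV n K := by
  obtain ⟨ε, hε, h⟩ := d19_AA_trig hn m
  have hK : 0 < max (1 / ε) (N + 1) := lt_max_of_lt_left (by positivity)
  refine ⟨max (1 / ε) (N + 1), hK, fun θ c hc => ⟨⟨_, h θ (fun k => c k / max (1 / ε) (N + 1)) ?_, _,
    d19_id_AA (by omega), ?_⟩, fun x => ?_⟩⟩
  · intro k
    rw [abs_div, abs_of_pos hK, div_le_iff₀ hK]
    calc |c k| ≤ 1 := hc k
      _ = ε * (1 / ε) := by field_simp
      _ ≤ _ := mul_le_mul_of_nonneg_left (le_max_left _ _) hε.le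
  · funext x
    unfold d19_V
    rw [add_sub_cancel_left, Finset.mul_sum]
    refine Finset.sum_congr rfl fun k _ => ?_
    field_simp
  · refine (d19_V_le m θ c hc x).trans (le_trans ?_ (le_max_right _ _))
    linarith

theorem d19_zero_VV {n : ℕ} (hn : 1 ≤ n) {K : ℝ} (hK : 0 ≤ K) : (fun _ => 0 : ℝ → ℝ) ∈ VV n K :=
  ⟨⟨_, d19_id_AA hn, _, d19_id_AA hn, by funext x; simp⟩, fun x => by simpa using hK⟩

theorem d19_VC_real {N : ℕ} (m : Fin N → ℤ) (θ c : Fin N → ℝ) (x : ℝ) : d19_VC m θ c x = (d19_V m θ c x : ℂ) := by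
  unfold d19_VC d19_V
  push_cast
  exact Finset.sum_congr rfl fun k _ => by rw [d19_rc_real]

theorem d19_rc_HB (s : ℝ) (m : ℤ) (θ : ℝ) : HB s (d19_rc m θ) := by
  have e : d19_rc m θ = fun z => (Complex.exp (θ * Complex.I) / 2) * d19_ex m z
      + ((Complex.exp (-(θ * Complex.I)) / 2) * d19_ex (-m) z + 0) := by
    funext z
    unfold d19_rc d19_ex
    rw [Complex.cos]
    have h1 : Complex.exp (θ * Complex.I) * Complex.exp (2 * π * Complex.I * m * z)
        = Complex.exp ((2 * π * m * z + θ) * Complex.I) := by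
      rw [← Complex.exp_add]
      congr 1
      ring
    have h2 : Complex.exp (-(θ * Complex.I)) * Complex.exp (2 * π * Complex.I * ((-m : ℤ) : ℂ) * z)
        = Complex.exp (-(2 * π * m * z + θ) * Complex.I) := by
      rw [← Complex.exp_add]
      congr 1
      push_cast
      ring
    linear_combination (-1 / 2 : ℂ) * h1 + (-1 / 2 : ℂ) * h2
  rw [e]
  exact d19_HB_lin _ (d19_ex_HB s m) (d19_HB_lin _ (d19_ex_HB s (-m)) (d19_HB_zero s))

theorem d19_VC_HB (s : ℝ) {N : ℕ} (m : Fin N → ℤ) (θ c : Fin N → ℝ) : HB s (d19_VC m θ c) :=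
  d19_HB_sum Finset.univ (fun k => (c k : ℂ)) (fun k => d19_rc (m k) (θ k)) fun k => d19_rc_HB s _ _

theorem d19_cinv_id {n : ℕ} {ρ s M : ℝ} (h : Inv n ρ s M) (hn : 1 ≤ n) {z : ℂ} (hz : z ∈ St s) :
    cinv ρ (fun x => x) z = z := by
  have h1 := (h.inv _ (d19_id_AA hn) z hz).2.1
  have h2 : ∀ w : ℂ, cx (fun x : ℝ => x) w = w := by
    intro w
    unfold cx four fco
    simp
  rw [h2] at h1
  exact h1

/-- the extension of a real function to the strip -/
theorem d19_four_eq {n : ℕ} {ρ s M : ℝ} (h : Inv n ρ s M) {K : ℝ} {v : ℝ → ℝ} (hv : v ∈ VV n K) {f : ℂ → ℂ}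
    (hf : DifferentiableOn ℂ f (St (2 * ρ))) (hr : ∀ x : ℝ, f x = (v x : ℂ)) : ∀ z ∈ St (2 * ρ), four v z = f z := by
  have hρ : 0 < ρ := lt_of_lt_of_le h.pos.1 h.pos.2.1
  refine d19_idthm (by linarith) (h.vhol K v hv) hf fun x => ?_
  rw [h.vreal K v hv, hr]

/-- the vector field of a trigonometric polynomial at the identity -/
theorem d19_pull_id {n : ℕ} {ρ s M : ℝ} (h : Inv n ρ s M) (hn : 1 ≤ n) {K : ℝ} {v : ℝ → ℝ} (hv : v ∈ VV n K) {f : ℂ → ℂ}
    (hf : DifferentiableOn ℂ f (St (2 * ρ))) (hr : ∀ x : ℝ, f x = (v x : ℂ)) :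
    ∀ z ∈ St s, pull ρ (fun x => x) v z = f z := by
  intro z hz
  have hρ : 0 < ρ := lt_of_lt_of_le h.pos.1 h.pos.2.1
  unfold pull
  rw [d19_cinv_id h hn hz]
  refine d19_four_eq h hv hf hr z ?_
  have h1 : |z.im| < s := hz
  have h2 := h.pos.2.1
  show |z.im| < 2 * ρ
  linarith

end

end Pool.Agent.Helper67.DO
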