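import Pool.Agent.Helper68.DO.D19f

/-!
# MP_d07457_gt, module D19, part g: invariance of the coefficients
-/

namespace Pool.Agent.Helper67.DO

open scoped BigOperators Real
open MeasureTheory

noncomputable section

theorem d19_rr_VV {n : ℕ} (hn : 2 ≤ n) {N : ℕ} (m : Fin N → ℤ) : ∃ K : ℝ, 0 < K ∧ ∀ (k : Fin N) (θ : ℝ),
    d19_rr (m k) θ ∈ VV n K := by
  obtain ⟨K, hK, h⟩ := d19_VV_trig hn m
  refine ⟨K, hK, fun k θ => ?_⟩
  have h1 := h (fun _ => θ) (Pi.single k 1) fun j => by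
    by_cases hj : j = k
    · subst hj; simp
    · simp [hj]
  have e : d19_V m (fun _ => θ) (Pi.single k 1) = d19_rr (m k) θ := by
    funext x
    unfold d19_V
    rw [Finset.sum_eq_single k]
    · simp
    · intro j _ hj
      simp [hj]
    · simp
  rw [e] at h1
  exact h1

/-- sequence of directions -/
def d19_sq {q : ℕ} (l : Fin q → ℤ) (θ : Fin q → ℝ) : Sq :=
  fun b => if h : b < q then d19_rr (l ⟨b, h⟩) (θ ⟨b, h⟩) else fun _ => 0

theorem d19_sq_VV {n : ℕ} (hn : 2 ≤ n) {q : ℕ} (l : Fin q → ℤ) : ∃ K : ℝ, 0 < K ∧ ∀ (θ : Fin q → ℝ) (b : ℕ),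
    d19_sq l θ b ∈ VV n K := by
  obtain ⟨K, hK, h⟩ := d19_rr_VV hn l
  refine ⟨K, hK, fun θ b => ?_⟩
  unfold d19_sq
  by_cases hb : b < q
  · simp only [hb, dif_pos]
    exact h _ _
  · simp only [hb, dif_neg, not_false_eq_true]
    exact d19_zero_VV (by omega) hK.le

theorem d19_sq_fin {q : ℕ} (l : Fin q → ℤ) (θ : Fin q → ℝ) (b : Fin q) : d19_sq l θ b = d19_rr (l b) (θ b) := by
  unfold d19_sq
  simp

/-- expansion of exponentials -/
theorem d19_T_exp {E : Type*} [NormedAddCommGroup E] [NormedSpace ℂ E] {s0 C : ℝ} {T : (ℂ → ℂ) → E} (h : D19T s0 T C)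
    (m : ℤ) (t : ℝ) : Complex.exp (2 * π * Complex.I * m * t) • T (d19_ex m)
      = ∑ e : Fin 2, Complex.I ^ (e : ℕ) • T (d19_rc m (-(π / 2) * (e : ℕ) + 2 * π * m * t)) := by
  rw [← h.smul (d19_ex_HB s0 m), ← h.sum Finset.univ (fun e : Fin 2 => Complex.I ^ (e : ℕ))
    (fun e : Fin 2 => d19_rc m (-(π / 2) * (e : ℕ) + 2 * π * m * t)) fun e => d19_rc_HB s0 _ _]
  congr 1
  funext z
  rw [Fin.sum_univ_two]
  simp only [Fin.val_zero, Fin.val_one, pow_zero, pow_one, one_mul]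
  unfold d19_rc d19_ex
  rw [← Complex.exp_add]
  have h1 : Complex.cos (2 * π * m * z + ((-(π / 2) * ((1 : ℕ) : ℝ) + 2 * π * m * t : ℝ) : ℂ))
      = Complex.sin (2 * π * m * z + 2 * π * m * t) := by
    rw [← Complex.cos_sub_pi_div_two]
    congr 1
    push_cast
    ring
  have h2 : Complex.cos (2 * π * m * z + ((-(π / 2) * ((0 : ℕ) : ℝ) + 2 * π * m * t : ℝ) : ℂ))
      = Complex.cos (2 * π * m * z + 2 * π * m * t) := by
    congr 1
    push_cast
    ring
  rw [h1, h2]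
  have h3 : 2 * π * Complex.I * m * t + 2 * π * Complex.I * m * z = (2 * π * m * z + 2 * π * m * t) * Complex.I := by ring
  rw [h3, Complex.exp_mul_I]
  ring

theorem d19_Lam_exp {E : Type*} [NormedAddCommGroup E] [NormedSpace ℂ E] {s0 C : ℝ} {T : (ℂ → ℂ) → E} (h : D19T s0 T C)
    {q : ℕ} (Λ : ContinuousMultilinearMap ℂ (fun _ : Fin q => E) ℂ) (l : Fin q → ℤ) (t : ℝ) :
    d19_en l (fun _ => (t : ℂ)) * d19_b Λ T l = ∑ f : Fin q → Fin 2, (∏ j, Complex.I ^ (f j : ℕ)) *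
      Λ fun j => T (d19_rc (l j) (-(π / 2) * (f j : ℕ) + 2 * π * l j * t)) := by
  have h1 : d19_en l (fun _ => (t : ℂ)) * d19_b Λ T l
      = Λ fun j => Complex.exp (2 * π * Complex.I * l j * t) • T (d19_ex (l j)) := by
    rw [Λ.map_smul_univ, smul_eq_mul]
    rfl
  rw [h1]
  simp only [d19_T_exp h]
  rw [Λ.map_sum]
  refine Finset.sum_congr rfl fun f _ => ?_
  rw [Λ.map_smul_univ, smul_eq_mul]

section Ctx

variable {n n' p : ℕ} {ρ s M s0 : ℝ} {Ω : Type} [TopologicalSpace Ω] [CompactSpace Ω] [T2Space Ω]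
  [SecondCountableTopology Ω] [MeasurableSpace Ω] [BorelSpace Ω] {P : Measure Ω} [IsProbabilityMeasure P]
  {η : Ω → ℂ → ℂ} {w : Ω → (ℂ → ℂ) → ℂ} {Cw : ℝ}

/-- value on trigonometric monomials -/
theorem d19_TR (h : Ctx n n' ρ s M s0 Ω P η w Cw) (hn : 2 ≤ n) {q : ℕ} {C : Sq → ℂ} (hC : LC n' q C)
    (hmono : AA n ⊆ AA n')
    (Λ : ContinuousMultilinearMap ℂ (fun _ : Fin q => Lp ℂ 1 (PP P)) ℂ)
    (hΛ : ∀ (g : Fin q → Ω × ℝ → ℂ) (hg : ∀ j, Integrable (g j) (PP P)),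
      Λ (fun j => (hg j).toL1 (g j)) = ∫ ω : Fin (q + 1) → Ω × ℝ, d19_G q η C ω * ∏ j : Fin q, g j (ω j.castSucc)
        ∂(Measure.pi fun _ => PP P)) (l : Fin q → ℤ) (θ : Fin q → ℝ) :
    Λ (fun j => d19_T P w (d19_rc (l j) (θ j))) = CJ P η w ρ q C q (fun _ x => x) (d19_sq l θ) := by
  obtain ⟨K, hK, hVV⟩ := d19_sq_VV hn l
  have hid := d19_id_AA (n := n) (by omega)
  have hHB : ∀ b : Fin q, HB s0 (pull ρ (fun x => x) (d19_sq l θ b)) :=
    fun b => d19_pull_HB h.inv hid (hVV θ b) h.s0lt.le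
  rw [d19_CJ_eq h hC hmono Λ hΛ hid (fun _ x => x) (d19_sq l θ) (fun _ _ => rfl) hHB]
  congr 1
  funext b
  refine ((d19_T_T h.smd).ext _ _ (hHB b) fun z hz => ?_).symm
  refine d19_pull_id h.inv (by omega) (hVV θ b) (d19_rc_HB _ _ _).hol (fun x => ?_) z (lt_trans hz h.s0lt)
  rw [d19_rc_real, d19_sq_fin]

theorem d19_b_rot (h5 : ST_D5) (h : Ctx n n' ρ s M s0 Ω P η w Cw) (hn : 2 ≤ n) {q : ℕ} {C : Sq → ℂ} (hC : LC n' q C)
    (hmono : AA n ⊆ AA n') (htr : ∀ t : ℝ, (fun x => x + t) ∈ AA n)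
    (Λ : ContinuousMultilinearMap ℂ (fun _ : Fin q => Lp ℂ 1 (PP P)) ℂ)
    (hΛ : ∀ (g : Fin q → Ω × ℝ → ℂ) (hg : ∀ j, Integrable (g j) (PP P)),
      Λ (fun j => (hg j).toL1 (g j)) = ∫ ω : Fin (q + 1) → Ω × ℝ, d19_G q η C ω * ∏ j : Fin q, g j (ω j.castSucc)
        ∂(Measure.pi fun _ => PP P)) (l : Fin q → ℤ) (t : ℝ) :
    d19_en l (fun _ => (t : ℂ)) * d19_b Λ (d19_T P w) l = d19_b Λ (d19_T P w) l := by
  have hT := d19_T_T h.smd
  have e0 : d19_b Λ (d19_T P w) l = d19_en l (fun _ => ((0 : ℝ) : ℂ)) * d19_b Λ (d19_T P w) l := by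
    rw [Complex.ofReal_zero, d19_en_zero, one_mul]
  rw [d19_Lam_exp hT]
  conv_rhs => rw [e0, d19_Lam_exp hT]
  refine Finset.sum_congr rfl fun f _ => ?_
  congr 1
  obtain ⟨K, hK, hVV⟩ := d19_sq_VV hn l
  have key : ∀ θ : Fin q → ℝ, Λ (fun j => d19_T P w (d19_rc (l j) (θ j + 2 * π * l j * t)))
      = Λ (fun j => d19_T P w (d19_rc (l j) (θ j))) := by
    intro θ
    rw [d19_TR h hn hC hmono Λ hΛ l θ, d19_TR h hn hC hmono Λ hΛ l (fun j => θ j + 2 * π * l j * t)]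
    obtain ⟨-, -, -, h4, h5'⟩ := h5 n n' q ρ s M s0 Ω P η w Cw h C hC
    have hid := d19_id_AA (n := n) (by omega)
    have e1 := h5' q le_rfl (fun _ x => x) (d19_sq l (fun j => θ j + 2 * π * l j * t)) (fun _ => t) K
      (fun _ => hid) (fun b => hVV _ b)
    have hsq : (fun (b : ℕ) (x : ℝ) => d19_sq l θ b (x + t)) = d19_sq l (fun j => θ j + 2 * π * l j * t) := by
      funext b x
      unfold d19_sq
      by_cases hb : b < q
      · simp only [hb, dif_pos]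
        unfold d19_rr
        congr 1
        ring
      · simp only [hb, dif_neg, not_false_eq_true]
    have e2 := h4 q le_rfl (fun _ x => x) (d19_sq l θ) (fun x => x + t) K (htr t).1
      (fun _ => hid) (fun b => hVV _ b) (fun _ => htr t) ?_
    · rw [hsq] at e2
      rw [← e1]
      exact e2
    · intro b
      have := congrFun hsq b
      rw [this]
      exact hVV _ b
  have k1 := key (fun j => -(π / 2) * (f j : ℕ))
  rw [k1]
  congr 1
  funext j
  simp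

theorem d19_b_io (h7 : ST_D7) (h : Ctx n n' ρ s M s0 Ω P η w Cw) (hn : 2 ≤ n) {q : ℕ} {C : Sq → ℂ} (hC : LC n' q C)
    (hmono : AA n ⊆ AA n')
    (Λ : ContinuousMultilinearMap ℂ (fun _ : Fin q => Lp ℂ 1 (PP P)) ℂ)
    (hΛ : ∀ (g : Fin q → Ω × ℝ → ℂ) (hg : ∀ j, Integrable (g j) (PP P)),
      Λ (fun j => (hg j).toL1 (g j)) = ∫ ω : Fin (q + 1) → Ω × ℝ, d19_G q η C ω * ∏ j : Fin q, g j (ω j.castSucc)
        ∂(Measure.pi fun _ => PP P)) (l : Fin q → ℤ) (i : Fin q) (hi : l i = 0) :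
    d19_b Λ (d19_T P w) l = 0 := by
  have hT := d19_T_T h.smd
  have e0 : d19_b Λ (d19_T P w) l = d19_en l (fun _ => ((0 : ℝ) : ℂ)) * d19_b Λ (d19_T P w) l := by
    rw [Complex.ofReal_zero, d19_en_zero, one_mul]
  rw [e0, d19_Lam_exp hT]
  refine Finset.sum_eq_zero fun f _ => ?_
  obtain ⟨K, hK, hVV⟩ := d19_sq_VV hn l
  have key : ∀ θ : Fin q → ℝ, Λ (fun j => d19_T P w (d19_rc (l j) (θ j))) = 0 := by
    intro θ
    rw [d19_TR h hn hC hmono Λ hΛ l θ]
    have hid := d19_id_AA (n := n) (by omega)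
    let v : Sq := Function.update (d19_sq l θ) (i : ℕ) (fun _ => 0)
    have hv : ∀ b, v b ∈ VV n K := by
      intro b
      by_cases hb : b = i
      · subst hb
        simp only [v, Function.update_self]
        exact d19_zero_VV (by omega) hK.le
      · simp only [v, Function.update_of_ne hb]
        exact hVV θ b
    have e1 := h7 n n' q ρ s M s0 Ω P η w Cw h C hC q le_rfl (fun _ x => x) v
      (fun b => if b = i then Real.cos (θ i) else 0) K (fun _ => hid) hv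
    have e2 : (fun (b : ℕ) (x : ℝ) => v b x + (if b = i then Real.cos (θ i) else 0)) = d19_sq l θ := by
      funext b x
      by_cases hb : b = i
      · subst hb
        simp only [v, Function.update_self, if_true, zero_add]
        rw [d19_sq_fin]
        unfold d19_rr
        rw [hi]
        simp
      · simp only [v, Function.update_of_ne hb, hb, if_false, add_zero]
    rw [e2] at e1
    rw [e1]
    have hHB : ∀ b : Fin q, HB s0 (pull ρ (fun x => x) (v b)) :=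
      fun b => d19_pull_HB h.inv hid (hv b) h.s0lt.le
    rw [d19_CJ_eq h hC hmono Λ hΛ hid (fun _ x => x) v (fun _ _ => rfl) hHB]
    refine Λ.toMultilinearMap.map_coord_zero i ?_
    rw [← hT.zero]
    refine hT.ext _ _ (hHB i) fun z hz => ?_
    refine d19_pull_id h.inv (by omega) (hv i) (f := fun _ => 0) (differentiableOn_const _) (fun x => ?_) z
      (lt_trans hz h.s0lt)
    simp [v]
  rw [key, mul_zero]

end Ctx

end

end Pool.Agent.Helper67.DO
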