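import Pool.Agent.Helper68.DO.D19g

/-!
# MP_d07457_gt, module D19, part h: the functional `α` (everything except closedness), `δδ = 0`
-/

namespace Pool.Agent.Helper67.DO

open scoped BigOperators Real
open MeasureTheory

noncomputable section

theorem d19_main1 (h2 : ST_D2) (h5 : ST_D5) (h7 : ST_D7) (n n' p : ℕ) (ρ s M s0 s' : ℝ) (Ω : Type)
    [TopologicalSpace Ω] [CompactSpace Ω] [T2Space Ω]
    [SecondCountableTopology Ω] [MeasurableSpace Ω] [BorelSpace Ω] (P : Measure Ω) [IsProbabilityMeasure P]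
    (η : Ω → ℂ → ℂ) (w : Ω → (ℂ → ℂ) → ℂ) (Cw : ℝ) (h : Ctx n n' ρ s M s0 Ω P η w Cw) (hn : 2 ≤ n)
    (hs0 : s0 < s') (hs' : s' < s) (C : Sq → ℂ) (hC : LC n' (p + 1) C) :
    ∃ α, Fnl (p + 1) (St s') α ∧ Rot (p + 1) s' α ∧ Io p s' α ∧
      ∀ y z : Sq, (∀ k, y k ∈ AA n) → cub (p + 1) (fF (CJ P η w ρ (p + 1) C) (p + 1) y z) = II ρ (p + 1) α y := by
  obtain ⟨hmono, -, -, htr, -, -, hPhi, hdPhi⟩ := h2
  have hmono' := hmono n n' h.good.1 h.good.2.1
  obtain ⟨BG, hBG⟩ := d19_G_bdd h hC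
  obtain ⟨Λ, hΛ⟩ := d19_Lam (PP P) (q := p + 1) (d19_G (p + 1) η C) (d19_G_cont h hC).aestronglyMeasurable BG hBG
  have hT := d19_T_T h.smd
  have hgr := d19_b_gr Λ hT
  have hs0' := h.s0pos
  refine ⟨d19_al (d19_b Λ (d19_T P w)), d19_al_fnl hs0' hs0 hgr, ?_, ?_, ?_⟩
  · intro s1 hs1 F hF t
    exact d19_al_rot (by linarith) (fun l t => d19_b_rot h5 h hn hC hmono' (htr n h.good.1) Λ hΛ l t) (d19_BO_PH hF) t
  · intro s1 hs1 F hF
    exact d19_al_io hs0' (hs0.trans hs1) hgr (fun l ⟨i, hi⟩ => d19_b_io h7 h hn hC hmono' Λ hΛ l i hi) (d19_BO_PH hF)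
  · intro y z hy
    unfold cub II cub
    refine setIntegral_congr_fun measurableSet_Icc fun u hu => ?_
    have hΦ := hPhi n h.good.1 (p + 1) y hy u hu
    obtain ⟨K, hK⟩ := hdPhi n h.good.1 (p + 1) y hy
    have hHB : ∀ a : Fin (p + 1), HB s' (pull ρ (Phi (p + 1) y u) (dPhi (p + 1) y a u)) :=
      fun a => d19_pull_HB h.inv hΦ (hK u hu a) hs'.le
    show fF (CJ P η w ρ (p + 1) C) (p + 1) y z u = d19_al (d19_b Λ (d19_T P w))
      (WW fun a => pull ρ (Phi (p + 1) y u) (dPhi (p + 1) y a u))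
    rw [d19_al_WW hs0' hs0 Λ hT _ hHB]
    unfold fF
    refine Finset.sum_congr rfl fun σ _ => ?_
    congr 1
    have hd : ∀ b : Fin (p + 1), dirs y u σ b = dPhi (p + 1) y (σ b) u := by
      intro b
      unfold dirs
      rw [dif_pos b.is_lt]
    rw [d19_CJ_eq h hC hmono' Λ hΛ hΦ (Tp (p + 1) (Phi (p + 1) y u) z) (dirs y u σ)]
    · simp only [hd]
    · intro k hk
      unfold Tp
      simp [hk]
    · intro b
      rw [hd]
      exact d19_HB_mono hs0.le (hHB _)

/-! ### `δδ = 0` -/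

theorem d19_rm_rm (i j : ℕ) (h : j ≤ i) (y : Sq) : rm i (rm j y) = rm j (rm (i + 1) y) := by
  funext k
  unfold rm
  by_cases h1 : k < j
  · have h2 : k < i := by omega
    have h3 : k < i + 1 := by omega
    simp [h1, h2, h3]
  · by_cases h2 : k < i
    · have h3 : k + 1 < i + 1 := by omega
      simp [h1, h2]
    · have h3 : ¬ (k + 1 < i + 1) := by omega
      have h4 : ¬ (k + 1 < j) := by omega
      simp [h1, h2, h4]

theorem d19_dlt_dlt (p : ℕ) (X : Sq → ℂ) (y : Sq) : dlt (p + 1) (dlt p X) y = 0 := by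
  unfold dlt
  simp only [Finset.mul_sum]
  rw [← Finset.sum_product']
  refine Finset.sum_involution (fun x _ => if x.1 ≤ x.2 then (x.2 + 1, x.1) else (x.2, x.1 - 1)) ?_ ?_ ?_ ?_
  · rintro ⟨i, j⟩ hij
    simp only [Finset.mem_product, Finset.mem_range] at hij
    by_cases hle : i ≤ j
    · simp only [hle, if_true]
      rw [d19_rm_rm j i hle]
      ring
    · simp only [hle, if_false]
      have h1 : j ≤ i - 1 := by omega
      have h2 := d19_rm_rm (i - 1) j h1 y
      rw [Nat.sub_add_cancel (by omega)] at h2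
      rw [h2]
      obtain ⟨i', rfl⟩ : ∃ i', i = i' + 1 := ⟨i - 1, by omega⟩
      simp only [Nat.add_sub_cancel]
      ring
  · rintro ⟨i, j⟩ hij _ heq
    by_cases hle : i ≤ j
    · simp only [hle, if_true, Prod.mk.injEq] at heq
      omega
    · simp only [hle, if_false, Prod.mk.injEq] at heq
      omega
  · rintro ⟨i, j⟩ hij
    simp only [Finset.mem_product, Finset.mem_range] at hij ⊢
    by_cases hle : i ≤ j
    · simp only [hle, if_true]
      omega
    · simp only [hle, if_false]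
      omega
  · rintro ⟨i, j⟩ hij
    by_cases hle : i ≤ j
    · have : ¬ (j + 1 ≤ i) := by omega
      simp [hle, this]
    · have h1 : j ≤ i - 1 := by omega
      have h2 : i - 1 + 1 = i := by omega
      simp only [hle, if_false]
      rw [if_pos h1, h2]

theorem d19_dlt_add (p : ℕ) (X Y : Sq → ℂ) (y : Sq) : dlt p (fun y => X y + Y y) y = dlt p X y + dlt p Y y := by
  unfold dlt
  rw [← Finset.sum_add_distrib]
  exact Finset.sum_congr rfl fun i _ => by ring

theorem d19_dlt_smul (p : ℕ) (c : ℂ) (X : Sq → ℂ) (y : Sq) : dlt p (fun y => c * X y) y = c * dlt p X y := by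
  unfold dlt
  rw [Finset.mul_sum]
  exact Finset.sum_congr rfl fun i _ => by ring

theorem d19_dlt_congr (n p : ℕ) {X Y : Sq → ℂ} (h : ∀ y : Sq, (∀ k, y k ∈ AA n) → X y = Y y) (y : Sq)
    (hy : ∀ k, y k ∈ AA n) : dlt p X y = dlt p Y y := by
  unfold dlt
  refine Finset.sum_congr rfl fun i _ => ?_
  rw [h]
  intro k
  unfold rm
  split_ifs
  · exact hy _
  · exact hy _

end

end Pool.Agent.Helper67.DO
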