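import Pool.Agent.Helper68.DO.D19h

/-!
# MP_d07457_gt, module D19, part i: bounded functionals, density of wedges of exponentials
-/

namespace Pool.Agent.Helper67.DO

open scoped BigOperators Real
open MeasureTheory

noncomputable section

theorem d19_BO_lin {q : ℕ} {U : Set ℂ} {F G : (Fin q → ℂ) → ℂ} (c : ℂ) (hF : BO q U F) (hG : BO q U G) :
    BO q U (fun z => c * F z + G z) := by
  obtain ⟨A, hA⟩ := hF.bdd
  obtain ⟨B, hB⟩ := hG.bdd
  refine ⟨(hF.hol.const_mul c).add hG.hol, fun z hz i => by rw [hF.per z hz i, hG.per z hz i],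
    fun z hz σ => by rw [hF.alt z hz σ, hG.alt z hz σ]; ring, ‖c‖ * A + B, fun z hz => ?_⟩
  refine (norm_add_le _ _).trans (add_le_add ?_ (hB z hz))
  rw [norm_mul]
  exact mul_le_mul_of_nonneg_left (hA z hz) (norm_nonneg _)

theorem d19_BO_zero {q : ℕ} {U : Set ℂ} : BO q U (fun _ => 0) :=
  ⟨differentiableOn_const _, fun _ _ _ => rfl, fun _ _ _ => by simp, 0, fun _ _ => by simp⟩

theorem d19_BO_smul {q : ℕ} {U : Set ℂ} {F : (Fin q → ℂ) → ℂ} (c : ℂ) (hF : BO q U F) : BO q U (fun z => c * F z) := by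
  simpa using d19_BO_lin c hF (d19_BO_zero (q := q) (U := U))

theorem d19_BO_sum {q : ℕ} {U : Set ℂ} {ι : Type*} (S : Finset ι) (c : ι → ℂ) (F : ι → (Fin q → ℂ) → ℂ)
    (h : ∀ i, BO q U (F i)) : BO q U (fun z => ∑ i ∈ S, c i * F i z) := by
  classical
  induction S using Finset.induction_on with
  | empty => simpa using d19_BO_zero (q := q) (U := U)
  | insert a S ha ih =>
    have := d19_BO_lin (c a) (h a) ih
    simpa [Finset.sum_insert ha] using this

theorem d19_BO_mono {q : ℕ} {s s' : ℝ} (hs : s' ≤ s) {F : (Fin q → ℂ) → ℂ} (hF : BO q (St s) F) : BO q (St s') F := by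
  have hsub : PU q (St s') ⊆ PU q (St s) := fun z hz j => lt_of_lt_of_le (hz j) hs
  obtain ⟨A, hA⟩ := hF.bdd
  exact ⟨hF.hol.mono hsub, fun z hz => hF.per z (hsub hz), fun z hz => hF.alt z (hsub hz), A, fun z hz => hA z (hsub hz)⟩

theorem d19_fnl_lin {q : ℕ} {U : Set ℂ} {β : ((Fin q → ℂ) → ℂ) → ℂ} (hβ : Fnl q U β) {F G : (Fin q → ℂ) → ℂ} (c : ℂ)
    (hF : BO q U F) (hG : BO q U G) : β (fun z => c * F z + G z) = c * β F + β G := by
  rw [hβ.add _ _ (d19_BO_smul c hF) hG, hβ.smul c F hF]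

theorem d19_fnl_zero {q : ℕ} {U : Set ℂ} {β : ((Fin q → ℂ) → ℂ) → ℂ} (hβ : Fnl q U β) : β (fun _ => 0) = 0 := by
  have := hβ.smul 0 (fun _ => 0) d19_BO_zero
  simpa using this

theorem d19_fnl_sum {q : ℕ} {U : Set ℂ} {β : ((Fin q → ℂ) → ℂ) → ℂ} (hβ : Fnl q U β) {ι : Type*} (S : Finset ι)
    (c : ι → ℂ) (F : ι → (Fin q → ℂ) → ℂ) (h : ∀ i, BO q U (F i)) :
    β (fun z => ∑ i ∈ S, c i * F i z) = ∑ i ∈ S, c i * β (F i) := by
  classical
  induction S using Finset.induction_on with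
  | empty => simpa using d19_fnl_zero hβ
  | insert a S ha ih =>
    have := d19_fnl_lin hβ (c a) (h a) (d19_BO_sum S c F h)
    rw [Finset.sum_insert ha, ← ih, ← this]
    simp only [Finset.sum_insert ha]

/-- difference estimate -/
theorem d19_fnl_diff {q : ℕ} {U : Set ℂ} {β : ((Fin q → ℂ) → ℂ) → ℂ} (hβ : Fnl q U β) :
    ∃ C : ℝ, 0 ≤ C ∧ ∀ F G : (Fin q → ℂ) → ℂ, BO q U F → BO q U G → ∀ ε : ℝ, 0 ≤ ε → (∀ z ∈ PU q U, ‖F z - G z‖ ≤ ε) →
      ‖β F - β G‖ ≤ C * ε := by
  obtain ⟨C, hC, h⟩ := hβ.bdd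
  refine ⟨C, hC, fun F G hF hG ε hε hFG => ?_⟩
  have h1 := d19_fnl_lin hβ (-1) hG hF
  have h2 : β F - β G = β (fun z => -1 * G z + F z) := by rw [h1]; ring
  rw [h2]
  refine h _ (d19_BO_lin (-1) hG hF) ε (fun z hz => ?_) hε
  have : -1 * G z + F z = F z - G z := by ring
  rw [this]
  exact hFG z hz

theorem d19_fnl_congr {q : ℕ} {U : Set ℂ} {β : ((Fin q → ℂ) → ℂ) → ℂ} (hβ : Fnl q U β) {F G : (Fin q → ℂ) → ℂ}
    (hF : BO q U F) (hG : BO q U G) (h : ∀ z ∈ PU q U, F z = G z) : β F = β G := by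
  obtain ⟨C, _, hC⟩ := d19_fnl_diff hβ
  have := hC F G hF hG 0 le_rfl fun z hz => by rw [h z hz]; simp
  rw [mul_zero] at this
  exact sub_eq_zero.1 (norm_le_zero_iff.1 this)

/-- `F ↦ α (∂F)` is a bounded functional on larger strips -/
theorem d19_dd_fnl (hE1 : ST_E1) {q : ℕ} {s' s2 : ℝ} (hs : s' < s2) {α : ((Fin q → ℂ) → ℂ) → ℂ}
    (hα : Fnl q (St s') α) : Fnl (q + 1) (St s2) (fun F => α (dd q F)) := by
  have hper : Per (St s2) := by intro z; simp [St]
  have hball : ∀ z ∈ St s', Metric.ball z (s2 - s') ⊆ St s2 := by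
    intro z hz w hw
    rw [Metric.mem_ball, dist_eq_norm] at hw
    have h1 := Complex.abs_im_le_norm (w - z)
    have h2 : |z.im| < s' := hz
    show |w.im| < s2
    have h3 : w.im = (w - z).im + z.im := by simp
    rw [h3]
    refine lt_of_le_of_lt (abs_add_le _ _) (by linarith)
  have hr : 0 < s2 - s' := by linarith
  have hsub : PU (q + 1) (St s') ⊆ PU (q + 1) (St s2) := fun z hz j => lt_trans (hz j) hs
  have hBO : ∀ F, BO (q + 1) (St s2) F → BO q (St s') (dd q F) := fun F hF =>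
    (hE1 q _ _ _ (d19_isOpen_St s') (d19_isOpen_St s2) hper hr hball F hF).1
  -- differentiability in the variable `t`
  have hdiff : ∀ F, BO (q + 1) (St s2) F → ∀ z ∈ PU q (St s'), ∀ i : Fin q,
      DifferentiableAt ℂ (fun t : ℂ => F (i.succ.insertNth t z)) (z i) := by
    intro F hF z hz i
    have hm : (i.succ.insertNth (z i) z : Fin (q + 1) → ℂ) ∈ PU (q + 1) (St s2) := by
      intro j
      refine Fin.succAboveCases i.succ ?_ (fun k => ?_) j
      · rw [Fin.insertNth_apply_same]; exact lt_trans (hz i) hs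
      · rw [Fin.insertNth_apply_succAbove]; exact lt_trans (hz k) hs
    have h1 := hF.hol.differentiableAt ((d19_isOpen_PU (d19_isOpen_St s2)).mem_nhds hm)
    refine DifferentiableAt.comp (z i) (f := fun t : ℂ => (i.succ.insertNth t z : Fin (q + 1) → ℂ)) h1 ?_
    rw [differentiableAt_pi]
    intro j
    refine Fin.succAboveCases i.succ ?_ (fun k => ?_) j
    · simp only [Fin.insertNth_apply_same]; exact differentiableAt_id
    · simp only [Fin.insertNth_apply_succAbove]; exact differentiableAt_const _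
  obtain ⟨C, hC, hCb⟩ := hα.bdd
  refine ⟨fun F G hF hG => ?_, fun c F hF => ?_, C * (q / (s2 - s')), by positivity, fun F hF M hM hM0 => ?_⟩
  · show α (dd q (fun z => F z + G z)) = α (dd q F) + α (dd q G)
    rw [← hα.add _ _ (hBO F hF) (hBO G hG)]
    have hFG : BO (q + 1) (St s2) (fun z => F z + G z) := by simpa using d19_BO_lin 1 hF hG
    have hFG' : BO q (St s') (fun z => dd q F z + dd q G z) := by simpa using d19_BO_lin 1 (hBO F hF) (hBO G hG)
    refine d19_fnl_congr hα (hBO _ hFG) hFG' fun z hz => ?_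
    unfold dd
    rw [← Finset.sum_add_distrib]
    refine Finset.sum_congr rfl fun i _ => ?_
    rw [← mul_add]
    congr 1
    exact deriv_fun_add (hdiff F hF z hz i) (hdiff G hG z hz i)
  · show α (dd q (fun z => c * F z)) = c * α (dd q F)
    rw [← hα.smul c _ (hBO F hF)]
    congr 1
    funext z
    unfold dd
    rw [Finset.mul_sum]
    refine Finset.sum_congr rfl fun i _ => ?_
    have : deriv (fun t : ℂ => c * F (i.succ.insertNth t z)) (z i)
        = c * deriv (fun t : ℂ => F (i.succ.insertNth t z)) (z i) := by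
      rw [deriv_const_mul_field]
    rw [this]
    ring
  · have h1 := (hE1 q _ _ _ (d19_isOpen_St s') (d19_isOpen_St s2) hper hr hball F hF).2 M hM
    refine (hCb _ (hBO F hF) (q * M / (s2 - s')) h1 (by positivity)).trans (le_of_eq ?_)
    ring

/-! ### wedges of exponentials -/

/-- multilinearity of wedges -/
theorem d19_WW_multi {q : ℕ} {ι : Type*} [Fintype ι] [DecidableEq ι] (c : ι → ℂ) (r : Fin q → ι → ℂ → ℂ) (z : Fin q → ℂ) :
    WW (fun k z => ∑ e, c e * r k e z) z = ∑ f : Fin q → ι, (∏ k, c (f k)) * WW (fun k => r k (f k)) z := by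
  unfold WW
  have h1 : (Matrix.of fun i j => ∑ e, c e * r i e (z j)) = fun i => ∑ e, c e • (fun j => r i e (z j)) := by
    funext i j
    simp
  have h2 := (Matrix.detRowAlternating (R := ℂ) (n := Fin q)).toMultilinearMap.map_sum
    (fun i (e : ι) => c e • (fun j => r i e (z j)))
  have h3 : Matrix.det (Matrix.of fun i j => ∑ e, c e * r i e (z j)) =
      (Matrix.detRowAlternating (R := ℂ) (n := Fin q)).toMultilinearMap (fun i => ∑ e, c e • (fun j => r i e (z j))) := by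
    rw [h1]
    rfl
  rw [h3, h2]
  refine Finset.sum_congr rfl fun f _ => ?_
  rw [MultilinearMap.map_smul_univ, smul_eq_mul]
  rfl

/-- from real trigonometric monomials to exponentials -/
theorem d19_WW_ex {Q : ℕ} {s2 : ℝ} {β : ((Fin Q → ℂ) → ℂ) → ℂ} (hβ : Fnl Q (St s2) β)
    (h : ∀ (m : Fin Q → ℤ) (θ : Fin Q → ℝ), β (WW fun k => d19_rc (m k) (θ k)) = 0) (l : Fin Q → ℤ) :
    β (WW fun k => d19_ex (l k)) = 0 := by
  have e1 : (WW fun k => d19_ex (l k)) = fun z => ∑ f ∈ (Finset.univ : Finset (Fin Q → Fin 2)),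
      (∏ k, Complex.I ^ (f k : ℕ)) * WW (fun k => d19_rc (l k) (-(π / 2) * (f k : ℕ))) z := by
    funext z
    rw [← d19_WW_multi (fun e : Fin 2 => Complex.I ^ (e : ℕ)) (fun k e => d19_rc (l k) (-(π / 2) * (e : ℕ))) z]
    congr 1
    funext k w
    rw [Fin.sum_univ_two]
    simp only [Fin.val_zero, Fin.val_one, pow_zero, pow_one, one_mul]
    unfold d19_rc d19_ex
    have h1 : Complex.cos (2 * π * l k * w + ((-(π / 2) * ((1 : ℕ) : ℝ) : ℝ) : ℂ)) = Complex.sin (2 * π * l k * w) := by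
      rw [← Complex.cos_sub_pi_div_two]
      congr 1
      push_cast
      ring
    have h2 : Complex.cos (2 * π * l k * w + ((-(π / 2) * ((0 : ℕ) : ℝ) : ℝ) : ℂ)) = Complex.cos (2 * π * l k * w) := by
      congr 1
      push_cast
      ring
    rw [h1, h2]
    have h3 : 2 * π * Complex.I * l k * w = (2 * π * l k * w) * Complex.I := by ring
    rw [h3, Complex.exp_mul_I]
    ring
  rw [e1, d19_fnl_sum hβ _ _ _ fun f => d19_WW_BO _ fun k => d19_rc_HB s2 _ _]
  refine Finset.sum_eq_zero fun f _ => ?_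
  rw [h, mul_zero]

/-- antisymmetrized exponentials -/
theorem d19_en_alt {Q : ℕ} (l : Fin Q → ℤ) (z : Fin Q → ℂ) :
    ∑ σ : Equiv.Perm (Fin Q), ((Equiv.Perm.sign σ : ℤ) : ℂ) * d19_en l (fun j => z (σ j)) = WW (fun k => d19_ex (l k)) z := by
  unfold WW
  rw [← Matrix.det_transpose, Matrix.det_apply']
  rfl

/-- density -/
theorem d19_vanish_dense {Q : ℕ} {s2 s1 : ℝ} (hs2 : 0 < s2) (hs1 : s2 < s1) {β : ((Fin Q → ℂ) → ℂ) → ℂ} (hβ : Fnl Q (St s2) β)
    (h : ∀ l : Fin Q → ℤ, β (WW fun k => d19_ex (l k)) = 0) {F : (Fin Q → ℂ) → ℂ} (hF : BO Q (St s1) F) : β F = 0 := by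
  obtain ⟨C, hC, hCd⟩ := d19_fnl_diff hβ
  have hfact : (Fintype.card (Equiv.Perm (Fin Q)) : ℂ) ≠ 0 := by
    exact_mod_cast Fintype.card_ne_zero
  have hfact' : (0 : ℝ) < (Fintype.card (Equiv.Perm (Fin Q)) : ℝ) := by
    exact_mod_cast Fintype.card_pos
  have key : ∀ ε : ℝ, 0 < ε → ‖β F‖ ≤ C * ε := by
    intro ε hε
    obtain ⟨T, hT⟩ := d19_dense hs2 hs1 (d19_BO_PH hF) ε hε
    have hG : BO Q (St s2) (fun z => ∑ l ∈ T, (d19_cf F (fun _ => 0) l / (Fintype.card (Equiv.Perm (Fin Q)) : ℂ)) *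
        WW (fun k => d19_ex (l k)) z) :=
      d19_BO_sum T _ (fun l => WW fun k => d19_ex (l k)) fun l => d19_WW_BO _ fun k => d19_ex_HB s2 _
    have hG0 : β (fun z => ∑ l ∈ T, (d19_cf F (fun _ => 0) l / (Fintype.card (Equiv.Perm (Fin Q)) : ℂ)) *
        WW (fun k => d19_ex (l k)) z) = 0 := by
      rw [d19_fnl_sum hβ T _ (fun l => WW fun k => d19_ex (l k)) fun l => d19_WW_BO _ fun k => d19_ex_HB s2 _]
      exact Finset.sum_eq_zero fun l _ => by rw [h l, mul_zero]
    have := hCd F _ (d19_BO_mono hs1.le hF) hG ε hε.le ?_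
    · rw [hG0, sub_zero] at this
      exact this
    · intro z hz
      have hzs : ∀ σ : Equiv.Perm (Fin Q), (fun j => z (σ j)) ∈ PU Q (St s2) := fun σ j => hz _
      have hz1 : z ∈ PU Q (St s1) := fun j => lt_trans (hz j) hs1
      have e1 : F z - ∑ l ∈ T, (d19_cf F (fun _ => 0) l / (Fintype.card (Equiv.Perm (Fin Q)) : ℂ)) *
          WW (fun k => d19_ex (l k)) z = (1 / (Fintype.card (Equiv.Perm (Fin Q)) : ℂ)) *
          ∑ σ : Equiv.Perm (Fin Q), ((Equiv.Perm.sign σ : ℤ) : ℂ) *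
            (F (fun j => z (σ j)) - ∑ l ∈ T, d19_cf F (fun _ => 0) l * d19_en l (fun j => z (σ j))) := by
        have e2 : ∑ σ : Equiv.Perm (Fin Q), ((Equiv.Perm.sign σ : ℤ) : ℂ) * F (fun j => z (σ j))
            = (Fintype.card (Equiv.Perm (Fin Q)) : ℂ) * F z := by
          have e3 : ∀ σ : Equiv.Perm (Fin Q), ((Equiv.Perm.sign σ : ℤ) : ℂ) * F (fun j => z (σ j)) = F z := by
            intro σ
            rw [hF.alt z hz1 σ, ← mul_assoc]
            have : ((Equiv.Perm.sign σ : ℤ) : ℂ) * ((Equiv.Perm.sign σ : ℤ) : ℂ) = 1 := by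
              rw [← Int.cast_mul, ← Units.val_mul, Int.units_mul_self]
              simp
            rw [this, one_mul]
          simp only [e3]
          simp
        have e4 : ∑ σ : Equiv.Perm (Fin Q), ((Equiv.Perm.sign σ : ℤ) : ℂ) *
            (∑ l ∈ T, d19_cf F (fun _ => 0) l * d19_en l (fun j => z (σ j)))
            = ∑ l ∈ T, d19_cf F (fun _ => 0) l * WW (fun k => d19_ex (l k)) z := by
          simp only [← d19_en_alt, Finset.mul_sum]
          rw [Finset.sum_comm]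
          refine Finset.sum_congr rfl fun l _ => Finset.sum_congr rfl fun σ _ => ?_
          ring
        simp only [mul_sub, Finset.sum_sub_distrib]
        rw [e2, e4, Finset.mul_sum, ← mul_assoc, one_div_mul_cancel hfact, one_mul]
        congr 1
        refine Finset.sum_congr rfl fun l _ => ?_
        ring
      rw [e1, norm_mul, norm_div, norm_one]
      have e5 : ‖∑ σ : Equiv.Perm (Fin Q), ((Equiv.Perm.sign σ : ℤ) : ℂ) *
            (F (fun j => z (σ j)) - ∑ l ∈ T, d19_cf F (fun _ => 0) l * d19_en l (fun j => z (σ j)))‖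
            ≤ (Fintype.card (Equiv.Perm (Fin Q)) : ℝ) * ε := by
        refine (norm_sum_le _ _).trans ?_
        have : ∀ σ : Equiv.Perm (Fin Q), ‖((Equiv.Perm.sign σ : ℤ) : ℂ) *
            (F (fun j => z (σ j)) - ∑ l ∈ T, d19_cf F (fun _ => 0) l * d19_en l (fun j => z (σ j)))‖ ≤ ε := by
          intro σ
          rw [norm_mul]
          have h1 : ‖((Equiv.Perm.sign σ : ℤ) : ℂ)‖ = 1 := by
            rcases Int.units_eq_one_or (Equiv.Perm.sign σ) with h | h <;> simp [h]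
          rw [h1, one_mul]
          exact hT _ (hzs σ)
        refine (Finset.sum_le_sum fun σ _ => this σ).trans ?_
        simp
      rw [Complex.norm_natCast]
      calc 1 / (Fintype.card (Equiv.Perm (Fin Q)) : ℝ) * _ ≤ 1 / (Fintype.card (Equiv.Perm (Fin Q)) : ℝ) *
            ((Fintype.card (Equiv.Perm (Fin Q)) : ℝ) * ε) := mul_le_mul_of_nonneg_left e5 (by positivity)
        _ = ε := by field_simp
  by_contra hne
  have h0 : 0 < ‖β F‖ := norm_pos_iff.2 hne
  have h1 := key (‖β F‖ / (2 * (C + 1))) (by positivity)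
  have h2 : C * (‖β F‖ / (2 * (C + 1))) ≤ ‖β F‖ / 2 := by
    rw [mul_div_assoc', div_le_div_iff₀ (by positivity) (by norm_num)]
    nlinarith
  linarith

end

end Pool.Agent.Helper67.DO
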