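import Pool.Agent.Helper68.DO.D19i

/-!
# MP_d07457_gt, module D19, part j: simplices near the identity
-/

namespace Pool.Agent.Helper67.DO

open scoped BigOperators Real
open MeasureTheory

noncomputable section

/-- `u_0 ⋯ u_{j-1}` -/
def d19_mu (Q j : ℕ) (u : Fin Q → ℝ) : ℝ := ∏ k : Fin Q, if (k : ℕ) < j then u k else 1

/-- its partial derivative -/
def d19_nu (Q j : ℕ) (a : Fin Q) (u : Fin Q → ℝ) : ℝ :=
  if (a : ℕ) < j then ∏ k ∈ Finset.univ.erase a, (if (k : ℕ) < j then u k else 1) else 0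

theorem d19_lam_eq (Q i : ℕ) (u : Fin Q → ℝ) (hi : i ≤ Q) :
    lam Q i u = (if i ≤ Q then d19_mu Q i u else 0) - (if i + 1 ≤ Q then d19_mu Q (i + 1) u else 0) := by
  rw [if_pos hi]
  unfold lam
  by_cases h : i + 1 ≤ Q
  · rw [if_pos h]
    have h1 : (∏ k : Fin Q, if (k : ℕ) = i then 1 - u k else 1) = 1 - u ⟨i, by omega⟩ := by
      rw [Finset.prod_eq_single ⟨i, by omega⟩]
      · simp
      · intro b _ hb
        have : (b : ℕ) ≠ i := fun h => hb (Fin.ext h)
        simp [this]
      · simp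
    have h2 : d19_mu Q (i + 1) u = d19_mu Q i u * u ⟨i, by omega⟩ := by
      unfold d19_mu
      rw [← Finset.mul_prod_erase Finset.univ _ (Finset.mem_univ (⟨i, by omega⟩ : Fin Q)),
        ← Finset.mul_prod_erase Finset.univ (fun k : Fin Q => if (k : ℕ) < i then u k else 1)
          (Finset.mem_univ (⟨i, by omega⟩ : Fin Q))]
      simp only [lt_add_iff_pos_right, zero_lt_one, if_true, lt_self_iff_false, if_false, one_mul]
      rw [mul_comm]
      congr 1
      refine Finset.prod_congr rfl fun k hk => ?_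
      have h3 : (k : ℕ) ≠ i := fun h => (Finset.ne_of_mem_erase hk) (Fin.ext h)
      have h4 : ((k : ℕ) < i + 1) ↔ ((k : ℕ) < i) := by omega
      simp only [h4]
    rw [h1, h2]
    unfold d19_mu
    ring
  · rw [if_neg h]
    have h1 : (∏ k : Fin Q, if (k : ℕ) = i then 1 - u k else 1) = 1 := by
      refine Finset.prod_eq_one fun k _ => ?_
      have := k.is_lt
      have : (k : ℕ) ≠ i := by omega
      simp [this]
    rw [h1]
    unfold d19_mu
    ring

theorem d19_mu_deriv (Q j : ℕ) (a : Fin Q) (u : Fin Q → ℝ) :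
    HasDerivAt (fun t => d19_mu Q j (Function.update u a t)) (d19_nu Q j a u) (u a) := by
  have e : (fun t => d19_mu Q j (Function.update u a t)) = fun t => (if (a : ℕ) < j then t else 1) *
      ∏ k ∈ Finset.univ.erase a, (if (k : ℕ) < j then u k else 1) := by
    funext t
    unfold d19_mu
    rw [← Finset.mul_prod_erase Finset.univ _ (Finset.mem_univ a), Function.update_self]
    congr 1
    refine Finset.prod_congr rfl fun k hk => ?_
    rw [Function.update_of_ne (Finset.ne_of_mem_erase hk)]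
  rw [e]
  unfold d19_nu
  by_cases h : (a : ℕ) < j
  · simp only [h, if_true]
    simpa using (hasDerivAt_id (u a)).mul_const (∏ k ∈ Finset.univ.erase a, (if (k : ℕ) < j then u k else 1))
  · simp only [h, if_false]
    exact hasDerivAt_const _ _

theorem d19_dlam_eq (Q i : ℕ) (a : Fin Q) (u : Fin Q → ℝ) (hi : i ≤ Q) :
    dlam Q i a u = (if i ≤ Q then d19_nu Q i a u else 0) - (if i + 1 ≤ Q then d19_nu Q (i + 1) a u else 0) := by
  unfold dlam
  have e : (fun t => lam Q i (Function.update u a t)) = fun t =>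
      (if i ≤ Q then d19_mu Q i (Function.update u a t) else 0) -
      (if i + 1 ≤ Q then d19_mu Q (i + 1) (Function.update u a t) else 0) :=
    funext fun t => d19_lam_eq Q i _ hi
  rw [e, if_pos hi]
  by_cases h : i + 1 ≤ Q
  · simp only [hi, h, if_true]
    exact ((d19_mu_deriv Q i a u).sub (d19_mu_deriv Q (i + 1) a u)).deriv
  · simp only [hi, h, if_true, if_false, sub_zero]
    exact (d19_mu_deriv Q i a u).deriv

/-- telescoping -/
theorem d19_tele (Q : ℕ) (L g : ℕ → ℝ)
    (h : ∀ i ≤ Q, L i = (if i ≤ Q then g i else 0) - (if i + 1 ≤ Q then g (i + 1) else 0)) (j : ℕ) (hj : j ≤ Q) :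
    ∑ i ∈ Finset.range (Q + 1), (if j ≤ i then L i else 0) = g j := by
  let G : ℕ → ℝ := fun i => if i ≤ Q then g i else 0
  have h1 : ∀ i ∈ Finset.range (Q + 1), (if j ≤ i then L i else 0)
      = (if j ≤ i then G i else G j) - (if j ≤ i + 1 then G (i + 1) else G j) := by
    intro i hi
    have hi' : i ≤ Q := by rw [Finset.mem_range] at hi; omega
    by_cases h2 : j ≤ i
    · have h3 : j ≤ i + 1 := by omega
      simp only [h2, h3, if_true]
      exact h i hi'
    · by_cases h3 : j ≤ i + 1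
      · have h4 : j = i + 1 := by omega
        subst h4
        simp
      · simp [h2, h3]
  rw [Finset.sum_congr rfl h1, Finset.sum_range_sub' (fun i => if j ≤ i then G i else G j)]
  have h2 : j ≤ Q + 1 := by omega
  have h3 : ¬ (Q + 1 ≤ Q) := by omega
  simp only [h2, if_true, G, h3, if_false, sub_zero]
  by_cases h4 : j ≤ 0
  · have : j = 0 := by omega
    subst this
    simp
  · simp [h4, hj]

/-- the vertices -/
def d19_y {Q : ℕ} (m : Fin Q → ℤ) (θ : Fin Q → ℝ) (t : ℝ) : Sq :=
  fun i x => x + d19_V m θ (fun k => if (k : ℕ) < i then t else 0) x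

theorem d19_Phi_eq {Q : ℕ} (m : Fin Q → ℤ) (θ : Fin Q → ℝ) (t : ℝ) (u : Fin Q → ℝ) :
    Phi Q (d19_y m θ t) u = fun x => x + d19_V m θ (fun k => t * d19_mu Q (k + 1) u) x := by
  funext x
  unfold Phi d19_y
  have h1 := d19_tele Q (fun i => lam Q i u) (fun i => d19_mu Q i u) (fun i hi => d19_lam_eq Q i u hi)
  have h0 : ∑ i ∈ Finset.range (Q + 1), lam Q i u = 1 := by
    have := h1 0 (by omega)
    simpa [d19_mu] using this
  have h2 : ∀ k : Fin Q, ∑ i ∈ Finset.range (Q + 1), lam Q i u * (if (k : ℕ) < i then t else 0)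
      = t * d19_mu Q (k + 1) u := by
    intro k
    rw [← h1 (k + 1) (by omega), Finset.mul_sum]
    refine Finset.sum_congr rfl fun i _ => ?_
    by_cases h3 : (k : ℕ) < i
    · have h4 : (k : ℕ) + 1 ≤ i := h3
      simp [h3, h4, mul_comm]
    · have h4 : ¬ ((k : ℕ) + 1 ≤ i) := h3
      simp [h3, h4]
  simp only [mul_add, Finset.sum_add_distrib]
  rw [← Finset.sum_mul, h0, one_mul]
  congr 1
  unfold d19_V
  simp only [Finset.mul_sum]
  rw [Finset.sum_comm]
  refine Finset.sum_congr rfl fun k _ => ?_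
  rw [← h2 k, Finset.sum_mul]
  exact Finset.sum_congr rfl fun i _ => by ring

theorem d19_dPhi_eq {Q : ℕ} (m : Fin Q → ℤ) (θ : Fin Q → ℝ) (t : ℝ) (a : Fin Q) (u : Fin Q → ℝ) :
    dPhi Q (d19_y m θ t) a u = fun x => t * d19_V m θ (fun k => d19_nu Q (k + 1) a u) x := by
  funext x
  unfold dPhi d19_y
  have h1 := d19_tele Q (fun i => dlam Q i a u) (fun i => d19_nu Q i a u) (fun i hi => d19_dlam_eq Q i a u hi)
  have h0 : ∑ i ∈ Finset.range (Q + 1), dlam Q i a u = 0 := by
    have := h1 0 (by omega)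
    simpa [d19_nu] using this
  have h2 : ∀ k : Fin Q, ∑ i ∈ Finset.range (Q + 1), dlam Q i a u * (if (k : ℕ) < i then t else 0)
      = t * d19_nu Q (k + 1) a u := by
    intro k
    rw [← h1 (k + 1) (by omega), Finset.mul_sum]
    refine Finset.sum_congr rfl fun i _ => ?_
    by_cases h3 : (k : ℕ) < i
    · have h4 : (k : ℕ) + 1 ≤ i := h3
      simp [h3, h4, mul_comm]
    · have h4 : ¬ ((k : ℕ) + 1 ≤ i) := h3
      simp [h3, h4]
  simp only [mul_add, Finset.sum_add_distrib]
  rw [← Finset.sum_mul, h0, zero_mul, zero_add]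
  unfold d19_V
  simp only [Finset.mul_sum]
  rw [Finset.sum_comm]
  refine Finset.sum_congr rfl fun k _ => ?_
  have h3 := h2 k
  calc ∑ i ∈ Finset.range (Q + 1), dlam Q i a u * ((if (k : ℕ) < i then t else 0) * d19_rr (m k) (θ k) x)
      = (∑ i ∈ Finset.range (Q + 1), dlam Q i a u * (if (k : ℕ) < i then t else 0)) * d19_rr (m k) (θ k) x := by
        rw [Finset.sum_mul]
        exact Finset.sum_congr rfl fun i _ => by ring
    _ = _ := by rw [h3]; ring

theorem d19_mu_le (Q j : ℕ) (u : Fin Q → ℝ) (hu : u ∈ Set.Icc (0 : Fin Q → ℝ) 1) : |d19_mu Q j u| ≤ 1 := by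
  unfold d19_mu
  rw [Finset.abs_prod]
  refine Finset.prod_le_one (fun _ _ => abs_nonneg _) fun k _ => ?_
  split_ifs
  · rw [abs_of_nonneg (hu.1 k)]; exact hu.2 k
  · simp

theorem d19_nu_le (Q j : ℕ) (a : Fin Q) (u : Fin Q → ℝ) (hu : u ∈ Set.Icc (0 : Fin Q → ℝ) 1) : |d19_nu Q j a u| ≤ 1 := by
  unfold d19_nu
  split_ifs
  · rw [Finset.abs_prod]
    refine Finset.prod_le_one (fun _ _ => abs_nonneg _) fun k _ => ?_
    split_ifs
    · rw [abs_of_nonneg (hu.1 k)]; exact hu.2 k
    · simp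
  · simp

theorem d19_mu_cont (Q j : ℕ) : Continuous (d19_mu Q j) := by
  unfold d19_mu
  refine continuous_finsetProd _ fun k _ => ?_
  split_ifs <;> fun_prop

theorem d19_nu_cont (Q j : ℕ) (a : Fin Q) : Continuous (d19_nu Q j a) := by
  unfold d19_nu
  split_ifs
  · refine continuous_finsetProd _ fun k _ => ?_
    split_ifs <;> fun_prop
  · fun_prop

/-- the Jacobian determinant -/
def d19_J (Q : ℕ) (u : Fin Q → ℝ) : Matrix (Fin Q) (Fin Q) ℂ := Matrix.of fun a k => (d19_nu Q (k + 1) a u : ℂ)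

theorem d19_J_det (Q : ℕ) (u : Fin Q → ℝ) : (d19_J Q u).det = ((∏ a : Fin Q, d19_nu Q (a + 1) a u : ℝ) : ℂ) := by
  rw [Matrix.det_of_isUpperTriangular]
  · rw [Complex.ofReal_prod]
    rfl
  · intro i j hij
    have h1 : j < i := hij
    have h2 : ¬ ((i : ℕ) < (j : ℕ) + 1) := by
      have : (j : ℕ) < i := h1
      omega
    show ((d19_nu Q (j + 1) i u : ℝ) : ℂ) = 0
    unfold d19_nu
    rw [if_neg h2]
    simp

theorem d19_J_pos (Q : ℕ) : 0 < ∫ u in Set.Icc (0 : Fin Q → ℝ) 1, ∏ a : Fin Q, d19_nu Q (a + 1) a u := by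
  have hc : Continuous (fun u : Fin Q → ℝ => ∏ a : Fin Q, d19_nu Q (a + 1) a u) :=
    continuous_finsetProd _ fun a _ => d19_nu_cont Q _ a
  rw [setIntegral_pos_iff_support_of_nonneg_ae]
  · have hsub : Set.pi Set.univ (fun _ : Fin Q => Set.Ioo (0 : ℝ) 1) ⊆
        Function.support (fun u : Fin Q → ℝ => ∏ a : Fin Q, d19_nu Q (a + 1) a u) ∩ Set.Icc 0 1 := by
      intro u hu
      refine ⟨?_, fun k => (hu k trivial).1.le, fun k => (hu k trivial).2.le⟩
      rw [Function.mem_support]
      refine Finset.prod_ne_zero_iff.2 fun a _ => ?_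
      unfold d19_nu
      rw [if_pos (by omega)]
      refine Finset.prod_ne_zero_iff.2 fun k _ => ?_
      split_ifs
      · exact (hu k trivial).1.ne'
      · exact one_ne_zero
    refine lt_of_lt_of_le ?_ (measure_mono hsub)
    rw [Real.volume_pi_Ioo]
    simp
  · refine (ae_restrict_mem measurableSet_Icc).mono fun u hu => ?_
    refine Finset.prod_nonneg fun a _ => ?_
    unfold d19_nu
    rw [if_pos (by omega)]
    refine Finset.prod_nonneg fun k _ => ?_
    split_ifs
    · exact hu.1 k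
    · exact zero_le_one
  · exact hc.continuousOn.integrableOn_compact isCompact_Icc

end

end Pool.Agent.Helper67.DO
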