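import Pool.Agent.Helper68.DO.D19j

/-!
# MP_d07457_gt, module D19, part k: functionals with `I(β) = 0` vanish
-/

namespace Pool.Agent.Helper67.DO

open scoped BigOperators Real
open MeasureTheory

noncomputable section

/-- uniform continuity of the determinant on bounded sets -/
theorem d19_det_unif (Q : ℕ) (B e : ℝ) (he : 0 < e) : ∃ δ : ℝ, 0 < δ ∧ ∀ A A' : Fin Q → Fin Q → ℂ,
    (∀ i j, ‖A i j‖ ≤ B) → (∀ i j, ‖A' i j‖ ≤ B) → (∀ i j, ‖A i j - A' i j‖ ≤ δ) →
    ‖Matrix.det (Matrix.of A) - Matrix.det (Matrix.of A')‖ ≤ e := by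
  have hK : IsCompact (Set.pi Set.univ fun _ : Fin Q => Set.pi Set.univ fun _ : Fin Q => Metric.closedBall (0 : ℂ) B) :=
    isCompact_univ_pi fun _ => isCompact_univ_pi fun _ => isCompact_closedBall _ _
  have hc : Continuous (fun A : Fin Q → Fin Q → ℂ => Matrix.det (Matrix.of A)) := by
    refine Continuous.matrix_det ?_
    exact continuous_id
  have hu := Metric.uniformContinuousOn_iff.1 (hK.uniformContinuousOn_of_continuous hc.continuousOn) e he
  obtain ⟨δ, hδ, h⟩ := hu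
  refine ⟨δ / 2, by linarith, fun A A' hA hA' hAA => ?_⟩
  have h1 := h A (fun i _ j _ => by simpa using hA i j) A' (fun i _ j _ => by simpa using hA' i j) ?_
  · rw [dist_eq_norm] at h1
    exact h1.le
  · refine lt_of_le_of_lt ?_ (half_lt_self hδ)
    rw [dist_pi_le_iff (by linarith)]
    intro i
    rw [dist_pi_le_iff (by linarith)]
    intro j
    rw [dist_eq_norm]
    exact hAA i j

theorem d19_V_diff {N : ℕ} (m : Fin N → ℤ) (θ : Fin N → ℝ) (c c' : Fin N → ℝ) {δ : ℝ} (hδ : 0 ≤ δ)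
    (h : ∀ k, |c k - c' k| ≤ δ / (N + 1)) (x : ℝ) : |d19_V m θ c x - d19_V m θ c' x| ≤ δ := by
  unfold d19_V
  rw [← Finset.sum_sub_distrib]
  refine (Finset.abs_sum_le_sum_abs _ _).trans ?_
  have h1 : ∀ k ∈ (Finset.univ : Finset (Fin N)), |c k * d19_rr (m k) (θ k) x - c' k * d19_rr (m k) (θ k) x| ≤ δ / (N + 1) := by
    intro k _
    rw [← sub_mul, abs_mul]
    exact (mul_le_of_le_one_right (abs_nonneg _) (d19_rr_le _ _ _)).trans (h k)
  refine (Finset.sum_le_sum h1).trans ?_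
  rw [Finset.sum_const, Finset.card_univ, Fintype.card_fin, nsmul_eq_mul, mul_div_assoc', div_le_iff₀ (by positivity)]
  nlinarith

theorem d19_four_smul (t : ℝ) (v : ℝ → ℝ) (z : ℂ) : four (fun x => t * v x) z = t * four v z := by
  unfold four
  rw [← tsum_mul_left]
  refine tsum_congr fun l => ?_
  have : fco (fun x => t * v x) l = t * fco v l := by
    unfold fco
    rw [← intervalIntegral.integral_const_mul]
    refine intervalIntegral.integral_congr fun x _ => ?_
    simp only [Complex.ofReal_mul]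
    ring
  rw [this]
  ring

theorem d19_WW_smul {Q : ℕ} (t : ℂ) (v : Fin Q → ℂ → ℂ) : WW (fun a z => t * v a z) = fun z => t ^ Q * WW v z := by
  funext z
  unfold WW
  have : (Matrix.of fun i j => t * v i (z j)) = t • (Matrix.of fun i j => v i (z j)) := by
    ext i j
    simp
  rw [this, Matrix.det_smul, Fintype.card_fin]

/-- key lemma: the limit at the identity -/
theorem d19_limit {n : ℕ} {ρ s M : ℝ} (h : Inv n ρ s M) (hn : 2 ≤ n) {Q : ℕ} {s2 : ℝ} (hs2 : s2 ≤ s)
    {β : ((Fin Q → ℂ) → ℂ) → ℂ} (hβ : Fnl Q (St s2) β) (hI : ∀ y : Sq, (∀ k, y k ∈ AA n) → II ρ Q β y = 0)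
    (m : Fin Q → ℤ) (θ : Fin Q → ℝ) : β (WW fun k => d19_rc (m k) (θ k)) = 0 := by
  obtain ⟨ε, hε, hAA⟩ := d19_AA_trig hn m
  obtain ⟨K, hK, hVV⟩ := d19_VV_trig hn m
  let Φ : ℝ × (Fin Q → ℝ) → ℝ → ℝ := fun x y => y + d19_V m θ (fun k => x.1 * d19_mu Q (k + 1) x.2) y
  let Wv : (Fin Q → ℝ) → Fin Q → ℝ → ℝ := fun u a => d19_V m θ (fun k => d19_nu Q (k + 1) a u)
  let F : ℝ × (Fin Q → ℝ) → (Fin Q → ℂ) → ℂ := fun x => WW fun a => pull ρ (Φ x) (Wv x.2 a)
  let D : Set (ℝ × (Fin Q → ℝ)) := Set.Icc 0 ε ×ˢ Set.Icc 0 1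
  have hΦ : ∀ x ∈ D, Φ x ∈ AA n := by
    intro x hx
    refine hAA θ _ fun k => ?_
    rw [abs_mul, abs_of_nonneg hx.1.1]
    exact (mul_le_of_le_one_right hx.1.1 (d19_mu_le Q _ _ hx.2)).trans hx.1.2
  have hW : ∀ x ∈ D, ∀ a, Wv x.2 a ∈ VV n K := fun x hx a => hVV θ _ fun k => d19_nu_le Q _ _ _ hx.2
  have hHB : ∀ x ∈ D, ∀ a, HB s2 (pull ρ (Φ x) (Wv x.2 a)) := fun x hx a => d19_pull_HB h (hΦ x hx) (hW x hx a) hs2
  have hBO : ∀ x ∈ D, BO Q (St s2) (F x) := fun x hx => d19_WW_BO _ (hHB x hx)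
  have hbound : ∀ x ∈ D, ∀ a, ∀ z ∈ St s2, ‖pull ρ (Φ x) (Wv x.2 a) z‖ ≤ M * K := by
    intro x hx a z hz
    have hz' : z ∈ St s := lt_of_lt_of_le hz hs2
    refine (h.vbd K _ (hW x hx a) _ ?_).2
    have h2 : |(cinv ρ (Φ x) z).im| < ρ := (h.inv _ (hΦ x hx) z hz').1
    have h3 : 0 < ρ := lt_of_lt_of_le h.pos.1 h.pos.2.1
    show |(cinv ρ (Φ x) z).im| < 2 * ρ
    linarith
  obtain ⟨C, hC, hCd⟩ := d19_fnl_diff hβ
  have hcont : ContinuousOn (fun x => β (F x)) D := by
    intro x0 hx0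
    rw [ContinuousWithinAt, Metric.tendsto_nhds]
    intro e he
    obtain ⟨δ1, hδ1, hdet⟩ := d19_det_unif Q (M * K) (e / (2 * (C + 1))) (by positivity)
    obtain ⟨δ2, hδ2, hstab⟩ := h.stab K δ1 hδ1
    have hδ3 : 0 < δ2 / (Q + 1) := by positivity
    have hm : ∀ k : Fin Q, ∀ᶠ x in nhdsWithin x0 D,
        |x.1 * d19_mu Q (k + 1) x.2 - x0.1 * d19_mu Q (k + 1) x0.2| ≤ δ2 / (Q + 1) := by
      intro k
      have hc : Continuous (fun x : ℝ × (Fin Q → ℝ) => x.1 * d19_mu Q (k + 1) x.2) :=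
        continuous_fst.mul ((d19_mu_cont Q _).comp continuous_snd)
      filter_upwards [(Metric.tendsto_nhds.1 hc.continuousAt.continuousWithinAt.tendsto) _ hδ3] with x hx
      rw [Real.dist_eq] at hx
      exact hx.le
    have hn' : ∀ a k : Fin Q, ∀ᶠ x in nhdsWithin x0 D,
        |d19_nu Q (k + 1) a x.2 - d19_nu Q (k + 1) a x0.2| ≤ δ2 / (Q + 1) := by
      intro a k
      have hc : Continuous (fun x : ℝ × (Fin Q → ℝ) => d19_nu Q (k + 1) a x.2) :=
        (d19_nu_cont Q _ a).comp continuous_snd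
      filter_upwards [(Metric.tendsto_nhds.1 hc.continuousAt.continuousWithinAt.tendsto) _ hδ3] with x hx
      rw [Real.dist_eq] at hx
      exact hx.le
    filter_upwards [Filter.eventually_all.2 hm, Filter.eventually_all.2 fun a => Filter.eventually_all.2 (hn' a),
      self_mem_nhdsWithin] with x h1 h2 hx
    rw [dist_eq_norm]
    have h3 : ∀ z ∈ PU Q (St s2), ‖F x z - F x0 z‖ ≤ e / (2 * (C + 1)) := by
      intro z hz
      refine hdet (fun a j => pull ρ (Φ x) (Wv x.2 a) (z j)) (fun a j => pull ρ (Φ x0) (Wv x0.2 a) (z j))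
        (fun a j => hbound x hx a _ (hz j)) (fun a j => hbound x0 hx0 a _ (hz j)) fun a j => ?_
      refine (hstab _ (hΦ x hx) _ (hΦ x0 hx0) _ (hW x hx a) _ (hW x0 hx0 a) (fun y => ?_) (fun y => ?_)).1 _
        (lt_of_lt_of_le (hz j) hs2)
      · show |(y + d19_V m θ _ y) - (y + d19_V m θ _ y)| ≤ δ2
        rw [add_sub_add_left_eq_sub]
        exact d19_V_diff m θ _ _ hδ2.le h1 y
      · exact d19_V_diff m θ _ _ hδ2.le (h2 a) y
    refine lt_of_le_of_lt (hCd _ _ (hBO x hx) (hBO x0 hx0) _ (by positivity) h3) ?_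
    rw [mul_div_assoc', div_lt_iff₀ (by positivity)]
    nlinarith
  -- vanishing for `t > 0`
  have hzero : ∀ t : ℝ, 0 < t → t ≤ ε → cub Q (fun u => β (F (t, u))) = 0 := by
    intro t ht htε
    have hy : ∀ i, d19_y m θ t i ∈ AA n := by
      intro i
      refine hAA θ _ fun k => ?_
      split_ifs
      · rw [abs_of_pos ht]; exact htε
      · rw [abs_zero]; exact hε.le
    have h1 := hI _ hy
    have h2 : II ρ Q β (d19_y m θ t) = cub Q (fun u => (t : ℂ) ^ Q * β (F (t, u))) := by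
      unfold II cub
      refine setIntegral_congr_fun measurableSet_Icc fun u hu => ?_
      have hx : ((t, u) : ℝ × (Fin Q → ℝ)) ∈ D := ⟨⟨ht.le, htε⟩, hu⟩
      have e1 : (fun a => pull ρ (Phi Q (d19_y m θ t) u) (dPhi Q (d19_y m θ t) a u))
          = fun a z => (t : ℂ) * pull ρ (Φ (t, u)) (Wv u a) z := by
        funext a z
        rw [d19_Phi_eq, d19_dPhi_eq]
        unfold pull
        rw [d19_four_smul]
      show β (WW fun a => pull ρ (Phi Q (d19_y m θ t) u) (dPhi Q (d19_y m θ t) a u)) = (t : ℂ) ^ Q * β (F (t, u))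
      rw [e1, d19_WW_smul]
      exact hβ.smul _ _ (hBO _ hx)
    rw [h2] at h1
    unfold cub at h1 ⊢
    rw [integral_const_mul] at h1
    have ht' : (t : ℂ) ^ Q ≠ 0 := pow_ne_zero _ (by exact_mod_cast ht.ne')
    exact (mul_eq_zero.1 h1).resolve_left ht'
  -- limit
  have hDc : IsCompact D := isCompact_Icc.prod isCompact_Icc
  obtain ⟨BH, hBH⟩ := hDc.exists_bound_of_continuousOn hcont
  let tn : ℕ → ℝ := fun k => ε / (k + 1)
  have htn : ∀ k, 0 < tn k ∧ tn k ≤ ε := by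
    intro k
    refine ⟨by positivity, ?_⟩
    rw [div_le_iff₀ (by positivity)]
    have : (0 : ℝ) ≤ k := Nat.cast_nonneg k
    nlinarith
  have htn0 : Filter.Tendsto tn Filter.atTop (nhds 0) :=
    ((tendsto_const_div_atTop_nhds_zero_nat ε).comp (Filter.tendsto_add_atTop_nat 1)).congr fun k => by
      simp [tn]
  have hfin : IsFiniteMeasure (volume.restrict (Set.Icc (0 : Fin Q → ℝ) 1)) := by
    constructor
    rw [Measure.restrict_apply MeasurableSet.univ, Set.univ_inter]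
    exact isCompact_Icc.measure_lt_top
  have hlim : Filter.Tendsto (fun k => cub Q (fun u => β (F (tn k, u)))) Filter.atTop
      (nhds (cub Q (fun u => β (F (0, u))))) := by
    unfold cub
    refine tendsto_integral_of_dominated_convergence (fun _ => BH) ?_ (integrable_const _) ?_ ?_
    · intro k
      refine ContinuousOn.aestronglyMeasurable ?_ measurableSet_Icc
      refine hcont.comp (f := fun u : Fin Q → ℝ => (tn k, u)) (by fun_prop) ?_
      intro u hu
      exact ⟨⟨(htn k).1.le, (htn k).2⟩, hu⟩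
    · intro k
      filter_upwards [ae_restrict_mem measurableSet_Icc] with u hu
      exact hBH _ ⟨⟨(htn k).1.le, (htn k).2⟩, hu⟩
    · filter_upwards [ae_restrict_mem measurableSet_Icc] with u hu
      have h0 : ((0, u) : ℝ × (Fin Q → ℝ)) ∈ D := ⟨⟨le_rfl, hε.le⟩, hu⟩
      refine (hcont _ h0).tendsto.comp ?_
      rw [tendsto_nhdsWithin_iff]
      refine ⟨htn0.prodMk_nhds tendsto_const_nhds, Filter.Eventually.of_forall fun k => ?_⟩
      exact ⟨⟨(htn k).1.le, (htn k).2⟩, hu⟩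
  have hlim0 : cub Q (fun u => β (F (0, u))) = 0 := by
    refine tendsto_nhds_unique hlim ?_
    have : (fun k => cub Q (fun u => β (F (tn k, u)))) = fun _ => 0 := funext fun k => hzero _ (htn k).1 (htn k).2
    rw [this]
    exact tendsto_const_nhds
  -- the value at `t = 0`
  have hval : cub Q (fun u => β (F (0, u))) =
      cub Q (fun u => ((∏ a : Fin Q, d19_nu Q (a + 1) a u : ℝ) : ℂ) * β (WW fun k => d19_rc (m k) (θ k))) := by
    unfold cub
    refine setIntegral_congr_fun measurableSet_Icc fun u hu => ?_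
    have h0 : ((0, u) : ℝ × (Fin Q → ℝ)) ∈ D := ⟨⟨le_rfl, hε.le⟩, hu⟩
    have hr : BO Q (St s2) (WW fun k => d19_rc (m k) (θ k)) := d19_WW_BO _ fun k => d19_rc_HB s2 _ _
    show β (F (0, u)) = _
    rw [← hβ.smul _ _ hr]
    refine d19_fnl_congr hβ (hBO _ h0) (d19_BO_smul _ hr) fun z hz => ?_
    have e1 : Φ (0, u) = fun x => x := by
      funext y
      show y + d19_V m θ (fun k => 0 * d19_mu Q (k + 1) u) y = y
      simp [d19_V]
    have e2 : ∀ a j, pull ρ (Φ (0, u)) (Wv u a) (z j) = ∑ k : Fin Q, (d19_nu Q (k + 1) a u : ℂ) * d19_rc (m k) (θ k) (z j) := by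
      intro a j
      rw [e1]
      exact d19_pull_id h (by omega) (hW _ h0 a) (d19_VC_HB (2 * ρ) m θ _).hol (fun x => d19_VC_real m θ _ x) _
        (lt_of_lt_of_le (hz j) hs2)
    show Matrix.det (Matrix.of fun a j => pull ρ (Φ (0, u)) (Wv u a) (z j)) = _
    rw [← d19_J_det]
    unfold WW
    rw [← Matrix.det_mul]
    congr 1
    ext a j
    rw [Matrix.mul_apply]
    exact e2 a j
  rw [hlim0] at hval
  unfold cub at hval
  rw [integral_mul_const] at hval
  have h1 : (∫ u in Set.Icc (0 : Fin Q → ℝ) 1, ((∏ a : Fin Q, d19_nu Q (a + 1) a u : ℝ) : ℂ)) ≠ 0 := by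
    rw [integral_complex_ofReal]
    have := d19_J_pos Q
    exact_mod_cast this.ne'
  exact (mul_eq_zero.1 hval.symm).resolve_left h1

end

end Pool.Agent.Helper67.DO
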